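import Mathlib

/-!
# Checker for boxes of parameters

`α = 1 / s`, `β = 1 / d`, where `s` is a simple zero and `d` a double zero.  All functions use raw
`Nat` operations on numbers with the fixed point scale `D`, signed numbers have the offset `Z`.
-/

namespace Pool.Agent.Helper65.Conn

noncomputable section

/-- fixed point scale `2 ^ 50` -/
def D : ℕ := 1125899906842624

/-- offset `2 ^ 130` -/
def Z : ℕ := 1361129467683753853853498429727072845824

/-- scale of the profile of the invariant set, `2 ^ 14` -/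
def S : ℕ := 16384

/-- offset of the profile, `2 ^ 19` -/
def OFF : ℕ := 524288

/-- second offset, `2 ^ 22` -/
def WW : ℕ := 4194304

/-- words of digits, the outermost letter is the last digit -/
inductive Wd
  | e
  | m (w : Wd)
  | o (w : Wd)
  | p (w : Wd)

/-- bounds for the errors and slopes at one depth: `ey` rounding error and `ky` curvature of `y`,
`My` Lipschitz constant, `rv, ru, rq` errors and `Mv, Mu, Mq, Nq` slopes of the affine models -/
structure Rad where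
  ey : ℕ
  ky : ℕ
  My : ℕ
  rv : ℕ
  Mv : ℕ
  ru : ℕ
  Mu : ℕ
  rq : ℕ
  Mq : ℕ
  Nq : ℕ

/-- a box: `α ∈ [a, a + da]`, `β ∈ [b, b + db]` -/
structure Root where
  a : ℕ
  da : ℕ
  b : ℕ
  db : ℕ
  za : ℕ
  zb : ℕ
  T : ℕ
  U : ℕ
  U1 : ℕ
  Q : ℕ
  rad : List Rad

/-- affine state of `v, u, q` -/
structure S7 where
  cv : ℕ
  mv : ℕ
  cu : ℕ
  mu : ℕ
  cq : ℕ
  mq : ℕ
  nq : ℕ

/-- multiplication of a number with offset -/
def mulO (x a z : ℕ) : ℕ := Nat.sub (Nat.div (Nat.mul x a) D) z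

/-- the next state before subtracting the digit -/
def nx (X : Root) (t : S7) : S7 :=
  let V0 := mulO t.cv X.b X.zb
  let MV0 := mulO t.mv X.b X.zb
  let W := Nat.sub (Nat.add t.cu Z) V0
  let cu' := mulO W X.b X.zb
  let MT := Nat.sub (Nat.sub (Nat.add t.mu (Nat.add Z Z)) t.cv) MV0
  let mu' := Nat.sub (Nat.add W (mulO MT X.b X.zb)) Z
  let WQ := Nat.sub (Nat.add t.cq Z) cu'
  ⟨V0, Nat.sub (Nat.add MV0 t.cv) Z,
    cu', mu', mulO WQ X.a X.za, Nat.sub (Nat.add WQ (mulO t.mq X.a X.za)) Z,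
    mulO (Nat.sub (Nat.add t.nq Z) mu') X.a X.za⟩

def addD (t : S7) : S7 :=
  ⟨Nat.add t.cv D, t.mv, t.cu, t.mu, t.cq, t.mq, t.nq⟩

def subD (t : S7) : S7 :=
  ⟨Nat.sub t.cv D, t.mv, t.cu, t.mu, t.cq, t.mq, t.nq⟩

/-- the affine state after a word -/
def st (X : Root) (w : Wd) : S7 :=
  Wd.rec (motive := fun _ => S7) ⟨Nat.sub Z D, Z, Z, Z, Z, Z, Z⟩
    (fun _ t => addD (nx X t)) (fun _ t => nx X t) (fun _ t => subD (nx X t)) w

/-- the value of `y` after a word for the parameter `a`, `z = (a - D) * 2 ^ 80` -/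
def yv (a z : ℕ) (w : Wd) : ℕ :=
  Wd.rec (motive := fun _ => ℕ) (Nat.sub Z D)
    (fun _ t => Nat.add (mulO t a z) D) (fun _ t => mulO t a z)
    (fun _ t => Nat.sub (mulO t a z) D) w

/-- the radii from the depth of the word on -/
def rs (X : Root) (w : Wd) : List Rad :=
  Wd.rec (motive := fun _ => List Rad) X.rad
    (fun _ t => t.tail) (fun _ t => t.tail) (fun _ t => t.tail) w

/-- a linear functional (differences of naturals) with its bound -/
structure Fn where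
  E : ℕ
  E' : ℕ
  A : ℕ
  A' : ℕ
  B : ℕ
  B' : ℕ
  C : ℕ
  C' : ℕ
  c : ℕ

/-- force the evaluation of a natural number -/
def force {α : Type} (n : ℕ) (f : ℕ → α) : α :=
  Nat.rec (motive := fun _ => α) (f 0) (fun m _ => f (Nat.succ m)) n

/-- maximum and minimum -/
def nmin (a b : ℕ) : ℕ := cond (Nat.ble a b) a b

def nmax (a b : ℕ) : ℕ := cond (Nat.ble a b) b a

/-- `2 ^ 80 = Z / D` -/
def ZD : ℕ := 1208925819614629174706176

/-- value of `y` at a parameter -/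
def yva (a : ℕ) (w : Wd) : ℕ := force (Nat.mul (Nat.sub a D) ZD) fun z => yv a z w

/-- error of the linear interpolation of `y` -/
def erry (r : Rad) (a1 a2 : ℕ) : ℕ :=
  Nat.add (Nat.add r.ey 2)
    (Nat.div (Nat.mul (Nat.div (Nat.mul r.ky (Nat.sub a2 a1)) D) (Nat.sub a2 a1))
      4503599627370496)

/-- the functional is larger than its bound on the box -/
def gtF (X : Root) (f : Fn) (w : Wd) (t : S7) (r : Rad) (a1 a2 b1 b2 : ℕ) : Bool :=
  force (Nat.sub a1 X.a) fun d1 =>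
  force (Nat.sub a2 X.a) fun d2 =>
  force (Nat.sub b1 X.b) fun e1 =>
  force (Nat.sub b2 X.b) fun e2 =>
  let P0 := Nat.add (Nat.add (Nat.mul f.A t.cv) (Nat.add (Nat.mul f.B t.cu) (Nat.mul f.C t.cq)))
    (Nat.mul Z (Nat.add f.A' (Nat.add f.B' f.C')))
  let N0 := Nat.add (Nat.add (Nat.mul f.A' t.cv)
      (Nat.add (Nat.mul f.B' t.cu) (Nat.mul f.C' t.cq)))
    (Nat.mul Z (Nat.add f.A (Nat.add f.B f.C)))
  let Py := cond (Nat.beq (Nat.add f.E f.E') 0) 0
    (Nat.add (Nat.mul f.E (nmin (yva a1 w) (yva a2 w))) (Nat.mul Z f.E'))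
  let Ny := cond (Nat.beq (Nat.add f.E f.E') 0) 0
    (Nat.add (Nat.add (Nat.mul f.E' (nmax (yva a1 w) (yva a2 w))) (Nat.mul Z f.E))
      (Nat.mul (Nat.add f.E f.E') (erry r a1 a2)))
  let Pd := Nat.add (Nat.mul f.C t.mq) (Nat.mul Z f.C')
  let Nd := Nat.add (Nat.mul f.C' t.mq) (Nat.mul Z f.C)
  let Pe := Nat.add (Nat.add (Nat.mul f.A t.mv) (Nat.add (Nat.mul f.B t.mu) (Nat.mul f.C t.nq)))
    (Nat.mul Z (Nat.add f.A' (Nat.add f.B' f.C')))
  let Ne := Nat.add (Nat.add (Nat.mul f.A' t.mv) (Nat.add (Nat.mul f.B' t.mu)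
      (Nat.mul f.C' t.nq)))
    (Nat.mul Z (Nat.add f.A (Nat.add f.B f.C)))
  let R := Nat.add (Nat.mul (Nat.add f.A f.A') r.rv)
    (Nat.add (Nat.mul (Nat.add f.B f.B') r.ru) (Nat.mul (Nat.add f.C f.C') r.rq))
  let Ld := Nat.div (Nat.mul (Nat.sub Pd Nd) d1) D
  let Rd := Nat.div (Nat.mul (Nat.sub Nd Pd) d2) D
  let Le := Nat.div (Nat.mul (Nat.sub Pe Ne) e1) D
  let Re := Nat.div (Nat.mul (Nat.sub Ne Pe) e2) D
  Nat.blt (Nat.add (Nat.add (Nat.add N0 (Nat.add Rd Re)) (Nat.add R f.c)) (Nat.add Ny 2))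
    (Nat.add P0 (Nat.add Py (Nat.add Ld Le)))

/-- the negative functional -/
def Fn.flip (f : Fn) : Fn := ⟨f.E', f.E, f.A', f.A, f.B', f.B, f.C', f.C, f.c⟩

/-- bound for the functional over all coefficient sequences -/
def acc (X : Root) (f : Fn) (J : ℕ) : ℕ → ℕ → ℕ → ℕ → ℕ → ℕ → ℕ → ℕ → ℕ → ℕ → ℕ :=
  Nat.rec (motive := fun _ => ℕ → ℕ → ℕ → ℕ → ℕ → ℕ → ℕ → ℕ → ℕ → ℕ → ℕ)
    (fun _ Gh _ Ph _ Dh _ Rh _ Hh =>
      let E := Nat.add f.E f.E'
      let A := Nat.add f.A f.A'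
      let B := Nat.add f.B f.B'
      let C := Nat.add f.C f.C'
      Nat.add (Nat.div (Nat.add (Nat.add (Nat.mul (Nat.mul E Gh) X.T)
        (Nat.mul (Nat.add (Nat.mul A Ph) (Nat.add (Nat.mul B Dh) (Nat.mul C Hh))) X.U))
        (Nat.add (Nat.mul (Nat.add (Nat.mul B Ph) (Nat.mul C Rh)) X.U1)
          (Nat.mul (Nat.mul C Gh) X.Q))) D) 1)
    (fun _ ih Gl Gh Pl Ph Dl Dh Rl Rh Hl Hh =>
      force (Nat.div (Nat.mul Gl D) (Nat.add X.a X.da)) fun Gl' =>
      force (Nat.add (Nat.div (Nat.mul Gh D) X.a) 1) fun Gh' =>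
      force (Nat.div (Nat.mul Pl D) (Nat.add X.b X.db)) fun Pl' =>
      force (Nat.add (Nat.div (Nat.mul Ph D) X.b) 1) fun Ph' =>
      force (Nat.add Pl (Nat.div (Nat.mul Dl D) (Nat.add X.b X.db))) fun Dl' =>
      force (Nat.add Ph (Nat.add (Nat.div (Nat.mul Dh D) X.b) 1)) fun Dh' =>
      force (Nat.add Gl (Nat.div (Nat.mul Rl D) (Nat.add X.b X.db))) fun Rl' =>
      force (Nat.add Gh (Nat.add (Nat.div (Nat.mul Rh D) X.b) 1)) fun Rh' =>
      force (Nat.add Rl (Nat.div (Nat.mul Hl D) (Nat.add X.b X.db))) fun Hl' =>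
      force (Nat.add Rh (Nat.add (Nat.div (Nat.mul Hh D) X.b) 1)) fun Hh' =>
      let hP := Nat.add (Nat.add (Nat.mul f.E Gh') (Nat.mul f.A Ph'))
        (Nat.add (Nat.mul f.B Dh') (Nat.mul f.C Hh'))
      let lP := Nat.add (Nat.add (Nat.mul f.E Gl') (Nat.mul f.A Pl'))
        (Nat.add (Nat.mul f.B Dl') (Nat.mul f.C Hl'))
      let hN := Nat.add (Nat.add (Nat.mul f.E' Gh') (Nat.mul f.A' Ph'))
        (Nat.add (Nat.mul f.B' Dh') (Nat.mul f.C' Hh'))
      let lN := Nat.add (Nat.add (Nat.mul f.E' Gl') (Nat.mul f.A' Pl'))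
        (Nat.add (Nat.mul f.B' Dl') (Nat.mul f.C' Hl'))
      let x := Nat.sub hP lN
      let y := Nat.sub hN lP
      Nat.add (cond (Nat.ble x y) y x) (ih Gl' Gh' Pl' Ph' Dl' Dh' Rl' Rh' Hl' Hh')) J

/-- the bound of a functional is valid -/
def Fn.ok (X : Root) (J : ℕ) (f : Fn) : Bool :=
  Nat.ble (acc X f J D D D D 0 0 0 0 0 0) f.c

/-- data of an invariant set -/
structure KD where
  M : ℕ
  H : ℕ
  G : ℕ
  bs : ℕ
  Gb : ℕ

/-- entry of a table -/
def gd (c i : ℕ) : ℕ := Nat.mod (Nat.shiftRight c (Nat.mul 20 i)) 1048576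

/-- minimum of the entries `u, ..., u + k` -/
def minw (c k : ℕ) : ℕ → ℕ :=
  Nat.rec (motive := fun _ => ℕ → ℕ) (fun u => gd c u)
    (fun _ ih u => nmin (gd c u) (ih (Nat.succ u))) k

/-- extend the covered part `[.., cur)` -/
def pass (L : List (ℕ × ℕ)) : ℕ → ℕ :=
  List.rec (motive := fun _ => ℕ → ℕ) (fun cur => cur)
    (fun p _ ih cur => ih (cond (and (Nat.ble p.1 cur) (Nat.ble cur p.2)) p.2 cur)) L

/-- the intervals cover `[cur, R]` -/
def cover (R cur : ℕ) (L : List (ℕ × ℕ)) : Bool :=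
  or (Nat.blt R (pass L cur)) (or (Nat.blt R (pass L (pass L cur)))
    (Nat.blt R (pass L (pass L (pass L cur)))))

/-- interval of the second coordinate reachable with a digit; `off` has the offset `WW` -/
def iv (K : KD) (c : Bool) (P Q off : ℕ) (r : List (ℕ × ℕ)) : List (ℕ × ℕ) :=
  cond (and c (Nat.blt Q (Nat.mul (Nat.mul 2 K.M) K.H)))
    (force (Nat.div P K.H) fun u =>
     force (Nat.div Q K.H) fun w =>
     force (Nat.sub w u) fun k =>
     (Nat.sub (Nat.add off OFF) (minw K.G k (Nat.sub (Nat.sub (Nat.mul 2 K.M) 1) w)),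
      Nat.sub (Nat.add off (minw K.G k u)) OFF) :: r) r

/-- lower bound of `β x` -/
def loB (X : Root) (x : ℕ) : ℕ :=
  cond (Nat.ble OFF x) (Nat.add WW (Nat.div (Nat.mul (Nat.sub x OFF) X.b) D))
    (Nat.sub WW (Nat.add (Nat.div (Nat.mul (Nat.sub OFF x) (Nat.add X.b X.db)) D) 1))

/-- upper bound of `β x` -/
def hiB (X : Root) (x : ℕ) : ℕ :=
  cond (Nat.ble OFF x)
    (Nat.add WW (Nat.add (Nat.div (Nat.mul (Nat.sub x OFF) (Nat.add X.b X.db)) D) 1))
    (Nat.sub WW (Nat.div (Nat.mul (Nat.sub OFF x) X.b) D))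

/-- check of one cell -/
def cellOK (X : Root) (K : KD) (i : ℕ) : Bool :=
  force (Nat.mul i K.H) fun left =>
  force (Nat.mul K.M K.H) fun MH =>
  force (Nat.add (Nat.div (Nat.mul left X.a) D) MH) fun plo =>
  force (Nat.add (Nat.div (Nat.mul (Nat.add left K.H) (Nat.add X.a X.da)) D) (Nat.add MH 1))
    fun phi =>
  let top := gd K.G (Nat.add K.M i)
  let bot := Nat.sub (Nat.mul 2 OFF) (gd K.G (Nat.sub (Nat.sub K.M 1) i))
  cover (hiB X top) (loB X bot)
    (iv K (Nat.ble D plo) (Nat.sub plo D) (Nat.sub phi D) (Nat.add WW S)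
      (iv K true plo phi WW
        (iv K true (Nat.add plo D) (Nat.add phi D) (Nat.sub WW S) [])))

def cells (X : Root) (K : KD) (k : ℕ) : Bool :=
  Nat.rec (motive := fun _ => Bool) true (fun i ih => and (cellOK X K i) ih) k

def blocks (K : KD) (k : ℕ) : Bool :=
  Nat.rec (motive := fun _ => Bool) true
    (fun i ih => and (Nat.ble (gd K.Gb (Nat.div i K.bs)) (gd K.G i)) ih) k

/-- the set `K` is invariant for all parameters in the box -/
def KD.ok (X : Root) (K : KD) : Bool :=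
  and (and (and (Nat.blt 0 K.H) (Nat.blt 0 K.bs)) (and (Nat.ble (Nat.add X.b X.db) (Nat.mul 2 D))
    (Nat.blt (Nat.mul (Nat.mul K.M K.H) (Nat.sub (Nat.add X.a X.da) D)) (Nat.mul D D))))
    (and (cells X K K.M) (blocks K (Nat.mul 2 K.M)))

/-- the state is in `K` -/
def inK (X : Root) (K : KD) (y1 y2 cv mv : ℕ) (r : Rad) (a1 a2 b1 b2 : ℕ) : Bool :=
  force (Nat.mul K.M K.H) fun MH =>
  force (erry r a1 a2) fun er =>
  force (Nat.add (nmin y1 y2) MH) fun l1 =>
  force (Nat.add Z er) fun l2 =>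
  force (Nat.add (nmax y1 y2) (Nat.add MH er)) fun h1 =>
  and (and (Nat.ble l2 l1) (and (Nat.ble Z h1) (Nat.blt h1 (Nat.add Z (Nat.mul 2 MH)))))
    (force (Nat.div (Nat.sub l1 l2) K.H) fun u =>
     force (Nat.div (Nat.sub h1 Z) K.H) fun w =>
     force (Nat.sub (Nat.sub (Nat.mul 2 K.M) 1) w) fun u' =>
     force (Nat.sub (Nat.sub (Nat.mul 2 K.M) 1) u) fun w' =>
     force (Nat.sub b1 X.b) fun e1 =>
     force (Nat.sub b2 X.b) fun e2 =>
     let vp1 := Nat.div (Nat.mul (Nat.sub mv Z) e1) D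
     let vm1 := Nat.add (Nat.div (Nat.mul (Nat.sub Z mv) e2) D) (Nat.add r.rv 1)
     let vp2 := Nat.add (Nat.div (Nat.mul (Nat.sub mv Z) e2) D) (Nat.add r.rv 1)
     let vm2 := Nat.div (Nat.mul (Nat.sub Z mv) e1) D
     and
      (Nat.ble (Nat.add (Nat.mul (Nat.add cv vp2) S) (Nat.mul OFF D))
        (Nat.add (Nat.mul (minw K.Gb (Nat.sub (Nat.div w K.bs) (Nat.div u K.bs))
          (Nat.div u K.bs)) D) (Nat.mul (Nat.add Z vm2) S)))
      (Nat.ble (Nat.add (Nat.mul OFF D) (Nat.mul (Nat.add Z vm1) S))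
        (Nat.add (Nat.mul (Nat.add cv vp1) S)
          (Nat.mul (minw K.Gb (Nat.sub (Nat.div w' K.bs) (Nat.div u' K.bs))
            (Nat.div u' K.bs)) D))))

/-- certificates inside a box: `k`, `l` killed by a functional or its negative, `i` state in the
invariant set, `p` path from the start into the invariant set, `g` next digit,
`s`, `t` splitting of the box, `b` product at least one half -/
inductive Tr
  | b
  | k (j : ℕ)
  | l (j : ℕ)
  | i
  | p (w : Wd)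
  | g (x y z : Tr)
  | s (v : ℕ) (x y : Tr)
  | t (v : ℕ) (x y : Tr)

/-- membership in the invariant set after a word -/
def inKw (X : Root) (K : Option KD) (w : Wd) (a1 a2 b1 b2 : ℕ) : Bool :=
  Option.rec (motive := fun _ => Bool) false
    (fun K => List.rec (motive := fun _ => Bool) false
      (fun r _ _ => inK X K (yva a1 w) (yva a2 w) (st X w).cv (st X w).mv r a1 a2 b1 b2)
      (rs X w)) K

/-- the path stays in the range of the error bounds -/
def good1 (X : Root) (a1 : ℕ) (w : Wd) : Bool :=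
  List.rec (motive := fun _ => Bool) false
    (fun r _ _ =>
      and (and (Nat.ble (Nat.add (yva a1 w) r.ey) (Nat.add Z X.T))
        (Nat.ble (Nat.add Z r.ey) (Nat.add (yva a1 w) X.T)))
      (and (Nat.ble (st X w).cv (Nat.add Z X.U)) (Nat.ble Z (Nat.add (st X w).cv X.U))))
    (rs X w)

def good (X : Root) (a1 : ℕ) (w : Wd) : Bool :=
  Wd.rec (motive := fun _ => Bool) true
    (fun w ih => and (good1 X a1 w) ih) (fun w ih => and (good1 X a1 w) ih)
    (fun w ih => and (good1 X a1 w) ih) w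

/-- the functional number `j` -/
def nth (F : List Fn) (j : ℕ) : Option Fn :=
  List.rec (motive := fun _ => ℕ → Option Fn) (fun _ => none)
    (fun f _ ih j => Nat.rec (motive := fun _ => Option Fn) (some f) (fun i _ => ih i) j) F j

def killw (X : Root) (f : Option Fn) (w : Wd) (neg : Bool) (a1 a2 b1 b2 : ℕ) : Bool :=
  Option.rec (motive := fun _ => Bool) false
    (fun f => List.rec (motive := fun _ => Bool) false
      (fun r _ _ => gtF X (cond neg f.flip f) w (st X w) r a1 a2 b1 b2)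
      (rs X w)) f

/-- the checker inside a box -/
def chk (X : Root) (F : List Fn) (K : Option KD) (c : Tr) : Wd → ℕ → ℕ → ℕ → ℕ → Bool :=
  Tr.rec (motive := fun _ => Wd → ℕ → ℕ → ℕ → ℕ → Bool)
    (fun _ _ a2 _ b2 => Nat.ble (Nat.mul a2 b2) (Nat.mul 2 (Nat.mul D D)))
    (fun j w a1 a2 b1 b2 => killw X (nth F j) w false a1 a2 b1 b2)
    (fun j w a1 a2 b1 b2 => killw X (nth F j) w true a1 a2 b1 b2)
    (fun w a1 a2 b1 b2 => inKw X K w a1 a2 b1 b2)
    (fun w' _ a1 a2 b1 b2 => and (good X a1 w') (inKw X K w' a1 a2 b1 b2))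
    (fun _ _ _ hx hy hz w a1 a2 b1 b2 =>
      and (hx (.m w) a1 a2 b1 b2) (and (hy (.o w) a1 a2 b1 b2) (hz (.p w) a1 a2 b1 b2)))
    (fun v _ _ hx hy w a1 a2 b1 b2 =>
      and (and (Nat.ble a1 v) (Nat.ble v a2)) (and (hx w a1 v b1 b2) (hy w v a2 b1 b2)))
    (fun v _ _ hx hy w a1 a2 b1 b2 =>
      and (and (Nat.ble b1 v) (Nat.ble v b2)) (and (hx w a1 a2 b1 v) (hy w a1 a2 v b2))) c

/-- check of the radii -/
def radStep (X : Root) (r r' : Rad) : Bool :=
  force (Nat.add X.a X.da) fun a =>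
  force (Nat.add X.b X.db) fun b =>
  force (Nat.add (Nat.add r.ru (Nat.div (Nat.mul b r.rv) D))
    (Nat.add (Nat.div (Nat.mul (Nat.add (Nat.div (Nat.mul r.Mv X.db) D) 1) X.db) D) 4)) fun rt =>
  force (Nat.add (Nat.add r.Mu X.U) (Nat.add r.rv (Nat.add (Nat.div (Nat.mul b r.Mv) D) 3)))
    fun Mt =>
  force (Nat.add r.Nq r'.Mu) fun Nw =>
  force (Nat.add r.rq r'.ru) fun rw =>
  and (and (and
    (Nat.ble (Nat.add (Nat.div (Nat.mul a r.ey) D) 2) r'.ey)
    (and (Nat.ble (Nat.add (Nat.div (Nat.mul a r.ky) D) (Nat.add r.My 1)) r'.ky)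
    (Nat.ble (Nat.add (Nat.div (Nat.mul b r.rv) D)
      (Nat.add (Nat.div (Nat.mul (Nat.add (Nat.div (Nat.mul r.Mv X.db) D) 1) X.db) D) 4)) r'.rv)))
    (and
    (Nat.ble (Nat.add (Nat.div (Nat.mul b rt) D)
      (Nat.add (Nat.div (Nat.mul (Nat.add (Nat.div (Nat.mul Mt X.db) D) 1) X.db) D) 4)) r'.ru)
    (Nat.ble (Nat.add (Nat.div (Nat.mul a rw) D)
      (Nat.add (Nat.add
        (Nat.div (Nat.mul (Nat.add (Nat.div (Nat.mul r.Mq X.da) D) 1) X.da) D)
        (Nat.div (Nat.mul (Nat.add (Nat.div (Nat.mul Nw X.db) D) 1) X.da) D)) 6)) r'.rq)))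
    (and (and (and
    (Nat.ble (Nat.add (Nat.div (Nat.mul a r.My) D)
      (Nat.add (Nat.add X.T (Nat.div (Nat.mul r.My X.da) D)) 3)) r'.My)
    (Nat.ble (Nat.add (Nat.div (Nat.mul b r.Mv) D) (Nat.add (Nat.add X.U r.rv) 4)) r'.Mv))
    (and
    (Nat.ble (Nat.add (Nat.div (Nat.mul b Mt) D) (Nat.add (Nat.add X.U1 rt) 4)) r'.Mu)
    (Nat.ble (Nat.add (Nat.div (Nat.mul a r.Mq) D)
      (Nat.add (Nat.add X.Q (Nat.div (Nat.mul Nw X.db) D)) (Nat.add rw 5))) r'.Mq)))
    (and (Nat.ble (Nat.add (Nat.div (Nat.mul a Nw) D) 3) r'.Nq)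
      (Nat.ble (Nat.add (Nat.add (Nat.add r'.My r'.Mv) (Nat.add r'.Mu r'.Mq))
        (Nat.add (Nat.add r'.Nq (Nat.add r'.ey r'.rv)) (Nat.add r'.ru r'.rq)))
        (Nat.div Z 1024))))

def radOK (X : Root) (L : List Rad) : Rad → Bool :=
  List.rec (motive := fun _ => Rad → Bool) (fun _ => true)
    (fun r' _ ih r => and (radStep X r r') (ih r')) L

/-- check of the constants of a box -/
def Root.ok (X : Root) : Bool :=
  and (and (and (Nat.blt D X.a) (Nat.blt D X.b)) (and (Nat.ble (Nat.add X.a X.da) (Nat.mul 4 D))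
    (Nat.ble (Nat.add X.b X.db) (Nat.mul 4 D))))
  (and (and (and (Nat.beq X.za (Nat.mul (Nat.sub X.a D) ZD))
      (Nat.beq X.zb (Nat.mul (Nat.sub X.b D) ZD)))
    (and (Nat.blt (Nat.mul D D) (Nat.mul X.T (Nat.sub X.a D)))
      (Nat.blt (Nat.mul D D) (Nat.mul X.U (Nat.sub X.b D)))))
  (and (and (Nat.blt (Nat.mul (Nat.mul X.b X.b) D)
      (Nat.mul X.U1 (Nat.mul (Nat.sub X.b D) (Nat.sub X.b D))))
    (Nat.blt (Nat.mul X.U1 X.a) (Nat.mul X.Q (Nat.sub X.a D))))
  (and (and (Nat.ble X.da D) (Nat.ble X.db D))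
    (List.rec (motive := fun _ => Bool) true (fun r t _ => radOK X t r) X.rad))))

/-- outer certificates: `b` product at least one half, `o` order of the parameters,
`c` certified box, `s`, `t` splitting -/
inductive Rt
  | b
  | o
  | c (X : Root) (J : ℕ) (F : List Fn) (K : Option KD) (t : Tr)
  | s (v : ℕ) (x y : Rt)
  | t (v : ℕ) (x y : Rt)

def allF (X : Root) (J : ℕ) (F : List Fn) : Bool :=
  List.rec (motive := fun _ => Bool) true (fun f _ ih => and (Fn.ok X J f) ih) F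

def okK (X : Root) (K : Option KD) : Bool :=
  Option.rec (motive := fun _ => Bool) true (fun K => KD.ok X K) K

/-- the checker for a rectangle `[a1, a2] × [b1, b2]` -/
def chkR (m : Bool) (c : Rt) : ℕ → ℕ → ℕ → ℕ → Bool :=
  Rt.rec (motive := fun _ => ℕ → ℕ → ℕ → ℕ → Bool)
    (fun _ a2 _ b2 => Nat.ble (Nat.mul a2 b2) (Nat.mul 2 (Nat.mul D D)))
    (fun a1 a2 b1 b2 => cond m (Nat.ble b2 a1) (Nat.ble a2 b1))
    (fun X J F K t a1 a2 b1 b2 =>
      and (and (and (Nat.ble X.a a1) (Nat.ble a2 (Nat.add X.a X.da)))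
        (and (Nat.ble X.b b1) (Nat.ble b2 (Nat.add X.b X.db))))
      (and (and X.ok (allF X J F)) (and (okK X K) (chk X F K t .e a1 a2 b1 b2))))
    (fun v _ _ hx hy a1 a2 b1 b2 =>
      and (and (Nat.ble a1 v) (Nat.ble v a2)) (and (hx a1 v b1 b2) (hy v a2 b1 b2)))
    (fun v _ _ hx hy a1 a2 b1 b2 =>
      and (and (Nat.ble b1 v) (Nat.ble v b2)) (and (hx a1 a2 b1 v) (hy a1 a2 v b2))) c

end

end Pool.Agent.Helper65.Conn
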