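import Pool.Agent.Helper65.Conn.Tree

/-!
# Soundness of the outer certificates
-/

namespace Pool.Agent.Helper65.Conn

open Pool.Agent.Iso

attribute [local irreducible] D Z ZD

theorem allF_spec {X : Root} {J : ℕ} {F : List Fn} (h : allF X J F = true) :
    ∀ f ∈ F, f.ok X J = true := by
  induction F with
  | nil => intro f hf; exact absurd hf List.not_mem_nil
  | cons g F ih =>
    intro f hf
    have h' : (g.ok X J && allF X J F) = true := h
    rw [Bool.and_eq_true] at h'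
    rcases List.mem_cons.1 hf with rfl | hf
    · exact h'.1
    · exact ih h'.2 f hf

/-- soundness of the bounds of the functionals -/
def AccSound : Prop := ∀ (X : Root), X.Good → ∀ (α β : ℝ), X.In α β → ∀ (f : Fn) (J : ℕ),
  f.ok X J = true → ∀ a : ℕ → ℝ, Sq a α β → ∀ n, |f.val (yw α (wd a n)) (yw β (wd a n))
    (uw β (wd a n)) (qw α β (wd a n))| ≤ f.c

theorem chkR_sound (hA : AccSound) {a : ℕ → ℝ} {α β : ℝ} (h : Sq a α β) (hab : 2 < α * β)
    (hlt : β < α) (c : Rt) :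
    ∀ a1 a2 b1 b2 : ℕ, (a1 : ℝ) ≤ α * D → α * D ≤ a2 → (b1 : ℝ) ≤ β * D → β * D ≤ b2 →
      chkR false c a1 a2 b1 b2 = true → Near (1 / α) (1 / β) := by
  have hD := Dpos
  induction c with
  | b =>
    intro a1 a2 b1 b2 ha1 ha2 hb1 hb2 hc
    exfalso
    have e : Nat.ble (Nat.mul a2 b2) (Nat.mul 2 (Nat.mul D D)) = true := hc
    have k := ble_R e
    rw [cmul, cmul, cmul] at k
    have h1 : 0 < α * D := mul_pos (by linarith [h.ha1]) hD
    have h2 : 0 < β * D := mul_pos (by linarith [h.hb1]) hD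
    have h3 : α * D * (β * D) ≤ a2 * b2 := mul_le_mul ha2 hb2 h2.le (h1.le.trans ha2)
    have h4 : 2 * ((D : ℝ) * D) < α * D * (β * D) := by
      have := mul_lt_mul_of_pos_right hab (mul_pos hD hD)
      have e : α * D * (β * D) = α * β * (D * D) := by ring
      rw [e]; exact this
    push_cast at k
    linarith
  | o =>
    intro a1 a2 b1 b2 ha1 ha2 hb1 hb2 hc
    exfalso
    have e : Nat.ble a2 b1 = true := hc
    have k := ble_R e
    have : β * D < α * D := mul_lt_mul_of_pos_right hlt hD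
    linarith
  | c X J F K t =>
    intro a1 a2 b1 b2 ha1 ha2 hb1 hb2 hc
    have hc' : (((Nat.ble X.a a1 && Nat.ble a2 (Nat.add X.a X.da)) &&
        (Nat.ble X.b b1 && Nat.ble b2 (Nat.add X.b X.db))) &&
      ((X.ok && allF X J F) && (okK X K && chk X F K t .e a1 a2 b1 b2))) = true := hc
    simp only [Bool.and_eq_true] at hc'
    obtain ⟨⟨⟨k1, k2⟩, k3, k4⟩, ⟨k5, k6⟩, k7, k8⟩ := hc'
    have g1 := Nat.le_of_ble_eq_true k1
    have g2 : a2 ≤ X.a + X.da := Nat.le_of_ble_eq_true k2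
    have g3 := Nat.le_of_ble_eq_true k3
    have g4 : b2 ≤ X.b + X.db := Nat.le_of_ble_eq_true k4
    have G := Root.ok_good k5
    have hp : X.In α β := by
      have g1R : (X.a : ℝ) ≤ a1 := by exact_mod_cast g1
      have g2R : (a2 : ℝ) ≤ X.a + X.da := by exact_mod_cast g2
      have g3R : (X.b : ℝ) ≤ b1 := by exact_mod_cast g3
      have g4R : (b2 : ℝ) ≤ X.b + X.db := by exact_mod_cast g4
      exact ⟨by linarith, by linarith, by linarith, by linarith⟩
    exact chk_sound G hp h hab (fun f hf n => hA X G α β hp f J (allF_spec k6 f hf) a h n) k7 t 0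
      a1 a2 b1 b2 g1 g2 g3 g4 ha1 ha2 hb1 hb2 k8
  | s v x y hx hy =>
    intro a1 a2 b1 b2 ha1 ha2 hb1 hb2 hc
    have hc' : ((Nat.ble a1 v && Nat.ble v a2) && (chkR false x a1 v b1 b2 &&
      chkR false y v a2 b1 b2)) = true := hc
    rw [Bool.and_eq_true, Bool.and_eq_true, Bool.and_eq_true] at hc'
    obtain ⟨⟨k1, k2⟩, k3, k4⟩ := hc'
    rcases le_total (α * D) (v : ℝ) with hle | hle
    · exact hx a1 v b1 b2 ha1 hle hb1 hb2 k3
    · exact hy v a2 b1 b2 hle ha2 hb1 hb2 k4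
  | t v x y hx hy =>
    intro a1 a2 b1 b2 ha1 ha2 hb1 hb2 hc
    have hc' : ((Nat.ble b1 v && Nat.ble v b2) && (chkR false x a1 a2 b1 v &&
      chkR false y a1 a2 v b2)) = true := hc
    rw [Bool.and_eq_true, Bool.and_eq_true, Bool.and_eq_true] at hc'
    obtain ⟨⟨k1, k2⟩, k3, k4⟩ := hc'
    rcases le_total (β * D) (v : ℝ) with hle | hle
    · exact hx a1 a2 b1 v ha1 ha2 hb1 hle k3
    · exact hy a1 a2 v b2 ha1 ha2 hle hb2 k4

end Pool.Agent.Helper65.Conn
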