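import Pool.Agent.Helper65.Conn.Slab
import Pool.Agent.Helper65.Conn.Data.P0
import Pool.Agent.Helper65.Conn.Data.P1
import Pool.Agent.Helper65.Conn.Data.P2
import Pool.Agent.Helper65.Conn.Data.P3
import Pool.Agent.Helper65.Conn.Data.P4
import Pool.Agent.Helper65.Conn.Data.P5
import Pool.Agent.Helper65.Conn.Data.P6
import Pool.Agent.Helper65.Conn.Data.P7
import Pool.Agent.Helper65.Conn.Data.P8

/-!
# All slabs
-/

namespace Pool.Agent.Helper65.Conn.Data

open Pool.Agent.Helper65.Conn

theorem sl1456 : Slab 1592092837019648 1600888930041856 :=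
  Slab.of ok1448 rfl rfl

theorem sl1464 : Slab 1592092837019648 1609685023064064 :=
  Slab.join sl1456 (Slab.of ok1456 rfl rfl)

theorem sl1472 : Slab 1592092837019648 1618481116086272 :=
  Slab.join sl1464 (Slab.of ok1464 rfl rfl)

theorem sl1480 : Slab 1592092837019648 1627277209108480 :=
  Slab.join sl1472 (Slab.of ok1472 rfl rfl)

theorem sl1488 : Slab 1592092837019648 1636073302130688 :=
  Slab.join sl1480 (Slab.of ok1480 rfl rfl)

theorem sl1496 : Slab 1592092837019648 1644869395152896 :=
  Slab.join sl1488 (Slab.of ok1488 rfl rfl)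

theorem sl1504 : Slab 1592092837019648 1653665488175104 :=
  Slab.join sl1496 (Slab.of ok1496 rfl rfl)

theorem sl1512 : Slab 1592092837019648 1662461581197312 :=
  Slab.join sl1504 (Slab.of ok1504 rfl rfl)

theorem sl1520 : Slab 1592092837019648 1671257674219520 :=
  Slab.join sl1512 (Slab.of ok1512 rfl rfl)

theorem sl1528 : Slab 1592092837019648 1680053767241728 :=
  Slab.join sl1520 (Slab.of ok1520 rfl rfl)

theorem sl1536 : Slab 1592092837019648 1688849860263936 :=
  Slab.join sl1528 (Slab.of ok1528 rfl rfl)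

theorem sl1544 : Slab 1592092837019648 1697645953286144 :=
  Slab.join sl1536 (Slab.of ok1536 rfl rfl)

theorem sl1552 : Slab 1592092837019648 1706442046308352 :=
  Slab.join sl1544 (Slab.of ok1544 rfl rfl)

theorem sl1560 : Slab 1592092837019648 1715238139330560 :=
  Slab.join sl1552 (Slab.of ok1552 rfl rfl)

theorem sl1568 : Slab 1592092837019648 1724034232352768 :=
  Slab.join sl1560 (Slab.of ok1560 rfl rfl)

theorem sl1576 : Slab 1592092837019648 1732830325374976 :=
  Slab.join sl1568 (Slab.of ok1568 rfl rfl)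

theorem sl1584 : Slab 1592092837019648 1741626418397184 :=
  Slab.join sl1576 (Slab.of ok1576 rfl rfl)

theorem sl1592 : Slab 1592092837019648 1750422511419392 :=
  Slab.join sl1584 (Slab.of ok1584 rfl rfl)

theorem sl1600 : Slab 1592092837019648 1759218604441600 :=
  Slab.join sl1592 (Slab.of ok1592 rfl rfl)

theorem sl1608 : Slab 1592092837019648 1768014697463808 :=
  Slab.join sl1600 (Slab.of ok1600 rfl rfl)

theorem sl1616 : Slab 1592092837019648 1776810790486016 :=
  Slab.join sl1608 (Slab.of ok1608 rfl rfl)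

theorem sl1624 : Slab 1592092837019648 1785606883508224 :=
  Slab.join sl1616 (Slab.of ok1616 rfl rfl)

theorem sl1632 : Slab 1592092837019648 1794402976530432 :=
  Slab.join sl1624 (Slab.of ok1624 rfl rfl)

theorem sl1640 : Slab 1592092837019648 1803199069552640 :=
  Slab.join sl1632 (Slab.of ok1632 rfl rfl)

theorem sl1648 : Slab 1592092837019648 1811995162574848 :=
  Slab.join sl1640 (Slab.of ok1640 rfl rfl)

theorem sl1656 : Slab 1592092837019648 1820791255597056 :=
  Slab.join sl1648 (Slab.of ok1648 rfl rfl)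

theorem sl1664 : Slab 1592092837019648 1829587348619264 :=
  Slab.join sl1656 (Slab.of ok1656 rfl rfl)

theorem sl1672 : Slab 1592092837019648 1838383441641472 :=
  Slab.join sl1664 (Slab.of ok1664 rfl rfl)

theorem sl1680 : Slab 1592092837019648 1847179534663680 :=
  Slab.join sl1672 (Slab.of ok1672 rfl rfl)

theorem sl1688 : Slab 1592092837019648 1855975627685888 :=
  Slab.join sl1680 (Slab.of ok1680 rfl rfl)

theorem sl1696 : Slab 1592092837019648 1864771720708096 :=
  Slab.join sl1688 (Slab.of ok1688 rfl rfl)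

theorem sl1704 : Slab 1592092837019648 1873567813730304 :=
  Slab.join sl1696 (Slab.of ok1696 rfl rfl)

theorem sl1712 : Slab 1592092837019648 1882363906752512 :=
  Slab.join sl1704 (Slab.of ok1704 rfl rfl)

theorem sl1720 : Slab 1592092837019648 1891159999774720 :=
  Slab.join sl1712 (Slab.of ok1712 rfl rfl)

theorem sl1728 : Slab 1592092837019648 1899956092796928 :=
  Slab.join sl1720 (Slab.of ok1720 rfl rfl)

theorem sl1736 : Slab 1592092837019648 1908752185819136 :=
  Slab.join sl1728 (Slab.of ok1728 rfl rfl)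

theorem sl1744 : Slab 1592092837019648 1917548278841344 :=
  Slab.join sl1736 (Slab.of ok1736 rfl rfl)

theorem sl1752 : Slab 1592092837019648 1926344371863552 :=
  Slab.join sl1744 (Slab.of ok1744 rfl rfl)

theorem sl1760 : Slab 1592092837019648 1935140464885760 :=
  Slab.join sl1752 (Slab.of ok1752 rfl rfl)

theorem sl1768 : Slab 1592092837019648 1943936557907968 :=
  Slab.join sl1760 (Slab.of ok1760 rfl rfl)

theorem sl1776 : Slab 1592092837019648 1952732650930176 :=
  Slab.join sl1768 (Slab.of ok1768 rfl rfl)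

theorem sl1784 : Slab 1592092837019648 1961528743952384 :=
  Slab.join sl1776 (Slab.of ok1776 rfl rfl)

theorem sl1792 : Slab 1592092837019648 1970324836974592 :=
  Slab.join sl1784 (Slab.of ok1784 rfl rfl)

theorem sl1800 : Slab 1592092837019648 1979120929996800 :=
  Slab.join sl1792 (Slab.of ok1792 rfl rfl)

theorem sl1808 : Slab 1592092837019648 1987917023019008 :=
  Slab.join sl1800 (Slab.of ok1800 rfl rfl)

theorem sl1816 : Slab 1592092837019648 1996713116041216 :=
  Slab.join sl1808 (Slab.of ok1808 rfl rfl)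

theorem sl1824 : Slab 1592092837019648 2005509209063424 :=
  Slab.join sl1816 (Slab.of ok1816 rfl rfl)

theorem sl1832 : Slab 1592092837019648 2014305302085632 :=
  Slab.join sl1824 (Slab.of ok1824 rfl rfl)

theorem sl1840 : Slab 1592092837019648 2023101395107840 :=
  Slab.join sl1832 (Slab.of ok1832 rfl rfl)

theorem sl1848 : Slab 1592092837019648 2031897488130048 :=
  Slab.join sl1840 (Slab.of ok1840 rfl rfl)

theorem sl1856 : Slab 1592092837019648 2040693581152256 :=
  Slab.join sl1848 (Slab.of ok1848 rfl rfl)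

theorem sl1858 : Slab 1592092837019648 2042892604407808 :=
  Slab.join sl1856 (Slab.of ok1856 rfl rfl)

theorem sl1860 : Slab 1592092837019648 2045091627663360 :=
  Slab.join sl1858 (Slab.of ok1858 rfl rfl)

end Pool.Agent.Helper65.Conn.Data
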