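import Pool.Agent.Helper65.Conn.ExcDef
import Pool.Agent.Helper65.Conn.DataAll
import Pool.Agent.Helper65.Conn.Data.R00
import Pool.Agent.Helper65.Conn.Data.R01
import Pool.Agent.Helper65.Conn.Data.R02
import Pool.Agent.Helper65.Conn.Data.R03
import Pool.Agent.Helper65.Conn.Data.R04
import Pool.Agent.Helper65.Conn.Data.R05
import Pool.Agent.Helper65.Conn.Data.R06
import Pool.Agent.Helper65.Conn.Data.R07
import Pool.Agent.Helper65.Conn.Data.R08
import Pool.Agent.Helper65.Conn.Data.R10
import Pool.Agent.Helper65.Conn.Data.R11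
import Pool.Agent.Helper65.Conn.Data.R12
import Pool.Agent.Helper65.Conn.Data.R13
import Pool.Agent.Helper65.Conn.Data.R14
import Pool.Agent.Helper65.Conn.Data.R15
import Pool.Agent.Helper65.Conn.Data.R16
import Pool.Agent.Helper65.Conn.Data.R17
import Pool.Agent.Helper65.Conn.Data.R20
import Pool.Agent.Helper65.Conn.Data.R21
import Pool.Agent.Helper65.Conn.Data.R22
import Pool.Agent.Helper65.Conn.Data.R23
import Pool.Agent.Helper65.Conn.Data.R24
import Pool.Agent.Helper65.Conn.Data.R25
import Pool.Agent.Helper65.Conn.Data.R26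
import Pool.Agent.Helper65.Conn.Data.R27
import Pool.Agent.Helper65.Conn.Data.R28
import Pool.Agent.Helper65.Conn.Data.R30
import Pool.Agent.Helper65.Conn.Data.R31
import Pool.Agent.Helper65.Conn.Data.R32
import Pool.Agent.Helper65.Conn.Data.R33
import Pool.Agent.Helper65.Conn.Data.R34
import Pool.Agent.Helper65.Conn.Data.R35
import Pool.Agent.Helper65.Conn.Data.R36
import Pool.Agent.Helper65.Conn.Data.Q10
import Pool.Agent.Helper65.Conn.Data.Q11
import Pool.Agent.Helper65.Conn.Data.Q12
import Pool.Agent.Helper65.Conn.Data.Q13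
import Pool.Agent.Helper65.Conn.Data.Q21
import Pool.Agent.Helper65.Conn.Data.Q22
import Pool.Agent.Helper65.Conn.Data.Q30

/-!
# All slabs, with exceptional rectangles
-/

namespace Pool.Agent.Helper65.Conn.Data

open Pool.Agent.Helper65.Conn

theorem e0 : SlabE Exc 1592092837019648 2045974753484689 :=
  SlabE.join (SlabE.of sl1860) (SlabE.ofC (CovE.ofG okg1860_l) rfl rfl)

theorem hole1 : CovE Exc 2045974753484689 2046191139291136 1289690614940005 1321478763899793 :=
  CovE.hole (c1 := 0.5497) (c2 := 0.5503) (d1 := 0.852) (d2 := 0.873) exc1 (by norm_num) (by norm_num)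
    (by norm_num) (by norm_num) (by rw [D_eq]; norm_num) (by rw [D_eq]; norm_num)
    (by rw [D_eq]; norm_num) (by rw [D_eq]; norm_num)

theorem e1 : SlabE Exc 1592092837019648 2046191139291136 :=
  SlabE.join e0 (SlabE.ofC (CovE.joinb (CovE.joinb (CovE.ofG okg1860_d) hole1) (CovE.ofG okg1860_u)) rfl rfl)

theorem hole2 : CovE Exc 2046191139291136 2047290650918912 1289690614940005 1321478763899793 :=
  CovE.hole (c1 := 0.5497) (c2 := 0.5503) (d1 := 0.852) (d2 := 0.873) exc1 (by norm_num) (by norm_num)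
    (by norm_num) (by norm_num) (by rw [D_eq]; norm_num) (by rw [D_eq]; norm_num)
    (by rw [D_eq]; norm_num) (by rw [D_eq]; norm_num)

theorem e2 : SlabE Exc 1592092837019648 2047290650918912 :=
  SlabE.join e1 (SlabE.ofC (CovE.joinb (CovE.joinb (CovE.ofG okg1861_d) hole2) (CovE.ofG okg1861_u)) rfl rfl)

theorem hole3 : CovE Exc 2047290650918912 2048207944046978 1289690614940005 1321478763899793 :=
  CovE.hole (c1 := 0.5497) (c2 := 0.5503) (d1 := 0.852) (d2 := 0.873) exc1 (by norm_num) (by norm_num)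
    (by norm_num) (by norm_num) (by rw [D_eq]; norm_num) (by rw [D_eq]; norm_num)
    (by rw [D_eq]; norm_num) (by rw [D_eq]; norm_num)

theorem e3 : SlabE Exc 1592092837019648 2048207944046978 :=
  SlabE.join e2 (SlabE.ofC (CovE.joinb (CovE.joinb (CovE.ofG okg1862_d) hole3) (CovE.ofG okg1862_u)) rfl rfl)

theorem e4 : SlabE Exc 1592092837019648 2048390162546688 :=
  SlabE.join e3 (SlabE.ofC (CovE.ofG okg1862_r) rfl rfl)

theorem e5 : SlabE Exc 1592092837019648 2049489674174464 :=
  SlabE.join e4 (SlabE.ofC (CovE.ofG okg1863) rfl rfl)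

theorem e6 : SlabE Exc 1592092837019648 2053887720685568 :=
  SlabE.join e5 (SlabE.ofC (CovE.of ok1864) rfl rfl)

theorem e7 : SlabE Exc 1592092837019648 2058285767196672 :=
  SlabE.join e6 (SlabE.ofC (CovE.of ok1868) rfl rfl)

theorem e8 : SlabE Exc 1592092837019648 2062683813707776 :=
  SlabE.join e7 (SlabE.ofC (CovE.of ok1872) rfl rfl)

theorem e9 : SlabE Exc 1592092837019648 2067081860218880 :=
  SlabE.join e8 (SlabE.ofC (CovE.of ok1876) rfl rfl)

theorem e10 : SlabE Exc 1592092837019648 2071479906729984 :=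
  SlabE.join e9 (SlabE.ofC (CovE.of ok1880) rfl rfl)

theorem e11 : SlabE Exc 1592092837019648 2075877953241088 :=
  SlabE.join e10 (SlabE.ofC (CovE.of ok1884) rfl rfl)

theorem e12 : SlabE Exc 1592092837019648 2080275999752192 :=
  SlabE.join e11 (SlabE.ofC (CovE.of ok1888) rfl rfl)

theorem e13 : SlabE Exc 1592092837019648 2084674046263296 :=
  SlabE.join e12 (SlabE.ofC (CovE.of ok1892) rfl rfl)

theorem e14 : SlabE Exc 1592092837019648 2089072092774400 :=
  SlabE.join e13 (SlabE.ofC (CovE.of ok1896) rfl rfl)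

theorem e15 : SlabE Exc 1592092837019648 2093470139285504 :=
  SlabE.join e14 (SlabE.ofC (CovE.of ok1900) rfl rfl)

theorem e16 : SlabE Exc 1592092837019648 2097868185796608 :=
  SlabE.join e15 (SlabE.ofC (CovE.of ok1904) rfl rfl)

theorem e17 : SlabE Exc 1592092837019648 2102266232307712 :=
  SlabE.join e16 (SlabE.ofC (CovE.of ok1908) rfl rfl)

theorem e18 : SlabE Exc 1592092837019648 2106664278818816 :=
  SlabE.join e17 (SlabE.ofC (CovE.of ok1912) rfl rfl)

theorem e19 : SlabE Exc 1592092837019648 2111062325329920 :=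
  SlabE.join e18 (SlabE.ofC (CovE.of ok1916) rfl rfl)

theorem e20 : SlabE Exc 1592092837019648 2112161836957696 :=
  SlabE.join e19 (SlabE.ofC (CovE.ofG okg1920) rfl rfl)

theorem e21 : SlabE Exc 1592092837019648 2113261348585472 :=
  SlabE.join e20 (SlabE.ofC (CovE.ofG okg1921) rfl rfl)

theorem e22 : SlabE Exc 1592092837019648 2114360860213248 :=
  SlabE.join e21 (SlabE.ofC (CovE.ofG okg1922) rfl rfl)

theorem e23 : SlabE Exc 1592092837019648 2115460371841024 :=
  SlabE.join e22 (SlabE.ofC (CovE.ofG okg1923) rfl rfl)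

theorem e24 : SlabE Exc 1592092837019648 2119858418352128 :=
  SlabE.join e23 (SlabE.ofC (CovE.of ok1924) rfl rfl)

theorem e25 : SlabE Exc 1592092837019648 2124256464863232 :=
  SlabE.join e24 (SlabE.ofC (CovE.of ok1928) rfl rfl)

theorem e26 : SlabE Exc 1592092837019648 2128654511374336 :=
  SlabE.join e25 (SlabE.ofC (CovE.of ok1932) rfl rfl)

theorem e27 : SlabE Exc 1592092837019648 2133052557885440 :=
  SlabE.join e26 (SlabE.ofC (CovE.of ok1936) rfl rfl)

theorem e28 : SlabE Exc 1592092837019648 2137450604396544 :=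
  SlabE.join e27 (SlabE.ofC (CovE.of ok1940) rfl rfl)

theorem e29 : SlabE Exc 1592092837019648 2141848650907648 :=
  SlabE.join e28 (SlabE.ofC (CovE.of ok1944) rfl rfl)

theorem e30 : SlabE Exc 1592092837019648 2142123110431172 :=
  SlabE.join e29 (SlabE.ofC (CovE.ofG okg1948_l) rfl rfl)

theorem hole31 : CovE Exc 2142123110431172 2142530745656753 1246843750656284 1267905300498450 :=
  CovE.hole (c1 := 0.5255) (c2 := 0.5256) (d1 := 0.888) (d2 := 0.903) exc2 (by norm_num) (by norm_num)
    (by norm_num) (by norm_num) (by rw [D_eq]; norm_num) (by rw [D_eq]; norm_num)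
    (by rw [D_eq]; norm_num) (by rw [D_eq]; norm_num)

theorem e31 : SlabE Exc 1592092837019648 2142530745656753 :=
  SlabE.join e30 (SlabE.ofC (CovE.joinb (CovE.joinb (CovE.ofG okg1948_d) hole31) (CovE.ofG okg1948_u)) rfl rfl)

theorem e32 : SlabE Exc 1592092837019648 2142948162535424 :=
  SlabE.join e31 (SlabE.ofC (CovE.ofG okg1948_r) rfl rfl)

theorem e33 : SlabE Exc 1592092837019648 2144047674163200 :=
  SlabE.join e32 (SlabE.ofC (CovE.ofG okg1949) rfl rfl)

theorem e34 : SlabE Exc 1592092837019648 2145147185790976 :=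
  SlabE.join e33 (SlabE.ofC (CovE.ofG okg1950) rfl rfl)

theorem e35 : SlabE Exc 1592092837019648 2146246697418752 :=
  SlabE.join e34 (SlabE.ofC (CovE.ofG okg1951) rfl rfl)

theorem e36 : SlabE Exc 1592092837019648 2147346209046528 :=
  SlabE.join e35 (SlabE.ofC (CovE.ofG okg1952) rfl rfl)

theorem e37 : SlabE Exc 1592092837019648 2148445720674304 :=
  SlabE.join e36 (SlabE.ofC (CovE.ofG okg1953) rfl rfl)

theorem e38 : SlabE Exc 1592092837019648 2149545232302080 :=
  SlabE.join e37 (SlabE.ofC (CovE.ofG okg1954) rfl rfl)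

theorem e39 : SlabE Exc 1592092837019648 2150644743929856 :=
  SlabE.join e38 (SlabE.ofC (CovE.ofG okg1955) rfl rfl)

theorem e40 : SlabE Exc 1592092837019648 2151744255557632 :=
  SlabE.join e39 (SlabE.ofC (CovE.ofG okg1956) rfl rfl)

theorem e41 : SlabE Exc 1592092837019648 2152843767185408 :=
  SlabE.join e40 (SlabE.ofC (CovE.ofG okg1957) rfl rfl)

theorem e42 : SlabE Exc 1592092837019648 2153943278813184 :=
  SlabE.join e41 (SlabE.ofC (CovE.ofG okg1958) rfl rfl)

theorem e43 : SlabE Exc 1592092837019648 2155042790440960 :=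
  SlabE.join e42 (SlabE.ofC (CovE.ofG okg1959) rfl rfl)

theorem e44 : SlabE Exc 1592092837019648 2156070292689820 :=
  SlabE.join e43 (SlabE.ofC (CovE.ofG okg1960_l) rfl rfl)

theorem hole45 : CovE Exc 2156070292689820 2156142302068736 1233187192598712 1252391442539070 :=
  CovE.hole (c1 := 0.5221) (c2 := 0.5222) (d1 := 0.899) (d2 := 0.913) exc3 (by norm_num) (by norm_num)
    (by norm_num) (by norm_num) (by rw [D_eq]; norm_num) (by rw [D_eq]; norm_num)
    (by rw [D_eq]; norm_num) (by rw [D_eq]; norm_num)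

theorem e45 : SlabE Exc 1592092837019648 2156142302068736 :=
  SlabE.join e44 (SlabE.ofC (CovE.joinb (CovE.joinb (CovE.ofG okg1960_d) hole45) (CovE.ofG okg1960_u)) rfl rfl)

theorem hole46 : CovE Exc 2156142302068736 2156483253864439 1233187192598712 1252391442539070 :=
  CovE.hole (c1 := 0.5221) (c2 := 0.5222) (d1 := 0.899) (d2 := 0.913) exc3 (by norm_num) (by norm_num)
    (by norm_num) (by norm_num) (by rw [D_eq]; norm_num) (by rw [D_eq]; norm_num)
    (by rw [D_eq]; norm_num) (by rw [D_eq]; norm_num)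

theorem e46 : SlabE Exc 1592092837019648 2156483253864439 :=
  SlabE.join e45 (SlabE.ofC (CovE.joinb (CovE.joinb (CovE.ofG okg1961_d) hole46) (CovE.ofG okg1961_u)) rfl rfl)

theorem e47 : SlabE Exc 1592092837019648 2157241813696512 :=
  SlabE.join e46 (SlabE.ofC (CovE.ofG okg1961_r) rfl rfl)

theorem e48 : SlabE Exc 1592092837019648 2158341325324288 :=
  SlabE.join e47 (SlabE.ofC (CovE.ofG okg1962) rfl rfl)

theorem e49 : SlabE Exc 1592092837019648 2159440836952064 :=
  SlabE.join e48 (SlabE.ofC (CovE.ofG okg1963) rfl rfl)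

theorem e50 : SlabE Exc 1592092837019648 2160540348579840 :=
  SlabE.join e49 (SlabE.ofC (CovE.ofG okg1964) rfl rfl)

theorem e51 : SlabE Exc 1592092837019648 2161639860207616 :=
  SlabE.join e50 (SlabE.ofC (CovE.ofG okg1965) rfl rfl)

theorem e52 : SlabE Exc 1592092837019648 2162696709263589 :=
  SlabE.join e51 (SlabE.ofC (CovE.ofG okg1966_0) rfl rfl)

theorem hole53 : CovE Exc 2162696709263589 2162739371835392 1219826551292118 1242715128965368 :=
  CovE.hole (c1 := 0.52) (c2 := 0.5206) (d1 := 0.906) (d2 := 0.923) exc4 (by norm_num) (by norm_num)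
    (by norm_num) (by norm_num) (by rw [D_eq]; norm_num) (by rw [D_eq]; norm_num)
    (by rw [D_eq]; norm_num) (by rw [D_eq]; norm_num)

theorem e53 : SlabE Exc 1592092837019648 2162739371835392 :=
  SlabE.join e52 (SlabE.ofC (CovE.joinb (CovE.joinb (CovE.ofG okg1966_1d) hole53) (CovE.ofG okg1966_1u)) rfl rfl)

theorem hole54 : CovE Exc 2162739371835392 2163838883463168 1219826551292118 1242715128965368 :=
  CovE.hole (c1 := 0.52) (c2 := 0.5206) (d1 := 0.906) (d2 := 0.923) exc4 (by norm_num) (by norm_num)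
    (by norm_num) (by norm_num) (by rw [D_eq]; norm_num) (by rw [D_eq]; norm_num)
    (by rw [D_eq]; norm_num) (by rw [D_eq]; norm_num)

theorem e54 : SlabE Exc 1592092837019648 2163838883463168 :=
  SlabE.join e53 (SlabE.ofC (CovE.joinb (CovE.joinb (CovE.ofG okg1967_0d) hole54) (CovE.ofG okg1967_0u)) rfl rfl)

theorem hole55 : CovE Exc 2163838883463168 2164938395090944 1219826551292118 1242715128965368 :=
  CovE.hole (c1 := 0.52) (c2 := 0.5206) (d1 := 0.906) (d2 := 0.923) exc4 (by norm_num) (by norm_num)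
    (by norm_num) (by norm_num) (by rw [D_eq]; norm_num) (by rw [D_eq]; norm_num)
    (by rw [D_eq]; norm_num) (by rw [D_eq]; norm_num)

theorem e55 : SlabE Exc 1592092837019648 2164938395090944 :=
  SlabE.join e54 (SlabE.ofC (CovE.joinb (CovE.joinb (CovE.ofG okg1968_0d) hole55) (CovE.ofG okg1968_0u)) rfl rfl)

theorem hole56 : CovE Exc 2164938395090944 2165192128543507 1219826551292118 1242715128965368 :=
  CovE.hole (c1 := 0.52) (c2 := 0.5206) (d1 := 0.906) (d2 := 0.923) exc4 (by norm_num) (by norm_num)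
    (by norm_num) (by norm_num) (by rw [D_eq]; norm_num) (by rw [D_eq]; norm_num)
    (by rw [D_eq]; norm_num) (by rw [D_eq]; norm_num)

theorem e56 : SlabE Exc 1592092837019648 2165192128543507 :=
  SlabE.join e55 (SlabE.ofC (CovE.joinb (CovE.joinb (CovE.ofG okg1969_0d) hole56) (CovE.ofG okg1969_0u)) rfl rfl)

theorem e57 : SlabE Exc 1592092837019648 2166025215164725 :=
  SlabE.join e56 (SlabE.ofC (CovE.ofG okg1969_1) rfl rfl)

theorem hole58 : CovE Exc 2166025215164725 2166037906718720 1206752311728429 1267905300498450 :=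
  CovE.hole (c1 := 0.5194) (c2 := 0.5198) (d1 := 0.888) (d2 := 0.933) exc5 (by norm_num) (by norm_num)
    (by norm_num) (by norm_num) (by rw [D_eq]; norm_num) (by rw [D_eq]; norm_num)
    (by rw [D_eq]; norm_num) (by rw [D_eq]; norm_num)

theorem e58 : SlabE Exc 1592092837019648 2166037906718720 :=
  SlabE.join e57 (SlabE.ofC (CovE.joinb (CovE.joinb (CovE.ofG okg1969_2d) hole58) (CovE.ofG okg1969_2u)) rfl rfl)

theorem hole59 : CovE Exc 2166037906718720 2167137418346496 1206752311728429 1267905300498450 :=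
  CovE.hole (c1 := 0.5194) (c2 := 0.5198) (d1 := 0.888) (d2 := 0.933) exc5 (by norm_num) (by norm_num)
    (by norm_num) (by norm_num) (by rw [D_eq]; norm_num) (by rw [D_eq]; norm_num)
    (by rw [D_eq]; norm_num) (by rw [D_eq]; norm_num)

theorem e59 : SlabE Exc 1592092837019648 2167137418346496 :=
  SlabE.join e58 (SlabE.ofC (CovE.joinb (CovE.joinb (CovE.ofG okg1970_0d) hole59) (CovE.ofG okg1970_0u)) rfl rfl)

theorem hole60 : CovE Exc 2167137418346496 2167693313135587 1206752311728429 1267905300498450 :=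
  CovE.hole (c1 := 0.5194) (c2 := 0.5198) (d1 := 0.888) (d2 := 0.933) exc5 (by norm_num) (by norm_num)
    (by norm_num) (by norm_num) (by rw [D_eq]; norm_num) (by rw [D_eq]; norm_num)
    (by rw [D_eq]; norm_num) (by rw [D_eq]; norm_num)

theorem e60 : SlabE Exc 1592092837019648 2167693313135587 :=
  SlabE.join e59 (SlabE.ofC (CovE.joinb (CovE.joinb (CovE.ofG okg1971_0d) hole60) (CovE.ofG okg1971_0u)) rfl rfl)

theorem e61 : SlabE Exc 1592092837019648 2168110739153908 :=
  SlabE.join e60 (SlabE.ofC (CovE.ofG okg1971_1) rfl rfl)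

theorem hole62 : CovE Exc 2168110739153908 2168236929974272 1250999896491805 1255183842633917 :=
  CovE.hole (c1 := 0.5188) (c2 := 0.5193) (d1 := 0.897) (d2 := 0.9) exc6 (by norm_num) (by norm_num)
    (by norm_num) (by norm_num) (by rw [D_eq]; norm_num) (by rw [D_eq]; norm_num)
    (by rw [D_eq]; norm_num) (by rw [D_eq]; norm_num)

theorem e62 : SlabE Exc 1592092837019648 2168236929974272 :=
  SlabE.join e61 (SlabE.ofC (CovE.joinb (CovE.joinb (CovE.ofG okg1971_2d) hole62) (CovE.ofG okg1971_2u)) rfl rfl)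

theorem hole63 : CovE Exc 2168236929974272 2169336441602048 1250999896491805 1255183842633917 :=
  CovE.hole (c1 := 0.5188) (c2 := 0.5193) (d1 := 0.897) (d2 := 0.9) exc6 (by norm_num) (by norm_num)
    (by norm_num) (by norm_num) (by rw [D_eq]; norm_num) (by rw [D_eq]; norm_num)
    (by rw [D_eq]; norm_num) (by rw [D_eq]; norm_num)

theorem e63 : SlabE Exc 1592092837019648 2169336441602048 :=
  SlabE.join e62 (SlabE.ofC (CovE.joinb (CovE.joinb (CovE.ofG okg1972_0d) hole63) (CovE.ofG okg1972_0u)) rfl rfl)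

theorem hole64 : CovE Exc 2169336441602048 2170200283042837 1250999896491805 1255183842633917 :=
  CovE.hole (c1 := 0.5188) (c2 := 0.5193) (d1 := 0.897) (d2 := 0.9) exc6 (by norm_num) (by norm_num)
    (by norm_num) (by norm_num) (by rw [D_eq]; norm_num) (by rw [D_eq]; norm_num)
    (by rw [D_eq]; norm_num) (by rw [D_eq]; norm_num)

theorem e64 : SlabE Exc 1592092837019648 2170200283042837 :=
  SlabE.join e63 (SlabE.ofC (CovE.joinb (CovE.joinb (CovE.ofG okg1973_0d) hole64) (CovE.ofG okg1973_0u)) rfl rfl)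

theorem e65 : SlabE Exc 1592092837019648 2170435953229824 :=
  SlabE.join e64 (SlabE.ofC (CovE.ofG okg1973_1) rfl rfl)

theorem e66 : SlabE Exc 1592092837019648 2171535464857600 :=
  SlabE.join e65 (SlabE.ofC (CovE.ofG okg1974_0) rfl rfl)

theorem e67 : SlabE Exc 1592092837019648 2172634976485376 :=
  SlabE.join e66 (SlabE.ofC (CovE.ofG okg1975_0) rfl rfl)

theorem e68 : SlabE Exc 1592092837019648 2173132420078410 :=
  SlabE.join e67 (SlabE.ofC (CovE.ofG okg1976_0) rfl rfl)

theorem hole69 : CovE Exc 2173132420078410 2173551943711629 1245464498719717 1253786087798022 :=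
  CovE.hole (c1 := 0.518) (c2 := 0.5181) (d1 := 0.898) (d2 := 0.904) exc7 (by norm_num) (by norm_num)
    (by norm_num) (by norm_num) (by rw [D_eq]; norm_num) (by rw [D_eq]; norm_num)
    (by rw [D_eq]; norm_num) (by rw [D_eq]; norm_num)

theorem e69 : SlabE Exc 1592092837019648 2173551943711629 :=
  SlabE.join e68 (SlabE.ofC (CovE.joinb (CovE.joinb (CovE.ofG okg1976_1d) hole69) (CovE.ofG okg1976_1u)) rfl rfl)

theorem e70 : SlabE Exc 1592092837019648 2173734488113152 :=
  SlabE.join e69 (SlabE.ofC (CovE.ofG okg1976_2) rfl rfl)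

theorem e71 : SlabE Exc 1592092837019648 2174833999740928 :=
  SlabE.join e70 (SlabE.ofC (CovE.ofG okg1977_0) rfl rfl)

theorem e72 : SlabE Exc 1592092837019648 2175933511368704 :=
  SlabE.join e71 (SlabE.ofC (CovE.ofG okg1978_0) rfl rfl)

theorem e73 : SlabE Exc 1592092837019648 2177033022996480 :=
  SlabE.join e72 (SlabE.ofC (CovE.ofG okg1979_0) rfl rfl)

theorem e74 : SlabE Exc 1592092837019648 2178132534624256 :=
  SlabE.join e73 (SlabE.ofC (CovE.ofG okg1980_0) rfl rfl)

theorem e75 : SlabE Exc 1592092837019648 2179020528048431 :=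
  SlabE.join e74 (SlabE.ofC (CovE.ofG okg1981_0) rfl rfl)

theorem hole76 : CovE Exc 2179020528048431 2179232046252032 1234539371537965 1248226060801135 :=
  CovE.hole (c1 := 0.5164) (c2 := 0.5167) (d1 := 0.902) (d2 := 0.912) exc8 (by norm_num) (by norm_num)
    (by norm_num) (by norm_num) (by rw [D_eq]; norm_num) (by rw [D_eq]; norm_num)
    (by rw [D_eq]; norm_num) (by rw [D_eq]; norm_num)

theorem e76 : SlabE Exc 1592092837019648 2179232046252032 :=
  SlabE.join e75 (SlabE.ofC (CovE.joinb (CovE.joinb (CovE.ofG okg1981_1d) hole76) (CovE.ofG okg1981_1u)) rfl rfl)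

theorem hole77 : CovE Exc 2179232046252032 2180286419137536 1234539371537965 1248226060801135 :=
  CovE.hole (c1 := 0.5164) (c2 := 0.5167) (d1 := 0.902) (d2 := 0.912) exc8 (by norm_num) (by norm_num)
    (by norm_num) (by norm_num) (by rw [D_eq]; norm_num) (by rw [D_eq]; norm_num)
    (by rw [D_eq]; norm_num) (by rw [D_eq]; norm_num)

theorem e77 : SlabE Exc 1592092837019648 2180286419137536 :=
  SlabE.join e76 (SlabE.ofC (CovE.joinb (CovE.joinb (CovE.ofG okg1982_0d) hole77) (CovE.ofG okg1982_0u)) rfl rfl)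

theorem e78 : SlabE Exc 1592092837019648 2180331557879808 :=
  SlabE.join e77 (SlabE.ofC (CovE.ofG okg1982_1) rfl rfl)

theorem e79 : SlabE Exc 1592092837019648 2181431069507584 :=
  SlabE.join e78 (SlabE.ofC (CovE.ofG okg1983_0) rfl rfl)

theorem e80 : SlabE Exc 1592092837019648 2182530581135360 :=
  SlabE.join e79 (SlabE.ofC (CovE.ofG okg1984_0) rfl rfl)

theorem e81 : SlabE Exc 1592092837019648 2183630092763136 :=
  SlabE.join e80 (SlabE.ofC (CovE.ofG okg1985_0) rfl rfl)

theorem e82 : SlabE Exc 1592092837019648 2184729604390912 :=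
  SlabE.join e81 (SlabE.ofC (CovE.ofG okg1986_0) rfl rfl)

theorem e83 : SlabE Exc 1592092837019648 2185364726014410 :=
  SlabE.join e82 (SlabE.ofC (CovE.ofG okg1987_0) rfl rfl)

theorem hole84 : CovE Exc 2185364726014410 2185788986299017 1223804246568070 1239977870972052 :=
  CovE.hole (c1 := 0.5151) (c2 := 0.5152) (d1 := 0.908) (d2 := 0.92) exc9 (by norm_num) (by norm_num)
    (by norm_num) (by norm_num) (by rw [D_eq]; norm_num) (by rw [D_eq]; norm_num)
    (by rw [D_eq]; norm_num) (by rw [D_eq]; norm_num)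

theorem e84 : SlabE Exc 1592092837019648 2185788986299017 :=
  SlabE.join e83 (SlabE.ofC (CovE.joinb (CovE.joinb (CovE.ofG okg1987_1d) hole84) (CovE.ofG okg1987_1u)) rfl rfl)

theorem e85 : SlabE Exc 1592092837019648 2185829116018688 :=
  SlabE.join e84 (SlabE.ofC (CovE.ofG okg1987_2) rfl rfl)

theorem e86 : SlabE Exc 1592092837019648 2186928627646464 :=
  SlabE.join e85 (SlabE.ofC (CovE.ofG okg1988_0) rfl rfl)

theorem e87 : SlabE Exc 1592092837019648 2188028139274240 :=
  SlabE.join e86 (SlabE.ofC (CovE.ofG okg1989_0) rfl rfl)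

theorem e88 : SlabE Exc 1592092837019648 2189127650902016 :=
  SlabE.join e87 (SlabE.ofC (CovE.ofG okg1990_0) rfl rfl)

theorem e89 : SlabE Exc 1592092837019648 2190227162529792 :=
  SlabE.join e88 (SlabE.ofC (CovE.ofG okg1991_0) rfl rfl)

theorem e90 : SlabE Exc 1592092837019648 2190466744830008 :=
  SlabE.join e89 (SlabE.ofC (CovE.ofG okg1992_0) rfl rfl)

theorem all : SlabE Exc 1592092837019648 2190466744830008 := e90

end Pool.Agent.Helper65.Conn.Data
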