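import Pool.Agent.Helper65.Conn.Slab

/-!
# From slabs to isolated points
-/

namespace Pool.Agent.Helper65.Conn

open Pool.Agent.Iso

theorem D_eq : (D : ℝ) = 1125899906842624 := by unfold D; norm_num

/-- an isolated point has a coordinate below the covered range -/
theorem min_lt_of_slab {A2 : ℕ} (hA : 0 < A2) (hS : Slab 1592092837019648 A2) {p : ℝ × ℝ}
    (hp : IsIsolated p) : min |p.1| |p.2| < (D : ℝ) / A2 := by
  have hD := Dpos
  obtain ⟨-, g, l, hg, hgl, hl, hprod, ⟨a, ha, h1, h2, h3⟩, hnear, hmin, -⟩ := reduce31 hp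
  rw [hmin]
  by_contra hcon
  push Not at hcon
  have hg0 : 0 < g := by linarith
  have hl0 : 0 < l := by linarith
  have hA' : (0 : ℝ) < A2 := by exact_mod_cast hA
  apply hnear
  have hs : Sq a (1 / g) (1 / l) := by
    refine ⟨ha, ?_, ?_, ?_, ?_, ?_, ?_⟩
    · rw [lt_div_iff₀ hg0]; linarith
    · rw [lt_div_iff₀ hl0]; linarith
    · intro he
      have := congrArg (fun t => 1 / t) he
      simp only [one_div_one_div] at this
      exact hgl.ne this
    · rw [one_div_one_div]; exact h1
    · rw [one_div_one_div]; exact h2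
    · rw [one_div_one_div]; exact h3
  have hab : 2 < 1 / g * (1 / l) := by
    rw [one_div_mul_one_div, lt_div_iff₀ (by positivity)]
    linarith
  have hlt : 1 / l < 1 / g := one_div_lt_one_div_of_lt hg0 hgl
  have key := hS a (1 / g) (1 / l) hs hab hlt ?_ ?_
  · rw [one_div_one_div, one_div_one_div] at key
    exact key
  · -- lower bound
    have hg2 : g * g < 1 / 2 := by nlinarith
    have hgu : g < 1024 / 1448 := by
      by_contra hc
      push Not at hc
      have : (1024 / 1448 : ℝ) * (1024 / 1448) ≤ g * g := by gcongr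
      norm_num at this
      linarith
    rw [one_div, ← div_eq_inv_mul, le_div_iff₀ hg0, D_eq]
    push_cast
    linarith
  · rw [one_div, ← div_eq_inv_mul, div_le_iff₀ hg0]
    rw [div_le_iff₀ hA'] at hcon
    linarith

end Pool.Agent.Helper65.Conn
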