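import Pool.Agent.Helper65.Conn.RegT
import Pool.Agent.Helper65.Conn.Final

/-!
# Slabs with exceptional rectangles
-/

namespace Pool.Agent.Helper65.Conn

open Pool.Agent.Iso

/-- all double zeros in the rectangle are near other common zeros or are exceptional -/
def CovE (E : ℝ → ℝ → Prop) (a1 a2 b1 b2 : ℕ) : Prop := ∀ (a : ℕ → ℝ) (α β : ℝ), Sq a α β →
  2 < α * β → β < α → (a1 : ℝ) ≤ α * D → α * D ≤ a2 → (b1 : ℝ) ≤ β * D → β * D ≤ b2 →
    Near (1 / α) (1 / β) ∨ E (1 / α) (1 / β)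

/-- the same for a slab -/
def SlabE (E : ℝ → ℝ → Prop) (a1 a2 : ℕ) : Prop := ∀ (a : ℕ → ℝ) (α β : ℝ), Sq a α β →
  2 < α * β → β < α → (a1 : ℝ) ≤ α * D → α * D ≤ a2 → Near (1 / α) (1 / β) ∨ E (1 / α) (1 / β)

variable {E : ℝ → ℝ → Prop}

theorem CovE.ofG {a1 a2 b1 b2 : ℕ} (h : OKG a1 a2 b1 b2) : CovE E a1 a2 b1 b2 :=
  fun a α β hs hab hlt g1 g2 g3 g4 => Or.inl (Cov.ofG h a α β hs hab hlt g1 g2 g3 g4)

theorem CovE.of {a1 a2 b1 b2 : ℕ} (h : OK a1 a2 b1 b2) : CovE E a1 a2 b1 b2 :=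
  fun a α β hs hab hlt g1 g2 g3 g4 => Or.inl (Cov.of h a α β hs hab hlt g1 g2 g3 g4)

theorem CovE.joinb {a1 a2 b1 v b2 : ℕ} (h1 : CovE E a1 a2 b1 v) (h2 : CovE E a1 a2 v b2) :
    CovE E a1 a2 b1 b2 := by
  intro a α β h hab hlt k1 k2 k3 k4
  rcases le_total (β * D) (v : ℝ) with hle | hle
  · exact h1 a α β h hab hlt k1 k2 k3 hle
  · exact h2 a α β h hab hlt k1 k2 hle k4

theorem CovE.joina {a1 v a2 b1 b2 : ℕ} (h1 : CovE E a1 v b1 b2) (h2 : CovE E v a2 b1 b2) :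
    CovE E a1 a2 b1 b2 := by
  intro a α β h hab hlt k1 k2 k3 k4
  rcases le_total (α * D) (v : ℝ) with hle | hle
  · exact h1 a α β h hab hlt k1 hle k3 k4
  · exact h2 a α β h hab hlt hle k2 k3 k4

theorem one_div_gt {x c : ℝ} {n : ℕ} (hx : 0 < x) (hc : 0 < c) (h : x * D ≤ n)
    (hn : (n : ℝ) * c < D) : c < 1 / x := by
  have hD := Dpos
  rw [lt_div_iff₀ hx]
  have h1 : c * (x * D) ≤ c * n := mul_le_mul_of_nonneg_left h hc.le
  have h2 : c * x * D < 1 * D := by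
    calc c * x * D = c * (x * D) := by ring
      _ ≤ c * n := h1
      _ = n * c := by ring
      _ < D := hn
      _ = 1 * D := by ring
  exact lt_of_mul_lt_mul_right h2 hD.le

theorem one_div_lt' {x c : ℝ} {n : ℕ} (hx : 0 < x) (hc : 0 < c) (h : (n : ℝ) ≤ x * D)
    (hn : (D : ℝ) < n * c) : 1 / x < c := by
  have hD := Dpos
  rw [div_lt_iff₀ hx]
  have h1 : c * n ≤ c * (x * D) := mul_le_mul_of_nonneg_left h hc.le
  have h2 : 1 * (D : ℝ) < c * x * D := by
    calc 1 * (D : ℝ) = D := by ring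
      _ < n * c := hn
      _ = c * n := by ring
      _ ≤ c * (x * D) := h1
      _ = c * x * D := by ring
  exact lt_of_mul_lt_mul_right h2 hD.le

/-- an exceptional rectangle -/
theorem CovE.hole {a1 a2 b1 b2 : ℕ} {c1 c2 d1 d2 : ℝ}
    (hE : ∀ g l : ℝ, c1 < g → g < c2 → d1 < l → l < d2 → E g l)
    (p1 : 0 < c1) (p2 : 0 < c2) (p3 : 0 < d1) (p4 : 0 < d2)
    (h1 : (a2 : ℝ) * c1 < D) (h2 : (D : ℝ) < a1 * c2)
    (h3 : (b2 : ℝ) * d1 < D) (h4 : (D : ℝ) < b1 * d2) : CovE E a1 a2 b1 b2 := by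
  intro a α β h hab hlt k1 k2 k3 k4
  have ha : 0 < α := by linarith [h.ha1]
  have hb : 0 < β := by linarith [h.hb1]
  exact Or.inr (hE _ _ (one_div_gt ha p1 k2 h1) (one_div_lt' ha p2 k1 h2)
    (one_div_gt hb p3 k4 h3) (one_div_lt' hb p4 k3 h4))

theorem SlabE.of {a1 a2 : ℕ} (h : Slab a1 a2) : SlabE E a1 a2 :=
  fun a α β hs hab hlt g1 g2 => Or.inl (h a α β hs hab hlt g1 g2)

theorem SlabE.join {a1 v a2 : ℕ} (h1 : SlabE E a1 v) (h2 : SlabE E v a2) : SlabE E a1 a2 := by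
  intro a α β h hab hlt k1 k2
  rcases le_total (α * D) (v : ℝ) with hle | hle
  · exact h1 a α β h hab hlt k1 hle
  · exact h2 a α β h hab hlt hle k2

theorem SlabE.ofC {a1 a2 b1 b2 : ℕ} (h : CovE E a1 a2 b1 b2)
    (k1 : Nat.ble (Nat.mul a2 b1) (Nat.mul 2 (Nat.mul D D)) = true) (k2 : Nat.ble a2 b2 = true) :
    SlabE E a1 a2 := by
  intro a α β hs hab hlt g1 g2
  have hD := Dpos
  refine h a α β hs hab hlt g1 g2 ?_ ?_
  · by_contra hcon
    push Not at hcon
    exact half_absurd hs hab g2 hcon.le k1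
  · have k := ble_R k2
    have := mul_lt_mul_of_pos_right hlt hD
    linarith

/-- an isolated point has a coordinate below the covered range or is exceptional -/
theorem min_lt_of_slabE {A2 : ℕ} (hA : 0 < A2) (hS : SlabE E 1592092837019648 A2) {p : ℝ × ℝ}
    (hp : IsIsolated p) : min |p.1| |p.2| < (D : ℝ) / A2 ∨
      E (min |p.1| |p.2|) (max |p.1| |p.2|) := by
  have hD := Dpos
  obtain ⟨-, g, l, hg, hgl, hl, hprod, ⟨a, ha, h1, h2, h3⟩, hnear, hmin, hmax⟩ := reduce31 hp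
  rw [hmin, hmax]
  by_contra hcon
  push Not at hcon
  obtain ⟨hcon, hnE⟩ := hcon
  have hg0 : 0 < g := by linarith
  have hl0 : 0 < l := by linarith
  have hA' : (0 : ℝ) < A2 := by exact_mod_cast hA
  apply hnear
  have hs : Sq a (1 / g) (1 / l) := by
    refine ⟨ha, ?_, ?_, ?_, ?_, ?_, ?_⟩
    · rw [lt_div_iff₀ hg0]; linarith
    · rw [lt_div_iff₀ hl0]; linarith
    · intro he
      have := congrArg (fun t => 1 / t) he
      simp only [one_div_one_div] at this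
      exact hgl.ne this
    · rw [one_div_one_div]; exact h1
    · rw [one_div_one_div]; exact h2
    · rw [one_div_one_div]; exact h3
  have hab : 2 < 1 / g * (1 / l) := by
    rw [one_div_mul_one_div, lt_div_iff₀ (by positivity)]
    linarith
  have hlt : 1 / l < 1 / g := one_div_lt_one_div_of_lt hg0 hgl
  have key := hS a (1 / g) (1 / l) hs hab hlt ?_ ?_
  · rw [one_div_one_div, one_div_one_div] at key
    exact key.resolve_right hnE
  · -- lower bound
    have hg2 : g * g < 1 / 2 := by nlinarith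
    have hgu : g < 1024 / 1448 := by
      by_contra hc
      push Not at hc
      have : (1024 / 1448 : ℝ) * (1024 / 1448) ≤ g * g := by gcongr
      norm_num at this
      linarith
    rw [one_div, ← div_eq_inv_mul, le_div_iff₀ hg0, D_eq]
    push_cast
    linarith
  · rw [one_div, ← div_eq_inv_mul, div_le_iff₀ hg0]
    rw [div_le_iff₀ hA'] at hcon
    linarith

end Pool.Agent.Helper65.Conn
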