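import Pool.Agent.Helper65.Conn.Exc

/-!
# The exceptional rectangles
-/

namespace Pool.Agent.Helper65.Conn

open Set

/-- nine small rectangles not covered by the certificates -/
def ExcSet : Set (ℝ × ℝ) :=
  Ioo 0.5497 0.5503 ×ˢ Ioo 0.852 0.873 ∪
  (Ioo 0.5255 0.5256 ×ˢ Ioo 0.888 0.903 ∪
  (Ioo 0.5221 0.5222 ×ˢ Ioo 0.899 0.913 ∪
  (Ioo 0.52 0.5206 ×ˢ Ioo 0.906 0.923 ∪
  (Ioo 0.5194 0.5198 ×ˢ Ioo 0.888 0.933 ∪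
  (Ioo 0.5188 0.5193 ×ˢ Ioo 0.897 0.9 ∪
  (Ioo 0.518 0.5181 ×ˢ Ioo 0.898 0.904 ∪
  (Ioo 0.5164 0.5167 ×ˢ Ioo 0.902 0.912 ∪
  Ioo 0.5151 0.5152 ×ˢ Ioo 0.908 0.92)))))))

/-- the point `(g, l)` is in an exceptional rectangle -/
def Exc (g l : ℝ) : Prop := (g, l) ∈ ExcSet

theorem exc1 (g l : ℝ) (h1 : 0.5497 < g) (h2 : g < 0.5503) (h3 : 0.852 < l) (h4 : l < 0.873) :
    Exc g l := Or.inl ⟨⟨h1, h2⟩, ⟨h3, h4⟩⟩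

theorem exc2 (g l : ℝ) (h1 : 0.5255 < g) (h2 : g < 0.5256) (h3 : 0.888 < l) (h4 : l < 0.903) :
    Exc g l := Or.inr (Or.inl ⟨⟨h1, h2⟩, ⟨h3, h4⟩⟩)

theorem exc3 (g l : ℝ) (h1 : 0.5221 < g) (h2 : g < 0.5222) (h3 : 0.899 < l) (h4 : l < 0.913) :
    Exc g l := Or.inr (Or.inr (Or.inl ⟨⟨h1, h2⟩, ⟨h3, h4⟩⟩))

theorem exc4 (g l : ℝ) (h1 : 0.52 < g) (h2 : g < 0.5206) (h3 : 0.906 < l) (h4 : l < 0.923) :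
    Exc g l := Or.inr (Or.inr (Or.inr (Or.inl ⟨⟨h1, h2⟩, ⟨h3, h4⟩⟩)))

theorem exc5 (g l : ℝ) (h1 : 0.5194 < g) (h2 : g < 0.5198) (h3 : 0.888 < l) (h4 : l < 0.933) :
    Exc g l := Or.inr (Or.inr (Or.inr (Or.inr (Or.inl ⟨⟨h1, h2⟩, ⟨h3, h4⟩⟩))))

theorem exc6 (g l : ℝ) (h1 : 0.5188 < g) (h2 : g < 0.5193) (h3 : 0.897 < l) (h4 : l < 0.9) :
    Exc g l := Or.inr (Or.inr (Or.inr (Or.inr (Or.inr (Or.inl ⟨⟨h1, h2⟩, ⟨h3, h4⟩⟩)))))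

theorem exc7 (g l : ℝ) (h1 : 0.518 < g) (h2 : g < 0.5181) (h3 : 0.898 < l) (h4 : l < 0.904) :
    Exc g l := Or.inr (Or.inr (Or.inr (Or.inr (Or.inr (Or.inr (Or.inl ⟨⟨h1, h2⟩, ⟨h3, h4⟩⟩))))))

theorem exc8 (g l : ℝ) (h1 : 0.5164 < g) (h2 : g < 0.5167) (h3 : 0.902 < l) (h4 : l < 0.912) :
    Exc g l :=
  Or.inr (Or.inr (Or.inr (Or.inr (Or.inr (Or.inr (Or.inr (Or.inl ⟨⟨h1, h2⟩, ⟨h3, h4⟩⟩)))))))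

theorem exc9 (g l : ℝ) (h1 : 0.5151 < g) (h2 : g < 0.5152) (h3 : 0.908 < l) (h4 : l < 0.92) :
    Exc g l :=
  Or.inr (Or.inr (Or.inr (Or.inr (Or.inr (Or.inr (Or.inr (Or.inr ⟨⟨h1, h2⟩, ⟨h3, h4⟩⟩)))))))

end Pool.Agent.Helper65.Conn
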