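import Pool.Agent.Helper65.Conn.Check

/-!
# Joining certificates
-/

namespace Pool.Agent.Helper65.Conn

/-- the rectangle `[a1, a2] × [b1, b2]` has a certificate -/
def OK (a1 a2 b1 b2 : ℕ) : Prop := ∃ c, chkR false c a1 a2 b1 b2 = true

theorem OK.of {c : Rt} {a1 a2 b1 b2 : ℕ} (h : chkR false c a1 a2 b1 b2 = true) :
    OK a1 a2 b1 b2 := ⟨c, h⟩

theorem OK.join {a1 a2 b1 v b2 : ℕ} (h1 : OK a1 a2 b1 v) (h2 : OK a1 a2 v b2)
    (k1 : Nat.ble b1 v = true) (k2 : Nat.ble v b2 = true) : OK a1 a2 b1 b2 := by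
  obtain ⟨x, hx⟩ := h1
  obtain ⟨y, hy⟩ := h2
  refine ⟨.t v x y, ?_⟩
  have e : chkR false (.t v x y) a1 a2 b1 b2 = ((Nat.ble b1 v && Nat.ble v b2) &&
    (chkR false x a1 a2 b1 v && chkR false y a1 a2 v b2)) := rfl
  rw [e, k1, k2, hx, hy]; rfl

end Pool.Agent.Helper65.Conn
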