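import Pool.Agent.Helper65.Conn.Reg

/-!
# Joining certificates with regions
-/

namespace Pool.Agent.Helper65.Conn

/-- the rectangle `[a1, a2] × [b1, b2]` has a certificate with regions -/
def OKG (a1 a2 b1 b2 : ℕ) : Prop := ∃ c : Rg, chkG c none a1 a2 b1 b2 = true

theorem OKG.of {c : Rg} {a1 a2 b1 b2 : ℕ} (h : chkG c none a1 a2 b1 b2 = true) :
    OKG a1 a2 b1 b2 := ⟨c, h⟩

theorem OKG.join {a1 a2 b1 v b2 : ℕ} (h1 : OKG a1 a2 b1 v) (h2 : OKG a1 a2 v b2)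
    (k1 : Nat.ble b1 v = true) (k2 : Nat.ble v b2 = true) : OKG a1 a2 b1 b2 := by
  obtain ⟨x, hx⟩ := h1
  obtain ⟨y, hy⟩ := h2
  refine ⟨.t v x y, ?_⟩
  have e : chkG (.t v x y) none a1 a2 b1 b2 = an (an (Nat.ble b1 v) (Nat.ble v b2))
    (an (chkG x none a1 a2 b1 v) (chkG y none a1 a2 v b2)) := rfl
  rw [e, k1, k2, hx, hy]; rfl

theorem OKG.joina {a1 v a2 b1 b2 : ℕ} (h1 : OKG a1 v b1 b2) (h2 : OKG v a2 b1 b2)
    (k1 : Nat.ble a1 v = true) (k2 : Nat.ble v a2 = true) : OKG a1 a2 b1 b2 := by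
  obtain ⟨x, hx⟩ := h1
  obtain ⟨y, hy⟩ := h2
  refine ⟨.s v x y, ?_⟩
  have e : chkG (.s v x y) none a1 a2 b1 b2 = an (an (Nat.ble a1 v) (Nat.ble v a2))
    (an (chkG x none a1 v b1 b2) (chkG y none v a2 b1 b2)) := rfl
  rw [e, k1, k2, hx, hy]; rfl

end Pool.Agent.Helper65.Conn
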