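import Pool.Agent.Helper65.Conn.Final
import Pool.Agent.Helper65.Conn.DataAll

/-!
# No isolated point of `N` with both coordinates at least `0.5506` in absolute value
-/

namespace Pool.Agent.Helper65.Conn

open Pool.Agent.Iso

theorem min_lt {p : ℝ × ℝ} (hp : IsIsolated p) : min |p.1| |p.2| < 0.5506 := by
  have h := min_lt_of_slab (by norm_num) Data.sl1860 hp
  refine h.trans_le ?_
  rw [D_eq]
  norm_num

end Pool.Agent.Helper65.Conn
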