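import Pool.Agent.Helper65.Conn.DataExc

/-!
# Isolated points of `N` with both coordinates at least `0.514` in absolute value
-/

namespace Pool.Agent.Helper65.Conn

open Pool.Agent.Iso

theorem min_lt_or {p : ℝ × ℝ} (hp : IsIsolated p) :
    min |p.1| |p.2| < 0.514 ∨ (min |p.1| |p.2|, max |p.1| |p.2|) ∈ ExcSet := by
  rcases min_lt_of_slabE (by norm_num) Data.all hp with h | h
  · left
    refine h.trans_le ?_
    rw [D_eq]
    norm_num
  · right
    exact h

end Pool.Agent.Helper65.Conn
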