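import Pool.Agent.Helper65.Conn.Seq

/-!
# Arithmetic of numbers with offset
-/

namespace Pool.Agent.Helper65.Conn

/-- the value of a number with offset -/
noncomputable def zz (n : ℕ) : ℝ := (n : ℝ) - (Z : ℝ)

theorem Dpos : (0 : ℝ) < (D : ℝ) := by unfold D; norm_num

theorem D1 : (1 : ℝ) ≤ (D : ℝ) := by unfold D; norm_num

theorem Zpos : (0 : ℝ) < (Z : ℝ) := by unfold Z; norm_num

theorem Z_eq : Z = D * ZD := by decide +kernel

theorem Z_big : (1 : ℝ) ≤ Z / 1048576 := by unfold Z; norm_num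

theorem DZ : (D : ℝ) ≤ Z / 1048576 := by unfold Z D; norm_num

/-- floor division error -/
theorem floor_err (v : ℤ) : ∃ e : ℝ, 0 ≤ e ∧ e < 1 ∧ ((v / (D : ℤ) : ℤ) : ℝ) = (v : ℝ) / D - e := by
  have hD : (0 : ℤ) < (D : ℤ) := by unfold D; norm_num
  have h1 := Int.emod_add_mul_ediv v (D : ℤ)
  have h2 := Int.emod_nonneg v hD.ne'
  have h3 := Int.emod_lt_of_pos v hD
  refine ⟨((v % (D : ℤ) : ℤ) : ℝ) / D, ?_, ?_, ?_⟩
  · have : (0 : ℝ) ≤ ((v % (D : ℤ) : ℤ) : ℝ) := by exact_mod_cast h2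
    exact div_nonneg this Dpos.le
  · rw [div_lt_one Dpos]
    exact_mod_cast h3
  · have h4 : (v : ℝ) = ((v % (D : ℤ) : ℤ) : ℝ) + D * ((v / (D : ℤ) : ℤ) : ℝ) := by
      exact_mod_cast h1.symm
    have := Dpos.ne'
    rw [h4]
    field_simp
    ring

/-- floor division of naturals -/
theorem floorN (n : ℕ) : ∃ e : ℝ, 0 ≤ e ∧ e < 1 ∧ ((Nat.div n D : ℕ) : ℝ) = (n : ℝ) / D - e := by
  obtain ⟨e, h0, h1, h2⟩ := floor_err (n : ℤ)
  refine ⟨e, h0, h1, ?_⟩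
  have : ((Nat.div n D : ℕ) : ℤ) = (n : ℤ) / (D : ℤ) := by
    exact_mod_cast rfl
  have h3 : (((Nat.div n D : ℕ) : ℤ) : ℝ) = ((n : ℤ) : ℝ) / D - e := by rw [this]; exact h2
  simpa using h3

theorem divN_le (n : ℕ) : ((Nat.div n D : ℕ) : ℝ) ≤ (n : ℝ) / D := by
  obtain ⟨e, h0, _, h2⟩ := floorN n
  rw [h2]; linarith

theorem le_divN (n : ℕ) : (n : ℝ) / D - 1 ≤ ((Nat.div n D : ℕ) : ℝ) := by
  obtain ⟨e, _, h1, h2⟩ := floorN n
  rw [h2]; linarith

theorem mulO_spec {x a z : ℕ} (ha : D ≤ a) (ha4 : a ≤ 4 * D) (hz : z = (a - D) * ZD)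
    (hx : |zz x| ≤ Z / 4) :
    ∃ e : ℝ, 0 ≤ e ∧ e < 1 ∧ zz (mulO x a z) = zz x * a / D - e := by
  obtain ⟨e, h0, h1, h2⟩ := floor_err (((x : ℤ) - Z) * a)
  refine ⟨e, h0, h1, ?_⟩
  have hD : (0 : ℤ) < (D : ℤ) := by unfold D; norm_num
  -- the quotient
  have hq : ((Nat.div (Nat.mul x a) D : ℕ) : ℤ) = (ZD : ℤ) * a + (((x : ℤ) - Z) * a) / (D : ℤ) := by
    have e1 : ((Nat.div (Nat.mul x a) D : ℕ) : ℤ) = ((x : ℤ) * a) / (D : ℤ) := by
      have : Nat.div (Nat.mul x a) D = (x * a) / D := rfl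
      rw [this]; push_cast; rfl
    rw [e1]
    have e2 : (x : ℤ) * a = ((x : ℤ) - Z) * a + D * ((ZD : ℤ) * a) := by
      have : (Z : ℤ) = D * ZD := by exact_mod_cast Z_eq
      rw [this]; ring
    rw [e2, Int.add_mul_ediv_left _ _ hD.ne']
    ring
  have hzz : (z : ℤ) = (ZD : ℤ) * a - Z := by
    rw [hz]
    push_cast [Nat.cast_sub ha]
    have : (Z : ℤ) = D * ZD := by exact_mod_cast Z_eq
    rw [this]; ring
  have hlow : -(Z : ℝ) ≤ (((((x : ℤ) - Z) * a) / (D : ℤ) : ℤ) : ℝ) := by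
    rw [h2]
    push_cast
    have ha4' : (a : ℝ) ≤ 4 * D := by exact_mod_cast ha4
    have ha0 : (0 : ℝ) ≤ (a : ℝ) := Nat.cast_nonneg a
    have h5 : -(Z / 4 : ℝ) ≤ zz x := (abs_le.1 hx).1
    unfold zz at h5
    -- strict inequality is not needed: use the exact floor bound below
    have h6 : -(Z : ℝ) ≤ ((x : ℝ) - Z) * a / D := by
      rw [le_div_iff₀ Dpos]
      have hZ := Zpos
      have hZ4 : (0 : ℝ) ≤ (Z : ℝ) / 4 := by linarith
      have t1 := mul_le_mul_of_nonneg_right h5 ha0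
      have t2 := mul_le_mul_of_nonneg_left ha4' hZ4
      linarith
    by_contra hcon
    push Not at hcon
    -- the quotient is an integer, at least -Z
    have h7 : -(Z : ℤ) ≤ (((x : ℤ) - Z) * a) / (D : ℤ) := by
      rw [Int.le_ediv_iff_mul_le hD]
      have : -(Z : ℝ) * D ≤ ((x : ℝ) - Z) * a := by
        rw [le_div_iff₀ Dpos] at h6; exact h6
      exact_mod_cast this
    have h8 : (-(Z : ℝ)) ≤ (((((x : ℤ) - Z) * a) / (D : ℤ) : ℤ) : ℝ) := by exact_mod_cast h7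
    rw [h2] at h8
    push_cast at h8
    linarith
  have hle : z ≤ Nat.div (Nat.mul x a) D := by
    have h9 : (z : ℤ) ≤ ((Nat.div (Nat.mul x a) D : ℕ) : ℤ) := by
      rw [hq, hzz]
      have : -(Z : ℤ) ≤ (((x : ℤ) - Z) * a) / (D : ℤ) := by exact_mod_cast hlow
      linarith
    exact_mod_cast h9
  have hfin : ((mulO x a z : ℕ) : ℤ) = Z + (((x : ℤ) - Z) * a) / (D : ℤ) := by
    have : mulO x a z = Nat.div (Nat.mul x a) D - z := rfl
    rw [this, Nat.cast_sub hle, hq, hzz]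
    ring
  have hfinR : ((mulO x a z : ℕ) : ℝ) = Z + (((((x : ℤ) - Z) * a) / (D : ℤ) : ℤ) : ℝ) := by
    exact_mod_cast hfin
  unfold zz
  rw [hfinR, h2]
  push_cast
  ring

theorem zz_addsub {x y : ℕ} (hx : |zz x| ≤ Z / 4) (hy : |zz y| ≤ Z / 4) :
    zz (Nat.sub (Nat.add x y) Z) = zz x + zz y := by
  have h1 := (abs_le.1 hx).1
  have h2 := (abs_le.1 hy).1
  unfold zz at *
  have hle : Z ≤ x + y := by
    have : (Z : ℝ) ≤ (x : ℝ) + y := by have := Zpos; linarith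
    exact_mod_cast this
  have : ((Nat.sub (Nat.add x y) Z : ℕ) : ℝ) = (x : ℝ) + y - Z := by
    show ((x + y - Z : ℕ) : ℝ) = _
    rw [Nat.cast_sub hle]; push_cast; ring
  rw [this]; ring

theorem zz_sub {x y : ℕ} (hx : |zz x| ≤ Z / 4) (hy : |zz y| ≤ Z / 4) :
    zz (Nat.sub (Nat.add x Z) y) = zz x - zz y := by
  have h1 := (abs_le.1 hx).1
  have h2 := (abs_le.1 hy).2
  unfold zz at *
  have hle : y ≤ x + Z := by
    have : (y : ℝ) ≤ (x : ℝ) + Z := by have := Zpos; linarith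
    exact_mod_cast this
  have : ((Nat.sub (Nat.add x Z) y : ℕ) : ℝ) = (x : ℝ) + Z - y := by
    show ((x + Z - y : ℕ) : ℝ) = _
    rw [Nat.cast_sub hle]; push_cast; ring
  rw [this]; ring

theorem zz_sub3 {x y w : ℕ} (hx : |zz x| ≤ Z / 4) (hy : |zz y| ≤ Z / 4) (hw : |zz w| ≤ Z / 4) :
    zz (Nat.sub (Nat.sub (Nat.add x (Nat.add Z Z)) y) w) = zz x - zz y - zz w := by
  have h1 := (abs_le.1 hx).1
  have h2 := (abs_le.1 hy).2
  have h3 := (abs_le.1 hw).2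
  unfold zz at *
  have hle1 : y ≤ x + (Z + Z) := by
    have : (y : ℝ) ≤ (x : ℝ) + (Z + Z) := by have := Zpos; linarith
    exact_mod_cast this
  have hle2 : w ≤ x + (Z + Z) - y := by
    have : (w : ℝ) ≤ (((x + (Z + Z) - y : ℕ)) : ℝ) := by
      rw [Nat.cast_sub hle1]; push_cast; have := Zpos; linarith
    exact_mod_cast this
  have : ((Nat.sub (Nat.sub (Nat.add x (Nat.add Z Z)) y) w : ℕ) : ℝ) = (x : ℝ) + (Z + Z) - y - w := by
    show ((x + (Z + Z) - y - w : ℕ) : ℝ) = _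
    rw [Nat.cast_sub hle2, Nat.cast_sub hle1]; push_cast; ring
  rw [this]; ring

theorem zz_addD (x : ℕ) : zz (Nat.add x D) = zz x + D := by
  unfold zz
  show ((x + D : ℕ) : ℝ) - Z = _
  push_cast; ring

theorem zz_subD {x : ℕ} (hx : |zz x| ≤ Z / 4) : zz (Nat.sub x D) = zz x - D := by
  have h1 := (abs_le.1 hx).1
  have hle : D ≤ x := by
    have h2 := DZ
    have h3 := Zpos
    unfold zz at h1
    have : (D : ℝ) ≤ x := by linarith
    exact_mod_cast this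
  unfold zz
  show ((x - D : ℕ) : ℝ) - Z = _
  rw [Nat.cast_sub hle]; ring

theorem force_eq {α : Type} (n : ℕ) (f : ℕ → α) : force n f = f n := by
  cases n <;> rfl

end Pool.Agent.Helper65.Conn
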