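import Pool.Agent.Helper65.Conn.ModelA

/-!
# The radii
-/

namespace Pool.Agent.Helper65.Conn

/-- real form of the check of the radii -/
structure RS (X : Root) (r r' : Rad) : Prop where
  ey : ((X.a : ℝ) + X.da) * r.ey / D + 1 ≤ r'.ey
  ky : ((X.a : ℝ) + X.da) * r.ky / D + r.My ≤ r'.ky
  My : ((X.a : ℝ) + X.da) * r.My / D + (X.T + (r.My : ℝ) * X.da / D) + 1 ≤ r'.My
  rv : ((X.b : ℝ) + X.db) * r.rv / D + (r.Mv : ℝ) * X.db / D * X.db / D + 2 ≤ r'.rv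
  Mv : ((X.b : ℝ) + X.db) * r.Mv / D + (X.U + r.rv) + 3 ≤ r'.Mv
  ru : ∃ rt Mt : ℝ, (r.ru : ℝ) + ((X.b : ℝ) + X.db) * r.rv / D
      + (r.Mv : ℝ) * X.db / D * X.db / D + 2 ≤ rt ∧
    (r.Mu : ℝ) + X.U + r.rv + ((X.b : ℝ) + X.db) * r.Mv / D + 2 ≤ Mt ∧
    ((X.b : ℝ) + X.db) * rt / D + Mt * X.db / D * X.db / D + 2 ≤ r'.ru ∧
    ((X.b : ℝ) + X.db) * Mt / D + (X.U1 + rt) + 3 ≤ r'.Mu
  rq : ((X.a : ℝ) + X.da) * ((r.rq : ℝ) + r'.ru) / D + (r.Mq : ℝ) * X.da / D * X.da / D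
      + ((r.Nq : ℝ) + r'.Mu) * X.db / D * X.da / D + 3 ≤ r'.rq
  Mq : ((X.a : ℝ) + X.da) * r.Mq / D + (X.Q + ((r.Nq : ℝ) + r'.Mu) * X.db / D)
      + ((r.rq : ℝ) + r'.ru) + 3 ≤ r'.Mq
  Nq : ((X.a : ℝ) + X.da) * ((r.Nq : ℝ) + r'.Mu) / D + 2 ≤ r'.Nq
  sum : ((r'.My : ℝ) + r'.Mv + (r'.Mu + r'.Mq)) + (r'.Nq + ((r'.ey : ℝ) + r'.rv)
      + ((r'.ru : ℝ) + r'.rq)) ≤ Z / 1024

theorem div2 (m d : ℕ) : (m : ℝ) * d / D * d / D - 1 ≤
    ((Nat.div (Nat.mul (Nat.add (Nat.div (Nat.mul m d) D) 1) d) D : ℕ) : ℝ) := by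
  have h1 := le_divN (Nat.mul (Nat.add (Nat.div (Nat.mul m d) D) 1) d)
  have h2 := le_divN (Nat.mul m d)
  have e1 : ((Nat.mul (Nat.add (Nat.div (Nat.mul m d) D) 1) d : ℕ) : ℝ) =
      (((Nat.div (Nat.mul m d) D : ℕ) : ℝ) + 1) * d := by
    show (((Nat.div (Nat.mul m d) D + 1) * d : ℕ) : ℝ) = _
    push_cast; ring
  have e2 : ((Nat.mul m d : ℕ) : ℝ) = (m : ℝ) * d := by
    show ((m * d : ℕ) : ℝ) = _
    push_cast; ring
  rw [e1] at h1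
  rw [e2] at h2
  have hd0 : (0 : ℝ) ≤ d := Nat.cast_nonneg d
  have h3 : (m : ℝ) * d / D * d / D ≤ (((Nat.div (Nat.mul m d) D : ℕ) : ℝ) + 1) * d / D := by
    apply div_le_div_of_nonneg_right _ Dpos.le
    apply mul_le_mul_of_nonneg_right _ hd0
    linarith
  linarith

theorem div2' (m d d' : ℕ) : (m : ℝ) * d / D * d' / D - 1 ≤
    ((Nat.div (Nat.mul (Nat.add (Nat.div (Nat.mul m d) D) 1) d') D : ℕ) : ℝ) := by
  have h1 := le_divN (Nat.mul (Nat.add (Nat.div (Nat.mul m d) D) 1) d')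
  have h2 := le_divN (Nat.mul m d)
  have e1 : ((Nat.mul (Nat.add (Nat.div (Nat.mul m d) D) 1) d' : ℕ) : ℝ) =
      (((Nat.div (Nat.mul m d) D : ℕ) : ℝ) + 1) * d' := by
    show (((Nat.div (Nat.mul m d) D + 1) * d' : ℕ) : ℝ) = _
    push_cast; ring
  have e2 : ((Nat.mul m d : ℕ) : ℝ) = (m : ℝ) * d := by
    show ((m * d : ℕ) : ℝ) = _
    push_cast; ring
  rw [e1] at h1
  rw [e2] at h2
  have hd0 : (0 : ℝ) ≤ d' := Nat.cast_nonneg d'
  have h3 : (m : ℝ) * d / D * d' / D ≤ (((Nat.div (Nat.mul m d) D : ℕ) : ℝ) + 1) * d' / D := by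
    apply div_le_div_of_nonneg_right _ Dpos.le
    apply mul_le_mul_of_nonneg_right _ hd0
    linarith
  linarith

theorem ble_R {a b : ℕ} (h : Nat.ble a b = true) : (a : ℝ) ≤ b := by
  exact_mod_cast Nat.le_of_ble_eq_true h

theorem cadd (a b : ℕ) : ((Nat.add a b : ℕ) : ℝ) = (a : ℝ) + b := by
  show ((a + b : ℕ) : ℝ) = _; push_cast; ring

theorem cmul (a b : ℕ) : ((Nat.mul a b : ℕ) : ℝ) = (a : ℝ) * b := by
  show ((a * b : ℕ) : ℝ) = _; push_cast; ring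

theorem divmul_le (m d : ℕ) : ((m : ℝ)) * d / D - 1 ≤ ((Nat.div (Nat.mul m d) D : ℕ) : ℝ) := by
  have := le_divN (Nat.mul m d)
  rw [cmul] at this
  exact this

theorem RS_of {X : Root} {r r' : Rad} (h : radStep X r r' = true) : RS X r r' := by
  unfold radStep at h
  simp only [force_eq] at h
  rw [Bool.and_eq_true, Bool.and_eq_true, Bool.and_eq_true, Bool.and_eq_true, Bool.and_eq_true,
    Bool.and_eq_true, Bool.and_eq_true, Bool.and_eq_true, Bool.and_eq_true,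
    Bool.and_eq_true] at h
  obtain ⟨⟨⟨h1, h2, h3⟩, h4, h5⟩, ⟨⟨h6, h7⟩, h8, h9⟩, h10, h11⟩ := h
  have g1 := ble_R h1
  have g2 := ble_R h2
  have g3 := ble_R h3
  have g4 := ble_R h4
  have g5 := ble_R h5
  have g6 := ble_R h6
  have g7 := ble_R h7
  have g8 := ble_R h8
  have g9 := ble_R h9
  have g10 := ble_R h10
  have g11 := ble_R h11
  simp only [cadd] at g1 g2 g3 g4 g5 g6 g7 g8 g9 g10 g11
  have k1 := divmul_le (Nat.add X.a X.da) r.ey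
  have k2 := divmul_le (Nat.add X.a X.da) r.ky
  have k3 := divmul_le (Nat.add X.b X.db) r.rv
  have k4 := div2 r.Mv X.db
  have k5 := divmul_le (Nat.add X.a X.da) r.My
  have k6 := divmul_le r.My X.da
  have k7 := divmul_le (Nat.add X.b X.db) r.Mv
  have k8 := divmul_le (Nat.add X.a X.da) r.Mq
  have k9 := divmul_le (Nat.add r.Nq r'.Mu) X.db
  have k10 := divmul_le (Nat.add X.a X.da) (Nat.add r.Nq r'.Mu)
  have k11 := divmul_le (Nat.add X.a X.da) (Nat.add r.rq r'.ru)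
  have k12 := div2 r.Mq X.da
  have k13 := div2' (Nat.add r.Nq r'.Mu) X.db X.da
  simp only [cadd] at k1 k2 k3 k5 k7 k8 k9 k10 k11 k13
  set rtN := Nat.add (Nat.add r.ru (Nat.div (Nat.mul (Nat.add X.b X.db) r.rv) D))
    (Nat.add (Nat.div (Nat.mul (Nat.add (Nat.div (Nat.mul r.Mv X.db) D) 1) X.db) D) 4) with hrt
  set MtN := Nat.add (Nat.add r.Mu X.U) (Nat.add r.rv
    (Nat.add (Nat.div (Nat.mul (Nat.add X.b X.db) r.Mv) D) 3)) with hMt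
  have ert : (rtN : ℝ) = (r.ru : ℝ) + ((Nat.div (Nat.mul (Nat.add X.b X.db) r.rv) D : ℕ) : ℝ) +
    (((Nat.div (Nat.mul (Nat.add (Nat.div (Nat.mul r.Mv X.db) D) 1) X.db) D : ℕ) : ℝ) + 4) := by
    rw [hrt]; simp only [cadd]; push_cast; ring
  have eMt : (MtN : ℝ) = (r.Mu : ℝ) + X.U + ((r.rv : ℝ) +
    (((Nat.div (Nat.mul (Nat.add X.b X.db) r.Mv) D : ℕ) : ℝ) + 3)) := by
    rw [hMt]; simp only [cadd]; push_cast; ring
  have k14 := divmul_le (Nat.add X.b X.db) rtN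
  have k15 := div2 MtN X.db
  have k16 := divmul_le (Nat.add X.b X.db) MtN
  simp only [cadd] at k14 k16
  have hZ : ((Nat.div Z 1024 : ℕ) : ℝ) ≤ (Z : ℝ) / 1024 := by
    have : ((Z / 1024 : ℕ) : ℝ) ≤ (Z : ℝ) / (1024 : ℕ) := Nat.cast_div_le
    show ((Z / 1024 : ℕ) : ℝ) ≤ (Z : ℝ) / 1024
    simpa using this
  push_cast at g1 g2 g3 g4 g5 g6 g7 g8 g9 g10 g11
  refine ⟨by linarith, by linarith, by linarith, by linarith, by linarith,
    ⟨rtN, MtN, by rw [ert]; linarith, by rw [eMt]; linarith, by linarith, by linarith⟩,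
    by linarith, by linarith, by linarith, by linarith⟩

end Pool.Agent.Helper65.Conn
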