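import Pool.Agent.Helper65.Conn.ModelB

/-!
# Affine models: real inequalities
-/

namespace Pool.Agent.Helper65.Conn

theorem abs_mul_le' {x y X Y : ℝ} (hx : |x| ≤ X) (hy : |y| ≤ Y) : |x * y| ≤ X * Y := by
  rw [abs_mul]
  exact mul_le_mul hx hy (abs_nonneg _) ((abs_nonneg _).trans hx)

/-- multiplication of an affine model by the parameter -/
theorem aff1 {D b ε db c m v β R M e1 e2 : ℝ} (hD : 0 < D) (hβ : β * D = b + ε) (hε0 : 0 ≤ ε)
    (hε : ε ≤ db) (hdb : db ≤ D) (hb : 0 ≤ b) (hv : |D * v - (c + m * ε / D)| ≤ R)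
    (hm : |m| ≤ M) (h1 : 0 ≤ e1) (h1' : e1 ≤ 1) (h2 : 0 ≤ e2) (h2' : e2 ≤ 1) :
    |D * (β * v) - ((b * c / D - e1) + (b * m / D - e2 + c) * ε / D)| ≤
      (b + db) * R / D + M * db / D * db / D + 2 := by
  have hD' := hD.ne'
  have hM : 0 ≤ M := (abs_nonneg _).trans hm
  have hdb0 : 0 ≤ db := hε0.trans hε
  have hs0 : 0 ≤ ε / D := div_nonneg hε0 hD.le
  have hs1 : ε / D ≤ 1 := by rw [div_le_one hD]; linarith
  have hs2 : ε / D ≤ db / D := div_le_div_of_nonneg_right hε hD.le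
  have hβ' : β = (b + ε) / D := by field_simp; linarith
  have e : D * (β * v) - ((b * c / D - e1) + (b * m / D - e2 + c) * ε / D) =
      e1 + e2 * (ε / D) + m * (ε / D * (ε / D)) + (b + ε) / D * (D * v - (c + m * ε / D)) := by
    rw [hβ']; field_simp; ring
  rw [e]
  have k1 : |e1| ≤ 1 := by rw [abs_of_nonneg h1]; exact h1'
  have k2 : |e2 * (ε / D)| ≤ 1 * 1 := by
    apply abs_mul_le'
    · rw [abs_of_nonneg h2]; exact h2'
    · rw [abs_of_nonneg hs0]; exact hs1
  have k3 : |m * (ε / D * (ε / D))| ≤ M * (db / D * (db / D)) := by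
    apply abs_mul_le' hm
    apply abs_mul_le' <;> · rw [abs_of_nonneg hs0]; exact hs2
  have k4 : |(b + ε) / D * (D * v - (c + m * ε / D))| ≤ (b + db) / D * R := by
    apply abs_mul_le' _ hv
    rw [abs_of_nonneg (div_nonneg (by linarith) hD.le)]
    exact div_le_div_of_nonneg_right (by linarith) hD.le
  have e2' : (b + db) * R / D + M * db / D * db / D + 2 =
      (1 + 1 * 1) + M * (db / D * (db / D)) + (b + db) / D * R := by field_simp; ring
  rw [e2']
  calc _ ≤ |e1 + e2 * (ε / D) + m * (ε / D * (ε / D))| +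
        |(b + ε) / D * (D * v - (c + m * ε / D))| := abs_add_le _ _
    _ ≤ (|e1 + e2 * (ε / D)| + |m * (ε / D * (ε / D))|) +
        |(b + ε) / D * (D * v - (c + m * ε / D))| := by
        have := abs_add_le (e1 + e2 * (ε / D)) (m * (ε / D * (ε / D)))
        linarith
    _ ≤ _ := by
        have := abs_add_le e1 (e2 * (ε / D))
        linarith

/-- multiplication of an affine model in two parameters -/
theorem aff2 {D a δ da ε db c m n v α R M N e1 e2 e3 : ℝ} (hD : 0 < D) (hα : α * D = a + δ)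
    (hδ0 : 0 ≤ δ) (hδ : δ ≤ da) (hda : da ≤ D) (hε0 : 0 ≤ ε) (hε : ε ≤ db) (hdb : db ≤ D)
    (ha : 0 ≤ a) (hv : |D * v - (c + m * δ / D + n * ε / D)| ≤ R)
    (hm : |m| ≤ M) (hn : |n| ≤ N) (h1 : 0 ≤ e1) (h1' : e1 ≤ 1) (h2 : 0 ≤ e2) (h2' : e2 ≤ 1)
    (h3 : 0 ≤ e3) (h3' : e3 ≤ 1) :
    |D * (α * v) - ((a * c / D - e1) + (c + (a * m / D - e2)) * δ / D
      + (a * n / D - e3) * ε / D)| ≤
      (a + da) * R / D + M * da / D * da / D + N * db / D * da / D + 3 := by
  have hD' := hD.ne'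
  have hM : 0 ≤ M := (abs_nonneg _).trans hm
  have hN : 0 ≤ N := (abs_nonneg _).trans hn
  have hs0 : 0 ≤ ε / D := div_nonneg hε0 hD.le
  have hs1 : ε / D ≤ 1 := by rw [div_le_one hD]; linarith
  have hs2 : ε / D ≤ db / D := div_le_div_of_nonneg_right hε hD.le
  have ht0 : 0 ≤ δ / D := div_nonneg hδ0 hD.le
  have ht1 : δ / D ≤ 1 := by rw [div_le_one hD]; linarith
  have ht2 : δ / D ≤ da / D := div_le_div_of_nonneg_right hδ hD.le
  have hα' : α = (a + δ) / D := by field_simp; linarith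
  have e : D * (α * v) - ((a * c / D - e1) + (c + (a * m / D - e2)) * δ / D
      + (a * n / D - e3) * ε / D) =
      e1 + e2 * (δ / D) + e3 * (ε / D) + m * (δ / D * (δ / D)) + n * (ε / D * (δ / D))
        + (a + δ) / D * (D * v - (c + m * δ / D + n * ε / D)) := by
    rw [hα']; field_simp; ring
  rw [e]
  have k1 : |e1| ≤ 1 := by rw [abs_of_nonneg h1]; exact h1'
  have k2 : |e2 * (δ / D)| ≤ 1 * 1 := by
    apply abs_mul_le'
    · rw [abs_of_nonneg h2]; exact h2'
    · rw [abs_of_nonneg ht0]; exact ht1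
  have k3 : |e3 * (ε / D)| ≤ 1 * 1 := by
    apply abs_mul_le'
    · rw [abs_of_nonneg h3]; exact h3'
    · rw [abs_of_nonneg hs0]; exact hs1
  have k4 : |m * (δ / D * (δ / D))| ≤ M * (da / D * (da / D)) := by
    apply abs_mul_le' hm
    apply abs_mul_le' <;> · rw [abs_of_nonneg ht0]; exact ht2
  have k5 : |n * (ε / D * (δ / D))| ≤ N * (db / D * (da / D)) := by
    apply abs_mul_le' hn
    apply abs_mul_le'
    · rw [abs_of_nonneg hs0]; exact hs2
    · rw [abs_of_nonneg ht0]; exact ht2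
  have k6 : |(a + δ) / D * (D * v - (c + m * δ / D + n * ε / D))| ≤ (a + da) / D * R := by
    apply abs_mul_le' _ hv
    rw [abs_of_nonneg (div_nonneg (by linarith) hD.le)]
    exact div_le_div_of_nonneg_right (by linarith) hD.le
  have e2' : (a + da) * R / D + M * da / D * da / D + N * db / D * da / D + 3 =
      (1 + 1 * 1 + 1 * 1) + M * (da / D * (da / D)) + N * (db / D * (da / D))
        + (a + da) / D * R := by field_simp; ring
  rw [e2']
  have a1 := abs_add_le (e1 + e2 * (δ / D) + e3 * (ε / D) + m * (δ / D * (δ / D))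
    + n * (ε / D * (δ / D))) ((a + δ) / D * (D * v - (c + m * δ / D + n * ε / D)))
  have a2 := abs_add_le (e1 + e2 * (δ / D) + e3 * (ε / D) + m * (δ / D * (δ / D)))
    (n * (ε / D * (δ / D)))
  have a3 := abs_add_le (e1 + e2 * (δ / D) + e3 * (ε / D)) (m * (δ / D * (δ / D)))
  have a4 := abs_add_le (e1 + e2 * (δ / D)) (e3 * (ε / D))
  have a5 := abs_add_le e1 (e2 * (δ / D))
  linarith

/-- consecutive radii of a list fit -/
def RSC (X : Root) : List Rad → Prop
  | [] => True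
  | [_] => True
  | r :: r' :: t => RS X r r' ∧ RSC X (r' :: t)

theorem RSC.tail {X : Root} {L : List Rad} (h : RSC X L) : RSC X L.tail := by
  rcases L with _ | ⟨r, _ | ⟨r', t⟩⟩
  · exact h
  · exact trivial
  · exact h.2

theorem RSC.of {X : Root} : ∀ (t : List Rad) (r : Rad), radOK X t r = true → RSC X (r :: t) := by
  intro t
  induction t with
  | nil => exact fun _ _ => trivial
  | cons r' t ih =>
    intro r h
    have e : radOK X (r' :: t) r = (radStep X r r' && radOK X t r') := rfl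
    rw [e, Bool.and_eq_true] at h
    exact ⟨RS_of h.1, ih r' h.2⟩

/-- facts about a box -/
structure Root.Good (X : Root) : Prop where
  hDa : D < X.a
  hDb : D < X.b
  ha4 : X.a + X.da ≤ 4 * D
  hb4 : X.b + X.db ≤ 4 * D
  hza : X.za = (X.a - D) * ZD
  hzb : X.zb = (X.b - D) * ZD
  hT : D * D < X.T * (X.a - D)
  hU : D * D < X.U * (X.b - D)
  hU1 : X.b * X.b * D < X.U1 * ((X.b - D) * (X.b - D))
  hQ : X.U1 * X.a < X.Q * (X.a - D)
  hda : X.da ≤ D
  hdb : X.db ≤ D
  hrs : RSC X X.rad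

theorem Root.ok_good {X : Root} (h : X.ok = true) : X.Good := by
  unfold Root.ok at h
  simp only [Bool.and_eq_true] at h
  obtain ⟨⟨⟨h1, h2⟩, h3, h4⟩, ⟨⟨h5, h6⟩, h7, h8⟩, ⟨h9, h10⟩, ⟨h11, h12⟩, h13⟩ := h
  refine ⟨by simpa using h1, by simpa using h2, by simpa using h3, by simpa using h4,
    Nat.eq_of_beq_eq_true h5, Nat.eq_of_beq_eq_true h6, by simpa using h7, by simpa using h8,
    by simpa using h9, by simpa using h10, Nat.le_of_ble_eq_true h11,
    Nat.le_of_ble_eq_true h12, ?_⟩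
  rcases hL : X.rad with _ | ⟨r, t⟩
  · exact trivial
  · rw [hL] at h13
    exact RSC.of t r h13

end Pool.Agent.Helper65.Conn
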