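import Pool.Agent.Helper65.Conn.ModelC

/-!
# Affine models: induction along a word
-/

namespace Pool.Agent.Helper65.Conn

attribute [local irreducible] D Z ZD

/-- `w'` is `w` with one more digit -/
def Nxt (w w' : Wd) : Prop := w' = .m w ∨ w' = .o w ∨ w' = .p w

theorem Nxt.rsE {X : Root} {w w' : Wd} (h : Nxt w w') : rs X w' = (rs X w).tail := by
  rcases h with rfl | rfl | rfl <;> rfl

theorem Nxt.ywE {w w' : Wd} (h : Nxt w w') : ∃ d : ℝ, (d = -1 ∨ d = 0 ∨ d = 1) ∧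
    (∀ β, yw β w' = β * yw β w - d) ∧
    (∀ X : Root, |zz (nx X (st X w)).cv| ≤ Z / 4 →
      zz (st X w').cv = zz (nx X (st X w)).cv - d * D) ∧
    (∀ a z : ℕ, |zz (mulO (yv a z w) a z)| ≤ Z / 4 →
      zz (yv a z w') = zz (mulO (yv a z w) a z) - d * D) := by
  rcases h with rfl | rfl | rfl
  · refine ⟨-1, Or.inl rfl, fun β => by show β * _ + 1 = _; ring, fun X _ => ?_, fun a z _ => ?_⟩
    · show zz (Nat.add (nx X (st X w)).cv D) = _
      rw [zz_addD]; ring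
    · show zz (Nat.add (mulO (yv a z w) a z) D) = _
      rw [zz_addD]; ring
  · refine ⟨0, Or.inr (Or.inl rfl), fun β => by show β * _ = _; ring, fun X _ => ?_,
      fun a z _ => ?_⟩
    · show zz (nx X (st X w)).cv = _
      ring
    · show zz (mulO (yv a z w) a z) = _
      ring
  · refine ⟨1, Or.inr (Or.inr rfl), fun β => rfl, fun X h => ?_, fun a z h => ?_⟩
    · show zz (Nat.sub (nx X (st X w)).cv D) = _
      rw [zz_subD h]; ring
    · show zz (Nat.sub (mulO (yv a z w) a z) D) = _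
      rw [zz_subD h]; ring

theorem Nxt.stE {X : Root} {w w' : Wd} (h : Nxt w w') :
    (st X w').mv = (nx X (st X w)).mv ∧ (st X w').cu = (nx X (st X w)).cu ∧
    (st X w').mu = (nx X (st X w)).mu ∧ (st X w').cq = (nx X (st X w)).cq ∧
    (st X w').mq = (nx X (st X w)).mq ∧ (st X w').nq = (nx X (st X w)).nq := by
  rcases h with rfl | rfl | rfl <;> exact ⟨rfl, rfl, rfl, rfl, rfl, rfl⟩

theorem Nxt.uwE {w w' : Wd} (h : Nxt w w') (β : ℝ) :
    uw β w' = β * (uw β w - β * yw β w) := by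
  rcases h with rfl | rfl | rfl <;> rfl

theorem Nxt.qwE {w w' : Wd} (h : Nxt w w') (α β : ℝ) :
    qw α β w' = α * (qw α β w - uw β w') := by
  rcases h with rfl | rfl | rfl <;> rfl

/-- affine model of `v` -/
structure VI (X : Root) (β : ℝ) (w : Wd) (r : Rad) : Prop where
  hm : |zz (st X w).mv| ≤ r.Mv
  hv : |D * yw β w - (zz (st X w).cv + zz (st X w).mv * (β * D - X.b) / D)| ≤ r.rv

/-- real facts about a box -/
theorem Root.Good.real {X : Root} (G : X.Good) :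
    (D : ℝ) ≤ X.b ∧ (D : ℝ) ≤ X.a ∧ (X.b : ℝ) + X.db ≤ 4 * D ∧ (X.a : ℝ) + X.da ≤ 4 * D ∧
    (X.db : ℝ) ≤ D ∧ (X.da : ℝ) ≤ D ∧ (0 : ℝ) ≤ X.db ∧ (0 : ℝ) ≤ X.da := by
  refine ⟨by exact_mod_cast G.hDb.le, by exact_mod_cast G.hDa.le, by exact_mod_cast G.hb4,
    by exact_mod_cast G.ha4, by exact_mod_cast G.hdb, by exact_mod_cast G.hda,
    Nat.cast_nonneg _, Nat.cast_nonneg _⟩

theorem ge_self {b x D : ℝ} (hD : 0 < D) (hb : D ≤ b) (hx : 0 ≤ x) : x ≤ b * x / D := by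
  rw [le_div_iff₀ hD]; nlinarith

/-- consequences of the sum bound -/
theorem RS.small {X : Root} {r r' : Rad} (h : RS X r r') :
    (r'.My : ℝ) ≤ Z / 1024 ∧ (r'.Mv : ℝ) ≤ Z / 1024 ∧ (r'.Mu : ℝ) ≤ Z / 1024 ∧
    (r'.Mq : ℝ) ≤ Z / 1024 ∧ (r'.Nq : ℝ) ≤ Z / 1024 ∧ (r'.ey : ℝ) ≤ Z / 1024 ∧
    (r'.rv : ℝ) ≤ Z / 1024 ∧ (r'.ru : ℝ) ≤ Z / 1024 ∧ (r'.rq : ℝ) ≤ Z / 1024 := by
  have h0 := h.sum
  have a1 : (0 : ℝ) ≤ r'.My := Nat.cast_nonneg _
  have a2 : (0 : ℝ) ≤ r'.Mv := Nat.cast_nonneg _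
  have a3 : (0 : ℝ) ≤ r'.Mu := Nat.cast_nonneg _
  have a4 : (0 : ℝ) ≤ r'.Mq := Nat.cast_nonneg _
  have a5 : (0 : ℝ) ≤ r'.Nq := Nat.cast_nonneg _
  have a6 : (0 : ℝ) ≤ r'.ey := Nat.cast_nonneg _
  have a7 : (0 : ℝ) ≤ r'.rv := Nat.cast_nonneg _
  have a8 : (0 : ℝ) ≤ r'.ru := Nat.cast_nonneg _
  have a9 : (0 : ℝ) ≤ r'.rq := Nat.cast_nonneg _
  refine ⟨by linarith, by linarith, by linarith, by linarith, by linarith, by linarith,
    by linarith, by linarith, by linarith⟩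

theorem mul_db_le {X : Root} (G : X.Good) {m : ℝ} (hm : 0 ≤ m) :
    m * X.db / D + m ≤ ((X.b : ℝ) + X.db) * m / D := by
  obtain ⟨h1, -⟩ := G.real
  have hD := Dpos
  have e : ((X.b : ℝ) + X.db) * m / D = m * X.db / D + X.b * m / D := by ring
  rw [e]
  have := ge_self hD h1 hm
  linarith

theorem VI.magn {X : Root} (G : X.Good) {r r' : Rad} (hs : RS X r r') {β : ℝ} {w : Wd}
    (h : VI X β w r)
    (hc : |zz (st X w).cv| ≤ X.U + (r.Mv : ℝ) * X.db / D + r.rv) :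
    |zz (st X w).cv| ≤ Z / 1024 ∧ |zz (st X w).mv| ≤ Z / 1024 := by
  obtain ⟨-, s2, -⟩ := hs.small
  have h1 := hs.Mv
  have hm0 : (0 : ℝ) ≤ r.Mv := Nat.cast_nonneg _
  have hr0 : (0 : ℝ) ≤ r.rv := Nat.cast_nonneg _
  have hU0 : (0 : ℝ) ≤ X.U := Nat.cast_nonneg _
  have h2 := mul_db_le G hm0
  have h3 := h.hm
  have h4 : (0 : ℝ) ≤ (r.Mv : ℝ) * X.db / D := by
    have := G.real.2.2.2.2.2.2.1
    have := Dpos
    positivity
  constructor <;> linarith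

theorem V_step {X : Root} (G : X.Good) {r r' : Rad} (hs : RS X r r') {β : ℝ}
    (hβ0 : (X.b : ℝ) ≤ β * D) (hβ1 : β * D ≤ X.b + X.db) {w w' : Wd} (hn : Nxt w w')
    (h : VI X β w r)
    (hc : |zz (st X w).cv| ≤ X.U + (r.Mv : ℝ) * X.db / D + r.rv) :
    VI X β w' r' := by
  obtain ⟨b1, -, b4, -, bd, -, bd0, -⟩ := G.real
  have hD := Dpos
  have hZ := Zpos
  have hZb := Z_big
  have hDZ := DZ
  obtain ⟨m1, m2⟩ := h.magn G hs hc
  obtain ⟨s1, s2, s3, s4, s5, s6, s7, s8, s9⟩ := hs.small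
  have hzb := G.hzb
  have hDb : D ≤ X.b := G.hDb.le
  have hb4 : X.b ≤ 4 * D := le_trans (Nat.le_add_right _ _) G.hb4
  have hb0 : (0 : ℝ) ≤ X.b := Nat.cast_nonneg _
  obtain ⟨e1, he1, he1', h1⟩ := mulO_spec hDb hb4 hzb (x := (st X w).cv) (by linarith)
  obtain ⟨e2, he2, he2', h2⟩ := mulO_spec hDb hb4 hzb (x := (st X w).mv) (by linarith)
  have hbD : (X.b : ℝ) / D ≤ 4 := by rw [div_le_iff₀ hD]; linarith
  have hbD0 : 0 ≤ (X.b : ℝ) / D := div_nonneg hb0 hD.le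
  have mag : ∀ x : ℝ, |x| ≤ Z / 1024 → |x * X.b / D| ≤ Z / 256 := by
    intro x hx
    have := abs_mul_le' hx (show |(X.b : ℝ) / D| ≤ 4 by rw [abs_of_nonneg hbD0]; exact hbD)
    have e : x * X.b / D = x * (X.b / D) := by ring
    rw [e]; linarith
  have g1 := abs_le.1 (mag _ m1)
  have g2 := abs_le.1 (mag _ m2)
  have q1 : |zz (mulO (st X w).cv X.b X.zb)| ≤ Z / 128 := by
    rw [h1, abs_le]; constructor <;> linarith
  have q2 : |zz (mulO (st X w).mv X.b X.zb)| ≤ Z / 128 := by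
    rw [h2, abs_le]; constructor <;> linarith
  have hmv : zz (nx X (st X w)).mv = zz (mulO (st X w).mv X.b X.zb) + zz (st X w).cv :=
    zz_addsub (by linarith) (by linarith)
  have hcv : zz (nx X (st X w)).cv = zz (mulO (st X w).cv X.b X.zb) := rfl
  obtain ⟨d, hd, hy, hst, -⟩ := hn.ywE
  have hst' := hst X (by rw [hcv]; linarith)
  obtain ⟨n1, -⟩ := hn.stE (X := X)
  have A := aff1 (D := (D : ℝ)) (β := β) (b := (X.b : ℝ)) (ε := β * D - X.b) (db := (X.db : ℝ))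
    (c := zz (st X w).cv) (m := zz (st X w).mv) (v := yw β w) (R := r.rv) (M := r.Mv)
    (e1 := e1) (e2 := e2) hD (by ring) (by linarith) (by linarith) bd hb0 h.hv h.hm
    he1 he1'.le he2 he2'.le
  constructor
  · rw [n1, hmv, h2]
    have k := hs.Mv
    have k1 : |zz (st X w).mv * X.b / D| ≤ r.Mv * (X.b / D) := by
      have := abs_mul_le' h.hm (show |(X.b : ℝ) / D| ≤ X.b / D by rw [abs_of_nonneg hbD0])
      have e : zz (st X w).mv * X.b / D = zz (st X w).mv * (X.b / D) := by ring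
      rw [e]; exact this
    have k2 : ((X.b : ℝ) + X.db) * r.Mv / D = r.Mv * (X.b / D) + r.Mv * X.db / D := by ring
    rw [k2] at k
    have a1 := abs_le.1 k1
    have a2 := abs_le.1 hc
    rw [abs_le]
    constructor <;> linarith
  · rw [n1, hst', hcv, hy β, hmv, h1, h2]
    have e : (D : ℝ) * (β * yw β w - d) - (zz (st X w).cv * X.b / D - e1 - d * D +
        (zz (st X w).mv * X.b / D - e2 + zz (st X w).cv) * (β * D - X.b) / D) =
        D * (β * yw β w) - ((X.b * zz (st X w).cv / D - e1) +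
          (X.b * zz (st X w).mv / D - e2 + zz (st X w).cv) * (β * D - X.b) / D) := by ring
    rw [e]
    exact A.trans hs.rv

end Pool.Agent.Helper65.Conn
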