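import Pool.Agent.Helper65.Conn.ModelD

/-!
# Affine models of `u` and `q`
-/

namespace Pool.Agent.Helper65.Conn

attribute [local irreducible] D Z ZD

/-- all affine models -/
structure FI (X : Root) (α β : ℝ) (w : Wd) (r : Rad) : Prop extends VI X β w r where
  hMu : |zz (st X w).mu| ≤ r.Mu
  hu : |D * uw β w - (zz (st X w).cu + zz (st X w).mu * (β * D - X.b) / D)| ≤ r.ru
  hMq : |zz (st X w).mq| ≤ r.Mq
  hNq : |zz (st X w).nq| ≤ r.Nq
  hq : |D * qw α β w - (zz (st X w).cq + zz (st X w).mq * (α * D - X.a) / D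
      + zz (st X w).nq * (β * D - X.b) / D)| ≤ r.rq

theorem div_le_self' {x D : ℝ} (hD : 1 ≤ D) (hx : 0 ≤ x) : x / D ≤ x := by
  rw [div_le_iff₀ (by linarith)]; nlinarith

theorem eps_mul {m M ε db D : ℝ} (hD : 0 < D) (hm : |m| ≤ M) (h0 : 0 ≤ ε) (h1 : ε ≤ db) :
    |m * ε / D| ≤ M * db / D := by
  rw [abs_div, abs_of_pos hD]
  apply div_le_div_of_nonneg_right _ hD.le
  exact abs_mul_le' hm (by rw [abs_of_nonneg h0]; exact h1)

theorem one_le_of {β D : ℝ} (hD : 0 < D) (h : D ≤ β * D) : 1 ≤ β := by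
  by_contra hc
  push Not at hc
  nlinarith

theorem cen {V c s R E U : ℝ} (h : |V - (c + s)| ≤ R) (hs : |s| ≤ E) (hV : |V| ≤ U) :
    |c| ≤ U + E + R := by
  rw [abs_le] at *
  constructor <;> linarith

theorem cen2 {V c s t R E F U : ℝ} (h : |V - (c + s + t)| ≤ R) (hs : |s| ≤ E) (ht : |t| ≤ F)
    (hV : |V| ≤ U) : |c| ≤ U + E + F + R := by
  rw [abs_le] at *
  constructor <;> linarith

theorem abs_sub1 {x e X : ℝ} (h : |x| ≤ X) (h0 : 0 ≤ e) (h1 : e < 1) : |x - e| ≤ X + 1 := by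
  rw [abs_le] at *
  constructor <;> linarith

theorem abs_sub2 {x y X Y : ℝ} (h : |x| ≤ X) (h0 : |y| ≤ Y) : |x - y| ≤ X + Y := by
  rw [abs_le] at *
  constructor <;> linarith

theorem abs_add2 {x y X Y : ℝ} (h : |x| ≤ X) (h0 : |y| ≤ Y) : |x + y| ≤ X + Y := by
  rw [abs_le] at *
  constructor <;> linarith

theorem mdiv {x X b B D : ℝ} (hx : |x| ≤ X) (h0 : 0 ≤ b / D) (hb : b / D ≤ B) :
    |x * b / D| ≤ X * B := by
  have e : x * b / D = x * (b / D) := by ring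
  rw [e]
  exact abs_mul_le' hx (by rw [abs_of_nonneg h0]; exact hb)

theorem mdiv' {x X b B D : ℝ} (hx : |x| ≤ X) (h0 : 0 ≤ b / D) (hb : b / D ≤ B) :
    |b * x / D| ≤ X * B := by
  have e : b * x / D = x * b / D := by ring
  rw [e]
  exact mdiv hx h0 hb

theorem F_step {X : Root} (G : X.Good) {r r' : Rad} (hs : RS X r r') {α β : ℝ}
    (hα0 : (X.a : ℝ) ≤ α * D) (hα1 : α * D ≤ X.a + X.da)
    (hβ0 : (X.b : ℝ) ≤ β * D) (hβ1 : β * D ≤ X.b + X.db) {w w' : Wd} (hn : Nxt w w')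
    (h : FI X α β w r)
    (hv : |D * yw β w| ≤ X.U) (hu : |D * uw β w| ≤ X.U1) (hu' : |D * uw β w'| ≤ X.U1)
    (hq : |D * qw α β w| ≤ X.Q) (hq' : |D * qw α β w'| ≤ X.Q) :
    FI X α β w' r' := by
  obtain ⟨b1, a1, b4, a4, bd, ad, bd0, ad0⟩ := G.real
  have hD := Dpos
  have hZ := Zpos
  have hZb := Z_big
  have hDZ := DZ
  have hmv0 : (0 : ℝ) ≤ r.Mv := Nat.cast_nonneg _
  have hmu0 : (0 : ℝ) ≤ r.Mu := Nat.cast_nonneg _
  have hmq0 : (0 : ℝ) ≤ r.Mq := Nat.cast_nonneg _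
  have hnq0 : (0 : ℝ) ≤ r.Nq := Nat.cast_nonneg _
  have hrv0 : (0 : ℝ) ≤ r.rv := Nat.cast_nonneg _
  have hru0 : (0 : ℝ) ≤ r.ru := Nat.cast_nonneg _
  have hrq0 : (0 : ℝ) ≤ r.rq := Nat.cast_nonneg _
  have hmu0' : (0 : ℝ) ≤ r'.Mu := Nat.cast_nonneg _
  have hru0' : (0 : ℝ) ≤ r'.ru := Nat.cast_nonneg _
  have hU0 : (0 : ℝ) ≤ X.U := Nat.cast_nonneg _
  have hU10 : (0 : ℝ) ≤ X.U1 := Nat.cast_nonneg _
  have hQ0 : (0 : ℝ) ≤ X.Q := Nat.cast_nonneg _
  have hb0 : (0 : ℝ) ≤ X.b := Nat.cast_nonneg _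
  have ha0 : (0 : ℝ) ≤ X.a := Nat.cast_nonneg _
  have hε0 : 0 ≤ β * D - X.b := by linarith
  have hε1 : β * D - X.b ≤ X.db := by linarith
  have hδ0 : 0 ≤ α * D - X.a := by linarith
  have hδ1 : α * D - X.a ≤ X.da := by linarith
  -- the centre of v
  have hcv : |zz (st X w).cv| ≤ X.U + (r.Mv : ℝ) * X.db / D + r.rv := by
    exact cen h.hv (eps_mul hD h.hm hε0 hε1) hv
  have hV := V_step G hs hβ0 hβ1 hn h.toVI hcv
  obtain ⟨m1, m2⟩ := h.toVI.magn G hs hcv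
  obtain ⟨s1, s2, s3, s4, s5, s6, s7, s8, s9⟩ := hs.small
  have hzb := G.hzb
  have hza := G.hza
  have hDb : D ≤ X.b := G.hDb.le
  have hDa : D ≤ X.a := G.hDa.le
  have hb4 : X.b ≤ 4 * D := le_trans (Nat.le_add_right _ _) G.hb4
  have ha4 : X.a ≤ 4 * D := le_trans (Nat.le_add_right _ _) G.ha4
  have hbD : (X.b : ℝ) / D ≤ 4 := by rw [div_le_iff₀ hD]; linarith
  have hbD0 : 0 ≤ (X.b : ℝ) / D := div_nonneg hb0 hD.le
  have haD : (X.a : ℝ) / D ≤ 4 := by rw [div_le_iff₀ hD]; linarith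
  have haD0 : 0 ≤ (X.a : ℝ) / D := div_nonneg ha0 hD.le
  -- v parts
  obtain ⟨e1, he1, he1', h1⟩ := mulO_spec hDb hb4 hzb (x := (st X w).cv) (by linarith)
  obtain ⟨e2, he2, he2', h2⟩ := mulO_spec hDb hb4 hzb (x := (st X w).mv) (by linarith)
  have g1 := mdiv m1 hbD0 hbD
  have g2 := mdiv m2 hbD0 hbD
  set V0 := mulO (st X w).cv X.b X.zb with hV0
  set MV0 := mulO (st X w).mv X.b X.zb with hMV0
  have q1 : |zz V0| ≤ Z / 240 := by
    rw [h1]; have := abs_sub1 g1 he1 he1'; linarith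
  have q2 : |zz MV0| ≤ Z / 240 := by
    rw [h2]; have := abs_sub1 g2 he2 he2'; linarith
  -- radii of u
  obtain ⟨rt, Mt, R1, R2, R3, R4⟩ := hs.ru
  have hrt0 : 0 ≤ rt := by
    have t1 : (0 : ℝ) ≤ ((X.b : ℝ) + X.db) * r.rv / D := by positivity
    have t2 : (0 : ℝ) ≤ (r.Mv : ℝ) * X.db / D * X.db / D := by positivity
    linarith
  have hMt0 : 0 ≤ Mt := by
    have t1 : (0 : ℝ) ≤ ((X.b : ℝ) + X.db) * r.Mv / D := by positivity
    linarith
  have hbt : Mt ≤ ((X.b : ℝ) + X.db) * Mt / D :=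
    ge_self hD (by linarith) hMt0
  have hrvb : (r.rv : ℝ) ≤ ((X.b : ℝ) + X.db) * r.rv / D := ge_self hD (by linarith) hrv0
  have hMub : (r.Mu : ℝ) ≤ Z / 1024 := by
    have t1 : (0 : ℝ) ≤ ((X.b : ℝ) + X.db) * r.Mv / D := by positivity
    linarith
  have hrtb : rt ≤ Z / 1024 := by linarith
  have hrub : (r.ru : ℝ) ≤ Z / 1024 := by
    have t1 : (0 : ℝ) ≤ ((X.b : ℝ) + X.db) * r.rv / D := by positivity
    have t2 : (0 : ℝ) ≤ (r.Mv : ℝ) * X.db / D * X.db / D := by positivity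
    linarith
  have hU1b : (X.U1 : ℝ) ≤ Z / 1024 := by linarith
  have hmu : |zz (st X w).mu| ≤ Z / 1024 := h.hMu.trans hMub
  have hdbD : (X.db : ℝ) / D ≤ 1 := by rw [div_le_one hD]; exact bd
  have hdaD : (X.da : ℝ) / D ≤ 1 := by rw [div_le_one hD]; exact ad
  have hcu : |zz (st X w).cu| ≤ Z / 256 := by
    have k3 : (r.Mu : ℝ) * X.db / D ≤ r.Mu := by
      have e : (r.Mu : ℝ) * X.db / D = r.Mu * (X.db / D) := by ring
      rw [e]; exact mul_le_of_le_one_right hmu0 hdbD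
    have := cen h.hu (eps_mul hD h.hMu hε0 hε1) hu
    linarith
  -- W
  have hW : zz (Nat.sub (Nat.add (st X w).cu Z) V0) = zz (st X w).cu - zz V0 :=
    zz_sub (by linarith) (by linarith)
  set W := Nat.sub (Nat.add (st X w).cu Z) V0 with hWdef
  have hWb : |zz W| ≤ Z / 120 := by
    rw [hW]
    have := abs_sub (zz (st X w).cu) (zz V0)
    linarith
  have hMT : zz (Nat.sub (Nat.sub (Nat.add (st X w).mu (Nat.add Z Z)) (st X w).cv) MV0) =
      zz (st X w).mu - zz (st X w).cv - zz MV0 := zz_sub3 (by linarith) (by linarith) (by linarith)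
  set MT := Nat.sub (Nat.sub (Nat.add (st X w).mu (Nat.add Z Z)) (st X w).cv) MV0 with hMTdef
  have hMTb : |zz MT| ≤ Mt := by
    rw [hMT]
    have k1 : |zz MV0| ≤ r.Mv * (X.b / D) + 1 := by
      rw [h2]
      exact abs_sub1 (mdiv h.hm hbD0 le_rfl) he2 he2'
    have k2 : ((X.b : ℝ) + X.db) * r.Mv / D = r.Mv * (X.b / D) + r.Mv * X.db / D := by ring
    rw [k2] at R2
    have := abs_sub2 (abs_sub2 h.hMu hcv) k1
    linarith
  have hMTz : |zz MT| ≤ Z / 120 := by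
    rw [hMT]
    have k1 := abs_sub (zz (st X w).mu - zz (st X w).cv) (zz MV0)
    have k2 := abs_sub (zz (st X w).mu) (zz (st X w).cv)
    linarith
  obtain ⟨e3, he3, he3', h3⟩ := mulO_spec hDb hb4 hzb (x := W) (by linarith)
  obtain ⟨e4, he4, he4', h4⟩ := mulO_spec hDb hb4 hzb (x := MT) (by linarith)
  have g3 := mdiv hWb hbD0 hbD
  have g4 := mdiv hMTz hbD0 hbD
  set cu' := mulO W X.b X.zb with hcu'
  have q3 : |zz cu'| ≤ Z / 20 := by
    rw [h3]; have := abs_sub1 g3 he3 he3'; linarith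
  have q4 : |zz (mulO MT X.b X.zb)| ≤ Z / 20 := by
    rw [h4]; have := abs_sub1 g4 he4 he4'; linarith
  have hmu' : zz (Nat.sub (Nat.add W (mulO MT X.b X.zb)) Z) = zz W + zz (mulO MT X.b X.zb) :=
    zz_addsub (by linarith) (by linarith)
  set mu' := Nat.sub (Nat.add W (mulO MT X.b X.zb)) Z with hmudef
  -- model of t = u - β v
  have A1 := aff1 (D := (D : ℝ)) (β := β) (b := (X.b : ℝ)) (ε := β * D - X.b) (db := (X.db : ℝ))
    (c := zz (st X w).cv) (m := zz (st X w).mv) (v := yw β w) (R := r.rv) (M := r.Mv)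
    (e1 := e1) (e2 := e2) hD (by ring) hε0 hε1 bd hb0 h.hv h.hm he1 he1'.le he2 he2'.le
  have hT : |D * (uw β w - β * yw β w) - (zz W + zz MT * (β * D - X.b) / D)| ≤ rt := by
    have e : (D : ℝ) * (uw β w - β * yw β w) - (zz W + zz MT * (β * D - X.b) / D) =
      (D * uw β w - (zz (st X w).cu + zz (st X w).mu * (β * D - X.b) / D)) -
      (D * (β * yw β w) - ((X.b * zz (st X w).cv / D - e1) +
          (X.b * zz (st X w).mv / D - e2 + zz (st X w).cv) * (β * D - X.b) / D)) := by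
      rw [hW, hMT, h1, h2]; ring
    rw [e]
    have := abs_sub (D * uw β w - (zz (st X w).cu + zz (st X w).mu * (β * D - X.b) / D))
      (D * (β * yw β w) - ((X.b * zz (st X w).cv / D - e1) +
          (X.b * zz (st X w).mv / D - e2 + zz (st X w).cv) * (β * D - X.b) / D))
    have hu1 := h.hu
    linarith
  have A2 := aff1 (D := (D : ℝ)) (β := β) (b := (X.b : ℝ)) (ε := β * D - X.b) (db := (X.db : ℝ))
    (c := zz W) (m := zz MT) (v := uw β w - β * yw β w) (R := rt) (M := Mt)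
    (e1 := e3) (e2 := e4) hD (by ring) hε0 hε1 bd hb0 hT hMTb he3 he3'.le he4 he4'.le
  obtain ⟨n1, n2, n3, n4, n5, n6⟩ := hn.stE (X := X)
  have hcuE : zz (st X w').cu = X.b * zz W / D - e3 := by
    rw [n2]; show zz cu' = _; rw [h3]; ring
  have hmuE : zz (st X w').mu = X.b * zz MT / D - e4 + zz W := by
    rw [n3]; show zz mu' = _; rw [hmu', h4]; ring
  have hβpos : 1 ≤ β := one_le_of hD (by linarith)
  have hu2 : |D * uw β w' - (zz (st X w').cu + zz (st X w').mu * (β * D - X.b) / D)| ≤ r'.ru := by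
    rw [hcuE, hmuE, hn.uwE]
    exact A2.trans R3
  have hDt : |D * (uw β w - β * yw β w)| ≤ X.U1 := by
    have e : (D : ℝ) * uw β w' = β * (D * (uw β w - β * yw β w)) := by rw [hn.uwE]; ring
    rw [e, abs_mul, abs_of_pos (by linarith : (0 : ℝ) < β)] at hu'
    have h9 := abs_nonneg (D * (uw β w - β * yw β w))
    exact (le_mul_of_one_le_left h9 hβpos).trans hu'
  have hMu2 : |zz (st X w').mu| ≤ r'.Mu := by
    rw [hmuE]
    have k1 : |zz W| ≤ X.U1 + Mt * X.db / D + rt := cen hT (eps_mul hD hMTb hε0 hε1) hDt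
    have k3 : |X.b * zz MT / D| ≤ Mt * (X.b / D) := mdiv' hMTb hbD0 le_rfl
    have k4 : ((X.b : ℝ) + X.db) * Mt / D = Mt * (X.b / D) + Mt * X.db / D := by ring
    rw [k4] at R4
    have := abs_add2 (abs_sub1 k3 he4 he4') k1
    linarith
  -- q
  have haq : (r.Mq : ℝ) ≤ ((X.a : ℝ) + X.da) * r.Mq / D := ge_self hD (by linarith) hmq0
  have hMqb : (r.Mq : ℝ) ≤ Z / 1024 := by
    have t1 : (0 : ℝ) ≤ ((r.Nq : ℝ) + r'.Mu) * X.db / D := by positivity
    have := hs.Mq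
    linarith
  have hQb : (X.Q : ℝ) ≤ Z / 1024 := by
    have t1 : (0 : ℝ) ≤ ((r.Nq : ℝ) + r'.Mu) * X.db / D := by positivity
    have := hs.Mq
    linarith
  have hrqb : (r.rq : ℝ) ≤ Z / 1024 := by
    have t1 : (0 : ℝ) ≤ ((r.Nq : ℝ) + r'.Mu) * X.db / D := by positivity
    have := hs.Mq
    linarith
  have hNqb : (r.Nq : ℝ) ≤ Z / 1024 := by
    have t1 := ge_self hD (show (D : ℝ) ≤ X.a + X.da by linarith)
      (show (0 : ℝ) ≤ (r.Nq : ℝ) + r'.Mu by positivity)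
    have := hs.Nq
    linarith
  have hmq : |zz (st X w).mq| ≤ Z / 1024 := h.hMq.trans hMqb
  have hnq : |zz (st X w).nq| ≤ Z / 1024 := h.hNq.trans hNqb
  have hcq : |zz (st X w).cq| ≤ Z / 200 := by
    have k3 : (r.Mq : ℝ) * X.da / D ≤ r.Mq := by
      have e : (r.Mq : ℝ) * X.da / D = r.Mq * (X.da / D) := by ring
      rw [e]; exact mul_le_of_le_one_right hmq0 hdaD
    have k4 : (r.Nq : ℝ) * X.db / D ≤ r.Nq := by
      have e : (r.Nq : ℝ) * X.db / D = r.Nq * (X.db / D) := by ring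
      rw [e]; exact mul_le_of_le_one_right hnq0 hdbD
    have := cen2 h.hq (eps_mul hD h.hMq hδ0 hδ1) (eps_mul hD h.hNq hε0 hε1) hq
    linarith
  have hmub' : |zz mu'| ≤ Z / 1024 := by
    have : zz (st X w').mu = zz mu' := by rw [n3]; rfl
    rw [this] at hMu2
    linarith
  have hWQ : zz (Nat.sub (Nat.add (st X w).cq Z) cu') = zz (st X w).cq - zz cu' :=
    zz_sub (by linarith) (by linarith)
  set WQ := Nat.sub (Nat.add (st X w).cq Z) cu' with hWQdef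
  have hWQb : |zz WQ| ≤ Z / 16 := by
    rw [hWQ]
    have := abs_sub (zz (st X w).cq) (zz cu')
    linarith
  have hN : zz (Nat.sub (Nat.add (st X w).nq Z) mu') = zz (st X w).nq - zz mu' :=
    zz_sub (by linarith) (by linarith)
  set NN := Nat.sub (Nat.add (st X w).nq Z) mu' with hNdef
  have hNb : |zz NN| ≤ (r.Nq : ℝ) + r'.Mu := by
    rw [hN]
    have := abs_sub (zz (st X w).nq) (zz mu')
    have h5 : zz (st X w').mu = zz mu' := by rw [n3]; rfl
    have h6 := h.hNq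
    rw [h5] at hMu2
    linarith
  obtain ⟨e5, he5, he5', h5⟩ := mulO_spec hDa ha4 hza (x := WQ) (by linarith)
  obtain ⟨e6, he6, he6', h6⟩ := mulO_spec hDa ha4 hza (x := (st X w).mq) (by linarith)
  obtain ⟨e7, he7, he7', h7⟩ := mulO_spec hDa ha4 hza (x := NN) (by linarith)
  have q6 : |zz (mulO (st X w).mq X.a X.za)| ≤ Z / 20 := by
    rw [h6]; have := abs_sub1 (mdiv hmq haD0 haD) he6 he6'; linarith
  have hmqE : zz (st X w').mq = zz WQ + (X.a * zz (st X w).mq / D - e6) := by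
    rw [n5]
    show zz (Nat.sub (Nat.add WQ (mulO (st X w).mq X.a X.za)) Z) = _
    rw [zz_addsub (by linarith) (by linarith), h6]; ring
  have hcqE : zz (st X w').cq = X.a * zz WQ / D - e5 := by
    rw [n4]; show zz (mulO WQ X.a X.za) = _; rw [h5]; ring
  have hnqE : zz (st X w').nq = X.a * zz NN / D - e7 := by
    rw [n6]; show zz (mulO NN X.a X.za) = _; rw [h7]; ring
  have hcu2 : zz (st X w').cu = zz cu' := by rw [n2]; rfl
  have hmu2 : zz (st X w').mu = zz mu' := by rw [n3]; rfl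
  have hWm : |D * (qw α β w - uw β w') - (zz WQ + zz (st X w).mq * (α * D - X.a) / D
      + zz NN * (β * D - X.b) / D)| ≤ (r.rq : ℝ) + r'.ru := by
    have e : (D : ℝ) * (qw α β w - uw β w') - (zz WQ + zz (st X w).mq * (α * D - X.a) / D
      + zz NN * (β * D - X.b) / D) =
      (D * qw α β w - (zz (st X w).cq + zz (st X w).mq * (α * D - X.a) / D
      + zz (st X w).nq * (β * D - X.b) / D)) -
      (D * uw β w' - (zz (st X w').cu + zz (st X w').mu * (β * D - X.b) / D)) := by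
      rw [hWQ, hN, hcu2, hmu2]; ring
    rw [e]
    have := abs_sub (D * qw α β w - (zz (st X w).cq + zz (st X w).mq * (α * D - X.a) / D
      + zz (st X w).nq * (β * D - X.b) / D))
      (D * uw β w' - (zz (st X w').cu + zz (st X w').mu * (β * D - X.b) / D))
    have := h.hq
    linarith
  have A3 := aff2 (D := (D : ℝ)) (α := α) (a := (X.a : ℝ)) (δ := α * D - X.a)
    (da := (X.da : ℝ)) (ε := β * D - X.b) (db := (X.db : ℝ))
    (c := zz WQ) (m := zz (st X w).mq) (n := zz NN) (v := qw α β w - uw β w')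
    (R := (r.rq : ℝ) + r'.ru) (M := r.Mq) (N := (r.Nq : ℝ) + r'.Mu)
    (e1 := e5) (e2 := e6) (e3 := e7) hD (by ring) hδ0 hδ1 ad hε0 hε1 bd ha0 hWm h.hMq hNb
    he5 he5'.le he6 he6'.le he7 he7'.le
  have hαpos : 1 ≤ α := one_le_of hD (by linarith)
  have hDw : |D * (qw α β w - uw β w')| ≤ X.Q := by
    have e : (D : ℝ) * qw α β w' = α * (D * (qw α β w - uw β w')) := by rw [hn.qwE]; ring
    rw [e, abs_mul, abs_of_pos (by linarith : (0 : ℝ) < α)] at hq'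
    have h9 := abs_nonneg (D * (qw α β w - uw β w'))
    exact (le_mul_of_one_le_left h9 hαpos).trans hq'
  refine ⟨hV, hMu2, hu2, ?_, ?_, ?_⟩
  · rw [hmqE]
    have k1 : |zz WQ| ≤ X.Q + (r.Mq : ℝ) * X.da / D + ((r.Nq : ℝ) + r'.Mu) * X.db / D
        + ((r.rq : ℝ) + r'.ru) :=
      cen2 hWm (eps_mul hD h.hMq hδ0 hδ1) (eps_mul hD hNb hε0 hε1) hDw
    have k3 : |X.a * zz (st X w).mq / D| ≤ r.Mq * (X.a / D) := mdiv' h.hMq haD0 le_rfl
    have k4 : ((X.a : ℝ) + X.da) * r.Mq / D = r.Mq * (X.a / D) + r.Mq * X.da / D := by ring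
    have k5 := hs.Mq
    rw [k4] at k5
    have := abs_add2 k1 (abs_sub1 k3 he6 he6')
    linarith
  · rw [hnqE]
    have k3 : |X.a * zz NN / D| ≤ ((r.Nq : ℝ) + r'.Mu) * (X.a / D) := mdiv' hNb haD0 le_rfl
    have k4 : ((X.a : ℝ) + X.da) * ((r.Nq : ℝ) + r'.Mu) / D =
      ((r.Nq : ℝ) + r'.Mu) * (X.a / D) + ((r.Nq : ℝ) + r'.Mu) * X.da / D := by ring
    have k5 := hs.Nq
    rw [k4] at k5
    have k6 : 0 ≤ ((r.Nq : ℝ) + r'.Mu) * X.da / D := by positivity
    have := abs_sub1 k3 he7 he7'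
    linarith
  · rw [hcqE, hmqE, hnqE, hn.qwE]
    refine A3.trans ?_
    exact hs.rq

end Pool.Agent.Helper65.Conn
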