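import Pool.Agent.Helper65.Conn.ModelE

/-!
# The state `y` as a function of the parameter
-/

namespace Pool.Agent.Helper65.Conn

attribute [local irreducible] D Z ZD

/-- the parameter `α` belongs to the range of the box -/
def Root.InA (X : Root) (α : ℝ) : Prop := (X.a : ℝ) ≤ α * D ∧ α * D ≤ X.a + X.da

/-- facts about `y` -/
structure YI (X : Root) (w : Wd) (r : Rad) : Prop where
  lip : ∀ α α' : ℝ, X.InA α → X.InA α' → D * |yw α w - yw α' w| ≤ r.My * |α - α'|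
  itp : ∀ α₁ α₂ t : ℝ, X.InA α₁ → X.InA α₂ → α₁ ≤ α₂ → 0 ≤ t → t ≤ 1 →
    D * |yw ((1 - t) * α₁ + t * α₂) w - ((1 - t) * yw α₁ w + t * yw α₂ w)| ≤
      r.ky * (t * (1 - t)) * (α₂ - α₁) ^ 2
  rnd : ∀ a₁ : ℕ, X.a ≤ a₁ → a₁ ≤ X.a + X.da →
    |zz (yva a₁ w) - D * yw ((a₁ : ℝ) / D) w| ≤ r.ey

theorem yva_eq (a : ℕ) (w : Wd) : yva a w = yv a (Nat.mul (Nat.sub a D) ZD) w := by
  unfold yva; rw [force_eq]

theorem InA_cvx {X : Root} {α₁ α₂ t : ℝ} (h1 : X.InA α₁) (h2 : X.InA α₂) (t0 : 0 ≤ t)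
    (t1 : t ≤ 1) : X.InA ((1 - t) * α₁ + t * α₂) := by
  obtain ⟨a1, a2⟩ := h1
  obtain ⟨b1, b2⟩ := h2
  have e : ((1 - t) * α₁ + t * α₂) * D = (1 - t) * (α₁ * D) + t * (α₂ * D) := by ring
  have h0 : 0 ≤ 1 - t := by linarith
  constructor
  · rw [e]; nlinarith
  · rw [e]; nlinarith

theorem InA_dist {X : Root} {α₁ α₂ : ℝ} (h1 : X.InA α₁) (h2 : X.InA α₂) :
    |α₁ - α₂| ≤ X.da / D := by
  obtain ⟨a1, a2⟩ := h1
  obtain ⟨b1, b2⟩ := h2
  have hD := Dpos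
  rw [abs_le]
  constructor
  · rw [neg_le_iff_add_nonneg, ← sub_nonneg]
    have : 0 ≤ (α₁ - α₂) * D + X.da := by linarith
    have e : α₁ - α₂ + X.da / D - 0 = ((α₁ - α₂) * D + X.da) / D := by field_simp; ring
    rw [e]; exact div_nonneg this hD.le
  · rw [le_div_iff₀ hD]; linarith

theorem YI_e {X : Root} (r : Rad) : YI X .e r := by
  have h0 : (0 : ℝ) ≤ r.My := Nat.cast_nonneg _
  have h1 : (0 : ℝ) ≤ r.ky := Nat.cast_nonneg _
  have h2 : (0 : ℝ) ≤ r.ey := Nat.cast_nonneg _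
  refine ⟨fun α α' _ _ => ?_, fun α₁ α₂ t _ _ _ t0 t1 => ?_, fun a₁ _ _ => ?_⟩
  · show D * |(-1 : ℝ) - -1| ≤ _
    simp only [sub_self, abs_zero, mul_zero]
    positivity
  · show D * |(-1 : ℝ) - ((1 - t) * -1 + t * -1)| ≤ _
    have e : (-1 : ℝ) - ((1 - t) * -1 + t * -1) = 0 := by ring
    rw [e, abs_zero, mul_zero]
    have : 0 ≤ 1 - t := by linarith
    positivity
  · rw [yva_eq]
    show |zz (Nat.sub Z D) - D * (-1)| ≤ _
    have hz : |zz Z| ≤ Z / 4 := by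
      unfold zz
      rw [sub_self, abs_zero]
      have := Zpos
      positivity
    rw [zz_subD hz]
    have : zz Z = 0 := by unfold zz; ring
    rw [this]
    have e : (0 : ℝ) - D - D * -1 = 0 := by ring
    rw [e, abs_zero]; exact h2

theorem Y_step {X : Root} (G : X.Good) {r r' : Rad} (hs : RS X r r') {w w' : Wd} (hn : Nxt w w')
    (h : YI X w r) (hT : ∃ α₀, X.InA α₀ ∧ |D * yw α₀ w| ≤ X.T) : YI X w' r' := by
  obtain ⟨b1, a1, b4, a4, bd, ad, bd0, ad0⟩ := G.real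
  obtain ⟨α₀, hα₀, hT0⟩ := hT
  have hD := Dpos
  have hZ := Zpos
  have hZb := Z_big
  have hDZ := DZ
  have hMy0 : (0 : ℝ) ≤ r.My := Nat.cast_nonneg _
  have hky0 : (0 : ℝ) ≤ r.ky := Nat.cast_nonneg _
  have hey0 : (0 : ℝ) ≤ r.ey := Nat.cast_nonneg _
  have hT0' : (0 : ℝ) ≤ X.T := Nat.cast_nonneg _
  have ha0 : (0 : ℝ) ≤ X.a := Nat.cast_nonneg _
  have hsup : ∀ α, X.InA α → |D * yw α w| ≤ X.T + (r.My : ℝ) * X.da / D := by
    intro α hα
    have k1 := h.lip α α₀ hα hα₀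
    have k2 := InA_dist hα hα₀
    have k3 : (r.My : ℝ) * |α - α₀| ≤ r.My * (X.da / D) := mul_le_mul_of_nonneg_left k2 hMy0
    have e : (D : ℝ) * yw α w = D * (yw α w - yw α₀ w) + D * yw α₀ w := by ring
    rw [e]
    have k4 := abs_add_le (D * (yw α w - yw α₀ w)) (D * yw α₀ w)
    rw [abs_mul (D : ℝ) (yw α w - yw α₀ w), abs_of_pos hD] at k4
    have e2 : (r.My : ℝ) * X.da / D = r.My * (X.da / D) := by ring
    rw [e2]; linarith
  obtain ⟨d, hd, hy, -, hyv⟩ := hn.ywE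
  have hA : ∀ α, X.InA α → 0 ≤ α ∧ α ≤ ((X.a : ℝ) + X.da) / D := by
    intro α hα
    constructor
    · have : 0 ≤ α * D := by linarith [hα.1]
      exact nonneg_of_mul_nonneg_left this hD
    · rw [le_div_iff₀ hD]; exact hα.2
  refine ⟨fun α α' hα hα' => ?_, fun α₁ α₂ t h1 h2 h12 t0 t1 => ?_, fun a₁ g1 g2 => ?_⟩
  · rw [hy, hy]
    have e : α * yw α w - d - (α' * yw α' w - d) = α * (yw α w - yw α' w) +
      (α - α') * yw α' w := by ring
    rw [e]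
    obtain ⟨p0, p1⟩ := hA α hα
    have k1 := abs_add_le (α * (yw α w - yw α' w)) ((α - α') * yw α' w)
    rw [abs_mul, abs_mul, abs_of_nonneg p0] at k1
    have k2 := hsup α' hα'
    rw [abs_mul, abs_of_pos hD] at k2
    have k3 := h.lip α α' hα hα'
    have k4 : α * (D * |yw α w - yw α' w|) ≤ ((X.a : ℝ) + X.da) / D * (r.My * |α - α'|) :=
      mul_le_mul p1 k3 (by positivity) (p0.trans p1)
    have k5 : |α - α'| * (D * |yw α' w|) ≤ |α - α'| * (X.T + (r.My : ℝ) * X.da / D) :=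
      mul_le_mul_of_nonneg_left k2 (abs_nonneg _)
    have k6 := hs.My
    have k7 : (((X.a : ℝ) + X.da) * r.My / D + (X.T + (r.My : ℝ) * X.da / D) + 1) * |α - α'| ≤
      r'.My * |α - α'| := mul_le_mul_of_nonneg_right k6 (abs_nonneg _)
    have k8 : D * (|α * (yw α w - yw α' w) + (α - α') * yw α' w|) ≤
      D * (α * |yw α w - yw α' w| + |α - α'| * |yw α' w|) :=
      mul_le_mul_of_nonneg_left k1 hD.le
    have e3 : D * (α * |yw α w - yw α' w| + |α - α'| * |yw α' w|) =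
      α * (D * |yw α w - yw α' w|) + |α - α'| * (D * |yw α' w|) := by ring
    have e4 : (((X.a : ℝ) + X.da) * r.My / D + (X.T + (r.My : ℝ) * X.da / D) + 1) * |α - α'| =
      ((X.a : ℝ) + X.da) / D * (r.My * |α - α'|) + |α - α'| * (X.T + (r.My : ℝ) * X.da / D) +
      |α - α'| := by ring
    have := abs_nonneg (α - α')
    linarith
  · set α := (1 - t) * α₁ + t * α₂ with hαdef
    have hαin : X.InA α := InA_cvx h1 h2 t0 t1
    rw [hy, hy, hy]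
    have e : α * yw α w - d - ((1 - t) * (α₁ * yw α₁ w - d) + t * (α₂ * yw α₂ w - d)) =
      α * (yw α w - ((1 - t) * yw α₁ w + t * yw α₂ w)) +
      -(t * (1 - t) * ((α₂ - α₁) * (yw α₂ w - yw α₁ w))) := by
      rw [hαdef]; ring
    rw [e]
    obtain ⟨p0, p1⟩ := hA α hαin
    have s0 : 0 ≤ t * (1 - t) := mul_nonneg t0 (by linarith)
    have w0 : 0 ≤ α₂ - α₁ := by linarith
    have k1 := abs_add_le (α * (yw α w - ((1 - t) * yw α₁ w + t * yw α₂ w)))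
      (-(t * (1 - t) * ((α₂ - α₁) * (yw α₂ w - yw α₁ w))))
    rw [abs_mul α, abs_of_nonneg p0, abs_neg, abs_mul (t * (1 - t)), abs_of_nonneg s0, abs_mul (α₂ - α₁),
      abs_of_nonneg w0] at k1
    have k2 := h.itp α₁ α₂ t h1 h2 h12 t0 t1
    rw [← hαdef] at k2
    have k3 := h.lip α₂ α₁ h2 h1
    rw [abs_of_nonneg w0] at k3
    have k4 : α * (D * |yw α w - ((1 - t) * yw α₁ w + t * yw α₂ w)|) ≤
      ((X.a : ℝ) + X.da) / D * (r.ky * (t * (1 - t)) * (α₂ - α₁) ^ 2) :=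
      mul_le_mul p1 k2 (by positivity) (p0.trans p1)
    have k5 : t * (1 - t) * ((α₂ - α₁) * (D * |yw α₂ w - yw α₁ w|)) ≤
      t * (1 - t) * ((α₂ - α₁) * (r.My * (α₂ - α₁))) := by gcongr
    have k8 := mul_le_mul_of_nonneg_left k1 hD.le
    have k9 : (((X.a : ℝ) + X.da) * r.ky / D + r.My) * (t * (1 - t) * (α₂ - α₁) ^ 2) ≤
      r'.ky * (t * (1 - t) * (α₂ - α₁) ^ 2) :=
      mul_le_mul_of_nonneg_right hs.ky (by positivity)
    calc _ ≤ _ := k8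
      _ = α * (D * |yw α w - ((1 - t) * yw α₁ w + t * yw α₂ w)|) +
          t * (1 - t) * ((α₂ - α₁) * (D * |yw α₂ w - yw α₁ w|)) := by ring
      _ ≤ ((X.a : ℝ) + X.da) / D * (r.ky * (t * (1 - t)) * (α₂ - α₁) ^ 2) +
          t * (1 - t) * ((α₂ - α₁) * (r.My * (α₂ - α₁))) := add_le_add k4 k5
      _ = (((X.a : ℝ) + X.da) * r.ky / D + r.My) * (t * (1 - t) * (α₂ - α₁) ^ 2) := by ring
      _ ≤ _ := k9
      _ = _ := by ring
  · have hin : X.InA ((a₁ : ℝ) / D) := by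
      have e : (a₁ : ℝ) / D * D = a₁ := div_mul_cancel₀ _ hD.ne'
      constructor
      · rw [e]; exact_mod_cast g1
      · rw [e]; exact_mod_cast g2
    have k0 := h.rnd a₁ g1 g2
    have k1 := hsup _ hin
    obtain ⟨s1, s2, s3, s4, s5, s6, s7, s8, s9⟩ := hs.small
    have hDa1 : D ≤ a₁ := G.hDa.le.trans g1
    have ha14 : a₁ ≤ 4 * D := g2.trans G.ha4
    have hMy := hs.My
    have hey := hs.ey
    have haM : (0 : ℝ) ≤ ((X.a : ℝ) + X.da) * r.My / D := by positivity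
    have haE : (r.ey : ℝ) ≤ ((X.a : ℝ) + X.da) * r.ey / D := ge_self hD (by linarith) hey0
    rw [yva_eq] at k0 ⊢
    set z := Nat.mul (Nat.sub a₁ D) ZD with hz
    have m1 : |zz (yv a₁ z w)| ≤ Z / 256 := by
      have e : zz (yv a₁ z w) = (zz (yv a₁ z w) - D * yw ((a₁ : ℝ) / D) w) +
        D * yw ((a₁ : ℝ) / D) w := by ring
      rw [e]
      have := abs_add2 k0 k1
      linarith
    obtain ⟨e1, he1, he1', h1⟩ := mulO_spec hDa1 ha14 (z := z) rfl (x := yv a₁ z w) (by linarith)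
    have ha1D : (a₁ : ℝ) / D ≤ 4 := by
      rw [div_le_iff₀ hD]; exact_mod_cast ha14
    have ha1D0 : (0 : ℝ) ≤ (a₁ : ℝ) / D := div_nonneg (Nat.cast_nonneg _) hD.le
    have m2 := abs_sub1 (mdiv m1 ha1D0 ha1D) he1 he1'
    have h2 := hyv a₁ z (by rw [h1]; linarith)
    rw [h2, hy, h1]
    have e : zz (yv a₁ z w) * a₁ / D - e1 - d * D - D * ((a₁ : ℝ) / D * yw ((a₁ : ℝ) / D) w - d) =
      (zz (yv a₁ z w) - D * yw ((a₁ : ℝ) / D) w) * a₁ / D - e1 := by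
      field_simp; ring
    rw [e]
    have a1le : (a₁ : ℝ) / D ≤ ((X.a : ℝ) + X.da) / D := by
      apply div_le_div_of_nonneg_right _ hD.le
      exact_mod_cast g2
    have k5 := abs_sub1 (mdiv k0 ha1D0 a1le) he1 he1'
    have e5 : (r.ey : ℝ) * (((X.a : ℝ) + X.da) / D) = ((X.a : ℝ) + X.da) * r.ey / D := by ring
    rw [e5] at k5
    linarith

/-- the interval of `y` -/
theorem YI.range {X : Root} (G : X.Good) {w : Wd} {r : Rad} (h : YI X w r) {a₁ a₂ : ℕ}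
    (g1 : X.a ≤ a₁) (g12 : a₁ ≤ a₂) (g2 : a₂ ≤ X.a + X.da) {α : ℝ} (h1 : (a₁ : ℝ) ≤ α * D)
    (h2 : α * D ≤ a₂) :
    min (zz (yva a₁ w)) (zz (yva a₂ w)) - (erry r a₁ a₂ : ℝ) ≤ D * yw α w ∧
    D * yw α w ≤ max (zz (yva a₁ w)) (zz (yva a₂ w)) + (erry r a₁ a₂ : ℝ) := by
  have hD := Dpos
  obtain ⟨b1, a1, b4, a4, bd, ad, bd0, ad0⟩ := G.real
  have hky0 : (0 : ℝ) ≤ r.ky := Nat.cast_nonneg _
  have hin1 : X.InA ((a₁ : ℝ) / D) := by
    have e : (a₁ : ℝ) / D * D = a₁ := div_mul_cancel₀ _ hD.ne'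
    constructor
    · rw [e]; exact_mod_cast g1
    · rw [e]; exact_mod_cast g12.trans g2
  have hin2 : X.InA ((a₂ : ℝ) / D) := by
    have e : (a₂ : ℝ) / D * D = a₂ := div_mul_cancel₀ _ hD.ne'
    constructor
    · rw [e]; exact_mod_cast g1.trans g12
    · rw [e]; exact_mod_cast g2
  -- error bound
  have hw : ((Nat.sub a₂ a₁ : ℕ) : ℝ) = (a₂ : ℝ) - a₁ := by
    show ((a₂ - a₁ : ℕ) : ℝ) = _
    rw [Nat.cast_sub g12]
  have hwD : (a₂ : ℝ) - a₁ ≤ D := by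
    have k1 : (a₂ : ℝ) ≤ X.a + X.da := by exact_mod_cast g2
    have k2 : (X.a : ℝ) ≤ a₁ := by exact_mod_cast g1
    linarith
  have hw0 : 0 ≤ (a₂ : ℝ) - a₁ := by
    have : (a₁ : ℝ) ≤ a₂ := by exact_mod_cast g12
    linarith
  have herr : (r.ey : ℝ) + r.ky * (((a₂ : ℝ) - a₁) / D) ^ 2 / 4 ≤ (erry r a₁ a₂ : ℝ) := by
    have k1 := divmul_le r.ky (Nat.sub a₂ a₁)
    rw [hw] at k1
    have e4 : (4503599627370496 : ℕ) = 4 * D := by unfold D; norm_num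
    have k2 : ((Nat.mul (Nat.div (Nat.mul r.ky (Nat.sub a₂ a₁)) D) (Nat.sub a₂ a₁) : ℕ) : ℝ)
        / (4 * D) - 1 ≤ ((Nat.div (Nat.mul (Nat.div (Nat.mul r.ky (Nat.sub a₂ a₁)) D)
          (Nat.sub a₂ a₁)) 4503599627370496 : ℕ) : ℝ) := by
      rw [e4]
      have h4 : 0 < 4 * D := by
        have : 0 < D := by exact_mod_cast hD
        omega
      set N := Nat.mul (Nat.div (Nat.mul r.ky (Nat.sub a₂ a₁)) D) (Nat.sub a₂ a₁)
      have h5 : N < (N / (4 * D) + 1) * (4 * D) := by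
        have h6 := Nat.div_add_mod N (4 * D)
        have h7 := Nat.mod_lt N h4
        have h8 : (N / (4 * D) + 1) * (4 * D) = 4 * D * (N / (4 * D)) + 4 * D := by ring
        rw [h8]
        omega
      have h9 : (N : ℝ) < ((N / (4 * D) : ℕ) + 1) * (4 * D) := by exact_mod_cast h5
      have h10 : (0 : ℝ) < 4 * D := by linarith
      show (N : ℝ) / (4 * D) - 1 ≤ ((N / (4 * D) : ℕ) : ℝ)
      rw [sub_le_iff_le_add, div_le_iff₀ h10]
      exact h9.le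
    rw [cmul, hw] at k2
    have k3 : ((r.ky : ℝ) * ((a₂ : ℝ) - a₁) / D - 1) * ((a₂ : ℝ) - a₁) / (4 * D) ≤
      ((Nat.div (Nat.mul r.ky (Nat.sub a₂ a₁)) D : ℕ) : ℝ) * ((a₂ : ℝ) - a₁) / (4 * D) := by
      apply div_le_div_of_nonneg_right _ (by linarith)
      exact mul_le_mul_of_nonneg_right k1 hw0
    have k4 : ((a₂ : ℝ) - a₁) / (4 * D) ≤ 1 / 4 := by
      rw [div_le_iff₀ (by linarith)]; linarith
    have e1 : ((r.ky : ℝ) * ((a₂ : ℝ) - a₁) / D - 1) * ((a₂ : ℝ) - a₁) / (4 * D) =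
      r.ky * (((a₂ : ℝ) - a₁) / D) ^ 2 / 4 - ((a₂ : ℝ) - a₁) / (4 * D) := by
      field_simp
    rw [e1] at k3
    unfold erry
    rw [cadd, cadd]
    push_cast
    linarith
  obtain ⟨t, t0, t1, ht⟩ : ∃ t : ℝ, 0 ≤ t ∧ t ≤ 1 ∧
      α = (1 - t) * ((a₁ : ℝ) / D) + t * ((a₂ : ℝ) / D) := by
    rcases hw0.eq_or_lt with h0 | h0
    · refine ⟨0, le_rfl, zero_le_one, ?_⟩
      have : α * D = a₁ := by linarith
      rw [← this]; field_simp; ring
    · refine ⟨(α * D - a₁) / ((a₂ : ℝ) - a₁), div_nonneg (by linarith) hw0, ?_, ?_⟩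
      · rw [div_le_one h0]; linarith
      · have h0' := h0.ne'
        field_simp
        ring
  have k1 := h.itp ((a₁ : ℝ) / D) ((a₂ : ℝ) / D) t hin1 hin2
    (div_le_div_of_nonneg_right (by exact_mod_cast g12) hD.le) t0 t1
  rw [← ht] at k1
  have k2 := h.rnd a₁ g1 (g12.trans g2)
  have k3 := h.rnd a₂ (g1.trans g12) g2
  have e2 : ((a₂ : ℝ) / D - (a₁ : ℝ) / D) ^ 2 = (((a₂ : ℝ) - a₁) / D) ^ 2 := by ring
  rw [e2] at k1
  have k4 : (r.ky : ℝ) * (t * (1 - t)) * (((a₂ : ℝ) - a₁) / D) ^ 2 ≤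
      r.ky * (((a₂ : ℝ) - a₁) / D) ^ 2 / 4 := by
    have s : t * (1 - t) ≤ 1 / 4 := by nlinarith [sq_nonneg (t - 1 / 2)]
    have := mul_le_mul_of_nonneg_left s (show 0 ≤ (r.ky : ℝ) * (((a₂ : ℝ) - a₁) / D) ^ 2 by positivity)
    calc _ = (r.ky : ℝ) * (((a₂ : ℝ) - a₁) / D) ^ 2 * (t * (1 - t)) := by ring
      _ ≤ _ := this
      _ = _ := by ring
  have k5 : |D * (yw α w - ((1 - t) * yw ((a₁ : ℝ) / D) w + t * yw ((a₂ : ℝ) / D) w))| ≤
      r.ky * (((a₂ : ℝ) - a₁) / D) ^ 2 / 4 := by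
    rw [abs_mul, abs_of_pos hD]; exact k1.trans k4
  set y1 := yw ((a₁ : ℝ) / D) w
  set y2 := yw ((a₂ : ℝ) / D) w
  set z1 := zz (yva a₁ w)
  set z2 := zz (yva a₂ w)
  rw [abs_le] at k2 k3 k5
  have s0 : 0 ≤ 1 - t := by linarith
  have m1 : min z1 z2 ≤ z1 := min_le_left _ _
  have m2 : min z1 z2 ≤ z2 := min_le_right _ _
  have m3 : z1 ≤ max z1 z2 := le_max_left _ _
  have m4 : z2 ≤ max z1 z2 := le_max_right _ _
  have e6 : (D : ℝ) * yw α w = D * (yw α w - ((1 - t) * y1 + t * y2)) +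
    ((1 - t) * (D * y1) + t * (D * y2)) := by ring
  constructor
  · have p1 : (1 - t) * (min z1 z2 - r.ey) ≤ (1 - t) * (D * y1) :=
      mul_le_mul_of_nonneg_left (by linarith) s0
    have p2 : t * (min z1 z2 - r.ey) ≤ t * (D * y2) :=
      mul_le_mul_of_nonneg_left (by linarith) t0
    have e7 : (1 - t) * (min z1 z2 - r.ey) + t * (min z1 z2 - r.ey) = min z1 z2 - r.ey := by ring
    linarith
  · have p1 : (1 - t) * (D * y1) ≤ (1 - t) * (max z1 z2 + r.ey) :=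
      mul_le_mul_of_nonneg_left (by linarith) s0
    have p2 : t * (D * y2) ≤ t * (max z1 z2 + r.ey) :=
      mul_le_mul_of_nonneg_left (by linarith) t0
    have e7 : (1 - t) * (max z1 z2 + r.ey) + t * (max z1 z2 + r.ey) = max z1 z2 + r.ey := by ring
    linarith

end Pool.Agent.Helper65.Conn
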