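import Pool.Agent.Helper65.Conn.ModelF

/-!
# Invariants along a word
-/

namespace Pool.Agent.Helper65.Conn

open Pool.Agent.Iso

attribute [local irreducible] D Z ZD

theorem rad_all {X : Root} (G : X.Good) (w : Wd) : RSC X (rs X w) := by
  induction w with
  | e => exact G.hrs
  | m w ih => exact ih.tail
  | o w ih => exact ih.tail
  | p w ih => exact ih.tail

theorem rs_prev {X : Root} (G : X.Good) {w w' : Wd} (hn : Nxt w w') {r' : Rad} {t' : List Rad}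
    (h : rs X w' = r' :: t') : ∃ r t, rs X w = r :: t ∧ RS X r r' := by
  rw [hn.rsE] at h
  rcases hr : rs X w with _ | ⟨r0, t0⟩
  · rw [hr] at h; exact absurd h (by simp)
  · rw [hr] at h
    simp only [List.tail_cons] at h
    refine ⟨r0, t0, rfl, ?_⟩
    have := rad_all G w
    rw [hr, h] at this
    exact this.1

theorem zz_Z : zz Z = 0 := by unfold zz; ring

theorem zz_ZsubD : zz (Nat.sub Z D) = -(D : ℝ) := by
  have hz : |zz Z| ≤ Z / 4 := by
    rw [zz_Z, abs_zero]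
    have := Zpos
    positivity
  rw [zz_subD hz, zz_Z]; ring

theorem VI_e {X : Root} (β : ℝ) (r : Rad) : VI X β .e r := by
  have h1 : (0 : ℝ) ≤ r.Mv := Nat.cast_nonneg _
  have h2 : (0 : ℝ) ≤ r.rv := Nat.cast_nonneg _
  constructor
  · show |zz Z| ≤ _
    rw [zz_Z, abs_zero]; exact h1
  · show |(D : ℝ) * (-1) - (zz (Nat.sub Z D) + zz Z * (β * D - X.b) / D)| ≤ _
    rw [zz_Z, zz_ZsubD]
    have e : (D : ℝ) * (-1) - (-(D : ℝ) + 0 * (β * D - X.b) / D) = 0 := by ring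
    rw [e, abs_zero]; exact h2

theorem FI_e {X : Root} (α β : ℝ) (r : Rad) : FI X α β .e r := by
  have h1 : (0 : ℝ) ≤ r.Mu := Nat.cast_nonneg _
  have h2 : (0 : ℝ) ≤ r.ru := Nat.cast_nonneg _
  have h3 : (0 : ℝ) ≤ r.Mq := Nat.cast_nonneg _
  have h4 : (0 : ℝ) ≤ r.Nq := Nat.cast_nonneg _
  have h5 : (0 : ℝ) ≤ r.rq := Nat.cast_nonneg _
  refine ⟨VI_e β r, ?_, ?_, ?_, ?_, ?_⟩
  · show |zz Z| ≤ _
    rw [zz_Z, abs_zero]; exact h1
  · show |(D : ℝ) * 0 - (zz Z + zz Z * (β * D - X.b) / D)| ≤ _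
    rw [zz_Z]
    have e : (D : ℝ) * 0 - (0 + 0 * (β * D - X.b) / D) = 0 := by ring
    rw [e, abs_zero]; exact h2
  · show |zz Z| ≤ _
    rw [zz_Z, abs_zero]; exact h3
  · show |zz Z| ≤ _
    rw [zz_Z, abs_zero]; exact h4
  · show |(D : ℝ) * 0 - (zz Z + zz Z * (α * D - X.a) / D + zz Z * (β * D - X.b) / D)| ≤ _
    rw [zz_Z]
    have e : (D : ℝ) * 0 - (0 + 0 * (α * D - X.a) / D + 0 * (β * D - X.b) / D) = 0 := by ring
    rw [e, abs_zero]; exact h5

/-- the data of a coefficient sequence with a simple zero `1 / α` and a double zero `1 / β` -/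
structure Sq (a : ℕ → ℝ) (α β : ℝ) : Prop where
  ha : IsB a
  ha1 : 1 < α
  hb1 : 1 < β
  hne : α ≠ β
  h1 : ev a (1 / α) = 0
  h2 : ev a (1 / β) = 0
  h3 : dv a (1 / β) = 0

theorem nxt_wd (a : ℕ → ℝ) (n : ℕ) : Nxt (wd a n) (wd a (n + 1)) := by
  show Nxt (wd a n) (dg (a (n + 1)) (wd a n))
  unfold dg Nxt
  split_ifs <;> simp

section
variable {X : Root} {a : ℕ → ℝ} {α β : ℝ}

theorem Root.In.gt (G : X.Good) (hp : X.In α β) : 1 < α ∧ 1 < β := by
  have hD := Dpos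
  have h1 : (D : ℝ) < X.a := by exact_mod_cast G.hDa
  have h2 : (D : ℝ) < X.b := by exact_mod_cast G.hDb
  obtain ⟨p1, p2, p3, p4⟩ := hp
  constructor
  · by_contra hc
    have := mul_le_mul_of_nonneg_right (not_lt.1 hc) hD.le
    linarith
  · by_contra hc
    have := mul_le_mul_of_nonneg_right (not_lt.1 hc) hD.le
    linarith

theorem tl_bound {x b T : ℝ} (hx : 1 < x) (hb : b ≤ x * D) (hb1 : (D : ℝ) < b)
    (hT : (D : ℝ) * D ≤ T * (b - D)) {s : ℝ} (hs : |s| ≤ (1 / x) / (1 - 1 / x)) :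
    |D * s| ≤ T := by
  have hD := Dpos
  have hx0 : 0 < x := by linarith
  have e : (1 / x) / (1 - 1 / x) = 1 / (x - 1) := by
    have : x - 1 ≠ 0 := by linarith
    have : 1 - 1 / x ≠ 0 := by
      have : 1 / x < 1 := by rw [div_lt_one hx0]; exact hx
      linarith
    field_simp
  rw [e] at hs
  rw [abs_mul, abs_of_pos hD]
  have h1 : 0 < x - 1 := by linarith
  have hT0 : 0 ≤ T := by
    by_contra hc
    push Not at hc
    have h3 : T * (b - D) < 0 := mul_neg_of_neg_of_pos hc (by linarith)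
    have h4 : 0 < (D : ℝ) * D := mul_pos hD hD
    linarith
  have h2 : (D : ℝ) * |s| ≤ D * (1 / (x - 1)) := mul_le_mul_of_nonneg_left hs hD.le
  refine h2.trans ?_
  rw [mul_one_div, div_le_iff₀ h1]
  have h5 : T * (b - D) ≤ T * ((x - 1) * D) := mul_le_mul_of_nonneg_left (by linarith) hT0
  have h6 : (D : ℝ) * D ≤ (T * (x - 1)) * D := by linarith
  exact le_of_mul_le_mul_right h6 hD

theorem Sq.by (G : X.Good) (hp : X.In α β) (h : Sq a α β) (n : ℕ) :
    |D * yw α (wd a n)| ≤ X.T := by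
  have hg0 : 0 < 1 / α := by have := h.ha1; positivity
  have hg1 : 1 / α < 1 := by rw [div_lt_one (by linarith [h.ha1])]; exact h.ha1
  have e := yw_wd h.ha hg0 hg1 h.h1 n
  rw [one_div_one_div] at e
  rw [e]
  have hT : (D : ℝ) * D ≤ X.T * ((X.a : ℝ) - D) := by
    have := G.hT
    have h2 : ((D * D : ℕ) : ℝ) < ((X.T * (X.a - D) : ℕ) : ℝ) := by exact_mod_cast this
    rw [Nat.cast_mul, Nat.cast_mul, Nat.cast_sub G.hDa.le] at h2
    exact h2.le
  exact tl_bound h.ha1 hp.1 (by exact_mod_cast G.hDa) hT (tl_abs h.ha hg0 hg1 n)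

theorem Sq.bv (G : X.Good) (hp : X.In α β) (h : Sq a α β) (n : ℕ) :
    |D * yw β (wd a n)| ≤ X.U := by
  have hg0 : 0 < 1 / β := by have := h.hb1; positivity
  have hg1 : 1 / β < 1 := by rw [div_lt_one (by linarith [h.hb1])]; exact h.hb1
  have e := yw_wd h.ha hg0 hg1 h.h2 n
  rw [one_div_one_div] at e
  rw [e]
  have hT : (D : ℝ) * D ≤ X.U * ((X.b : ℝ) - D) := by
    have := G.hU
    have h2 : ((D * D : ℕ) : ℝ) < ((X.U * (X.b - D) : ℕ) : ℝ) := by exact_mod_cast this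
    rw [Nat.cast_mul, Nat.cast_mul, Nat.cast_sub G.hDb.le] at h2
    exact h2.le
  exact tl_bound h.hb1 hp.2.2.1 (by exact_mod_cast G.hDb) hT (tl_abs h.ha hg0 hg1 n)

theorem U1_bd (G : X.Good) (hp : X.In α β) : (D : ℝ) * (1 / (1 - 1 / β) ^ 2) ≤ X.U1 := by
  have hD := Dpos
  obtain ⟨-, hb⟩ := Root.In.gt G hp
  have h0 : 0 < β - 1 := by linarith
  have hβ0 : 0 < β := by linarith
  have hne : β - 1 ≠ 0 := h0.ne'
  have hne2 : 1 - 1 / β ≠ 0 := by
    have : 1 / β < 1 := by rw [div_lt_one hβ0]; exact hb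
    linarith
  have e : 1 / (1 - 1 / β) ^ 2 = (β / (β - 1)) ^ 2 := by
    field_simp
  rw [e]
  have hU1 : (X.b : ℝ) * X.b * D ≤ X.U1 * (((X.b : ℝ) - D) * ((X.b : ℝ) - D)) := by
    have := G.hU1
    have h2 : ((X.b * X.b * D : ℕ) : ℝ) < ((X.U1 * ((X.b - D) * (X.b - D)) : ℕ) : ℝ) := by
      exact_mod_cast this
    rw [Nat.cast_mul, Nat.cast_mul, Nat.cast_mul, Nat.cast_mul, Nat.cast_sub G.hDb.le] at h2
    exact h2.le
  have hbD : (D : ℝ) < X.b := by exact_mod_cast G.hDb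
  have hb0 : 0 < (X.b : ℝ) - D := by linarith
  have hle : β / (β - 1) ≤ X.b / ((X.b : ℝ) - D) := by
    rw [div_le_div_iff₀ h0 hb0]
    have := hp.2.2.1
    nlinarith
  have hsq : (β / (β - 1)) ^ 2 ≤ (X.b / ((X.b : ℝ) - D)) ^ 2 := by
    have h1 : 0 ≤ β / (β - 1) := by positivity
    gcongr
  have h3 : (D : ℝ) * (β / (β - 1)) ^ 2 ≤ D * (X.b / ((X.b : ℝ) - D)) ^ 2 :=
    mul_le_mul_of_nonneg_left hsq hD.le
  refine h3.trans ?_
  rw [div_pow, mul_div_assoc', div_le_iff₀ (by positivity)]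
  linarith

theorem Sq.bu (G : X.Good) (hp : X.In α β) (h : Sq a α β) (n : ℕ) :
    |D * uw β (wd a n)| ≤ X.U1 := by
  have hD := Dpos
  have hg0 : 0 < 1 / β := by have := h.hb1; positivity
  have hg1 : 1 / β < 1 := by rw [div_lt_one (by linarith [h.hb1])]; exact h.hb1
  have e := uw_wd h.ha hg0 hg1 h.h2 h.h3 n
  rw [one_div_one_div] at e
  rw [e, abs_mul, abs_of_pos hD]
  have h1 := dl_abs h.ha hg0 hg1 n
  exact (mul_le_mul_of_nonneg_left h1 hD.le).trans (U1_bd G hp)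

theorem Sq.bq (G : X.Good) (hp : X.In α β) (h : Sq a α β) (n : ℕ) :
    |D * qw α β (wd a n)| ≤ X.Q := by
  have hD := Dpos
  have hb0 : 0 < 1 / β := by have := h.hb1; positivity
  have hb1 : 1 / β < 1 := by rw [div_lt_one (by linarith [h.hb1])]; exact h.hb1
  have hg0 : 0 < 1 / α := by have := h.ha1; positivity
  have hg1 : 1 / α < 1 := by rw [div_lt_one (by linarith [h.ha1])]; exact h.ha1
  have hne : 1 / α ≠ 1 / β := by
    intro he
    apply h.hne
    have := congrArg (fun t => 1 / t) he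
    simpa using this
  have e := qw_bd h.ha hg0 hg1 hb0 hb1 hne h.h1 h.h2 h.h3 n
  rw [one_div_one_div, one_div_one_div] at e
  rw [abs_mul, abs_of_pos hD]
  refine (mul_le_mul_of_nonneg_left e hD.le).trans ?_
  have h1 := U1_bd G hp
  have h0 : 0 < 1 - 1 / α := by linarith
  rw [mul_div_assoc', div_le_iff₀ h0]
  refine h1.trans ?_
  have hQ : (X.U1 : ℝ) * X.a ≤ X.Q * ((X.a : ℝ) - D) := by
    have := G.hQ
    have h2 : ((X.U1 * X.a : ℕ) : ℝ) < ((X.Q * (X.a - D) : ℕ) : ℝ) := by exact_mod_cast this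
    rw [Nat.cast_mul, Nat.cast_mul, Nat.cast_sub G.hDa.le] at h2
    exact h2.le
  have ha0 : (D : ℝ) < X.a := by exact_mod_cast G.hDa
  have ha00 : (0 : ℝ) < X.a := by linarith
  -- U1 ≤ Q (1 - D / a) ≤ Q (1 - 1 / α)
  have h3 : 1 - (D : ℝ) / X.a ≤ 1 - 1 / α := by
    have : 1 / α ≤ (D : ℝ) / X.a := by
      rw [div_le_div_iff₀ (by linarith [h.ha1]) ha00]
      have := hp.1
      linarith
    linarith
  have hQ0 : (0 : ℝ) ≤ X.Q := Nat.cast_nonneg _
  refine le_trans ?_ (mul_le_mul_of_nonneg_left h3 hQ0)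
  have e2 : (X.Q : ℝ) * (1 - (D : ℝ) / X.a) = X.Q * ((X.a : ℝ) - D) / X.a := by
    field_simp
  rw [e2, le_div_iff₀ ha00]
  exact hQ

/-- all invariants along the words of a coefficient sequence -/
theorem Sq.inv (G : X.Good) (hp : X.In α β) (h : Sq a α β) (n : ℕ) :
    ∀ r t, rs X (wd a n) = r :: t → FI X α β (wd a n) r ∧ YI X (wd a n) r := by
  induction n with
  | zero => exact fun r t _ => ⟨FI_e α β r, YI_e r⟩
  | succ n ih =>
    intro r' t' hr
    obtain ⟨r, t, e, hs⟩ := rs_prev G (nxt_wd a n) hr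
    obtain ⟨hF, hY⟩ := ih r t e
    refine ⟨?_, ?_⟩
    · exact F_step G hs hp.1 hp.2.1 hp.2.2.1 hp.2.2.2 (nxt_wd a n) hF (h.bv G hp n)
        (h.bu G hp n) (h.bu G hp (n + 1)) (h.bq G hp n) (h.bq G hp (n + 1))
    · exact Y_step G hs (nxt_wd a n) hY ⟨α, ⟨hp.1, hp.2.1⟩, h.by G hp n⟩

end

end Pool.Agent.Helper65.Conn
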