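import Pool.Agent.Helper65.Conn.ModelG
import Pool.Agent.Helper31.ISO.KSound

/-!
# Paths, membership in the invariant set
-/

namespace Pool.Agent.Helper65.Conn

open Pool.Agent.Iso

attribute [local irreducible] D Z ZD

theorem good1_spec {X : Root} {a1 : ℕ} {w : Wd} {r : Rad} {t : List Rad} (hr : rs X w = r :: t)
    (h : good1 X a1 w = true) : |zz (yva a1 w)| + r.ey ≤ X.T ∧ |zz (st X w).cv| ≤ X.U := by
  unfold good1 at h
  rw [hr] at h
  simp only [Bool.and_eq_true] at h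
  obtain ⟨⟨h1, h2⟩, h3, h4⟩ := h
  have g1 := ble_R h1
  have g2 := ble_R h2
  have g3 := ble_R h3
  have g4 := ble_R h4
  simp only [cadd] at g1 g2 g3 g4
  constructor
  · have h5 : |zz (yva a1 w)| ≤ X.T - r.ey := by
      unfold zz
      rw [abs_le]
      constructor <;> linarith
    linarith
  · unfold zz
    rw [abs_le]
    constructor <;> linarith

theorem path_inv {X : Root} (G : X.Good) {β : ℝ} (hβ0 : (X.b : ℝ) ≤ β * D)
    (hβ1 : β * D ≤ X.b + X.db) {a1 : ℕ} (g1 : X.a ≤ a1) (g2 : a1 ≤ X.a + X.da) (w : Wd) :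
    good X a1 w = true → ∀ r t, rs X w = r :: t → VI X β w r ∧ YI X w r := by
  have step : ∀ w w' : Wd, Nxt w w' → (good X a1 w' = (good1 X a1 w && good X a1 w)) →
      (good X a1 w = true → ∀ r t, rs X w = r :: t → VI X β w r ∧ YI X w r) →
      good X a1 w' = true → ∀ r t, rs X w' = r :: t → VI X β w' r ∧ YI X w' r := by
    intro w w' hn hg ih h r' t' hr
    rw [hg, Bool.and_eq_true] at h
    obtain ⟨r, t, e, hs⟩ := rs_prev G hn hr
    obtain ⟨hV, hY⟩ := ih h.2 r t e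
    obtain ⟨k1, k2⟩ := good1_spec e h.1
    have hD := Dpos
    constructor
    · apply V_step G hs hβ0 hβ1 hn hV
      have q1 : (0 : ℝ) ≤ (r.Mv : ℝ) * X.db / D := by
        have : (0 : ℝ) ≤ (r.Mv : ℝ) := Nat.cast_nonneg _
        have : (0 : ℝ) ≤ (X.db : ℝ) := Nat.cast_nonneg _
        positivity
      have q2 : (0 : ℝ) ≤ (r.rv : ℝ) := Nat.cast_nonneg _
      linarith
    · apply Y_step G hs hn hY
      refine ⟨(a1 : ℝ) / D, ?_, ?_⟩
      · have e : (a1 : ℝ) / D * D = a1 := div_mul_cancel₀ _ hD.ne'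
        constructor
        · rw [e]; exact_mod_cast g1
        · rw [e]; exact_mod_cast g2
      · have q := hY.rnd a1 g1 g2
        have e : (D : ℝ) * yw ((a1 : ℝ) / D) w = zz (yva a1 w) -
          (zz (yva a1 w) - D * yw ((a1 : ℝ) / D) w) := by ring
        rw [e]
        have := abs_sub (zz (yva a1 w)) (zz (yva a1 w) - D * yw ((a1 : ℝ) / D) w)
        linarith
  induction w with
  | e => exact fun _ r t _ => ⟨VI_e β r, YI_e r⟩
  | m w ih => exact step w _ (Or.inl rfl) rfl ih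
  | o w ih => exact step w _ (Or.inr (Or.inl rfl)) rfl ih
  | p w ih => exact step w _ (Or.inr (Or.inr rfl)) rfl ih

theorem blocks_spec {K : KD} : ∀ k, blocks K k = true → ∀ i, i < k →
    gd K.Gb (i / K.bs) ≤ gd K.G i := by
  intro k
  induction k with
  | zero => intro _ i hi; omega
  | succ k ih =>
    intro h i hi
    have e : blocks K (k + 1) = (Nat.ble (gd K.Gb (Nat.div k K.bs)) (gd K.G k) && blocks K k) := rfl
    rw [e, Bool.and_eq_true] at h
    rcases Nat.lt_succ_iff_lt_or_eq.1 hi with hlt | rfl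
    · exact ih h.2 i hlt
    · exact Nat.le_of_ble_eq_true h.1

theorem nmax_eq (a b : ℕ) : nmax a b = max a b := by
  unfold nmax
  by_cases h : a ≤ b
  · rw [Nat.ble_eq_true_of_le h, max_eq_right h]; rfl
  · have : Nat.ble a b = false := by
      rcases h2 : Nat.ble a b with _ | _
      · rfl
      · exact absurd (Nat.le_of_ble_eq_true h2) h
    rw [this, max_eq_left (by omega)]; rfl

/-- lower bound of a term `m * ε / D` with floors -/
theorem lin_lo {m ε : ℝ} {P N e1 e2 : ℕ} (hm : m = (P : ℝ) - N) (h1 : (e1 : ℝ) ≤ ε)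
    (h2 : ε ≤ e2) :
    ((Nat.div (Nat.mul (Nat.sub P N) e1) D : ℕ) : ℝ) -
      ((Nat.div (Nat.mul (Nat.sub N P) e2) D : ℕ) : ℝ) - 1 ≤ m * ε / D := by
  have hD := Dpos
  have a1 := divN_le (Nat.mul (Nat.sub P N) e1)
  have a2 := divN_le (Nat.mul (Nat.sub N P) e2)
  have a3 := le_divN (Nat.mul (Nat.sub N P) e2)
  have a4 := le_divN (Nat.mul (Nat.sub P N) e1)
  rw [cmul] at a1 a2 a3 a4
  have he0 : (0 : ℝ) ≤ e1 := Nat.cast_nonneg _
  rcases le_total N P with h | h
  · have e3 : ((Nat.sub P N : ℕ) : ℝ) = (P : ℝ) - N := by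
      show ((P - N : ℕ) : ℝ) = _
      rw [Nat.cast_sub h]
    have e4 : ((Nat.sub N P : ℕ) : ℝ) = 0 := by
      show ((N - P : ℕ) : ℝ) = _
      rw [Nat.sub_eq_zero_of_le h]; simp
    rw [e3, ← hm] at a1
    rw [e4] at a3
    have hm0 : 0 ≤ m := by
      rw [hm]
      have : (N : ℝ) ≤ P := by exact_mod_cast h
      linarith
    have k : m * e1 / D ≤ m * ε / D := by gcongr
    have k2 : (0 : ℝ) * e2 / D = 0 := by ring
    have := Nat.cast_nonneg (α := ℝ) (Nat.div (Nat.mul (Nat.sub N P) e2) D)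
    linarith
  · have e3 : ((Nat.sub P N : ℕ) : ℝ) = 0 := by
      show ((P - N : ℕ) : ℝ) = _
      rw [Nat.sub_eq_zero_of_le h]; simp
    have e4 : ((Nat.sub N P : ℕ) : ℝ) = (N : ℝ) - P := by
      show ((N - P : ℕ) : ℝ) = _
      rw [Nat.cast_sub h]
    rw [e3] at a1
    rw [e4] at a3
    have hm0 : 0 ≤ -m := by
      rw [hm]
      have : (P : ℝ) ≤ N := by exact_mod_cast h
      linarith
    have e5 : (N : ℝ) - P = -m := by rw [hm]; ring
    rw [e5] at a3
    have k : -m * ε / D ≤ -m * e2 / D := by gcongr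
    have k2 : (0 : ℝ) * e1 / D = 0 := by ring
    have k3 : m * ε / D = -(-m * ε / D) := by ring
    rw [k3]
    linarith

theorem lin_hi {m ε : ℝ} {P N e1 e2 : ℕ} (hm : m = (P : ℝ) - N) (h1 : (e1 : ℝ) ≤ ε)
    (h2 : ε ≤ e2) :
    m * ε / D ≤ ((Nat.div (Nat.mul (Nat.sub P N) e2) D : ℕ) : ℝ) -
      ((Nat.div (Nat.mul (Nat.sub N P) e1) D : ℕ) : ℝ) + 1 := by
  have := lin_lo (m := -m) (ε := ε) (P := N) (N := P) (by rw [hm]; ring) h1 h2
  have e : -m * ε / D = -(m * ε / D) := by ring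
  rw [e] at this
  linarith

theorem zz_min (a b : ℕ) : min (zz a) (zz b) = zz (min a b) := by
  unfold zz
  rcases le_total a b with h | h
  · rw [min_eq_left h, min_eq_left]
    have : (a : ℝ) ≤ b := by exact_mod_cast h
    linarith
  · rw [min_eq_right h, min_eq_right]
    have : (b : ℝ) ≤ a := by exact_mod_cast h
    linarith

theorem zz_max (a b : ℕ) : max (zz a) (zz b) = zz (max a b) := by
  unfold zz
  rcases le_total a b with h | h
  · rw [max_eq_right h, max_eq_right]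
    have : (a : ℝ) ≤ b := by exact_mod_cast h
    linarith
  · rw [max_eq_left h, max_eq_left]
    have : (b : ℝ) ≤ a := by exact_mod_cast h
    linarith

theorem KD.ok_blocks {X : Root} {K : KD} (hK : K.ok X = true) :
    ∀ i, i < 2 * K.M → gd K.Gb (i / K.bs) ≤ gd K.G i := by
  have hbl : blocks K (2 * K.M) = true := by
    unfold KD.ok at hK
    simp only [Bool.and_eq_true] at hK
    exact hK.2.2
  exact blocks_spec (2 * K.M) hbl

/-- soundness of `inK` -/
theorem inK_mem {X : Root} {K : KD} (hH : 0 < K.H)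
    (hblk : ∀ i, i < 2 * K.M → gd K.Gb (i / K.bs) ≤ gd K.G i) {w : Wd} {r : Rad} {β y : ℝ}
    (hV : VI X β w r) {y1 y2 a1 a2 b1 b2 : ℕ}
    (hy1 : min (zz y1) (zz y2) - (erry r a1 a2 : ℝ) ≤ D * y)
    (hy2 : D * y ≤ max (zz y1) (zz y2) + (erry r a1 a2 : ℝ))
    (hb1 : (b1 : ℝ) ≤ β * D) (hb2 : β * D ≤ b2) (hXb : X.b ≤ b1)
    (h : inK X K y1 y2 (st X w).cv (st X w).mv r a1 a2 b1 b2 = true) :
    K.Mem y (yw β w) := by
  have hD := Dpos
  unfold inK at h
  simp only [force_eq, nmin_eq31, nmax_eq] at h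
  rw [Bool.and_eq_true, Bool.and_eq_true, Bool.and_eq_true, Bool.and_eq_true] at h
  obtain ⟨⟨h1, h2, h3⟩, h4, h5⟩ := h
  set MH := Nat.mul K.M K.H with hMH
  set er := erry r a1 a2 with her
  set l1 := Nat.add (min y1 y2) MH with hl1
  set l2 := Nat.add Z er with hl2
  set h1' := Nat.add (max y1 y2) (Nat.add MH er) with hh1
  have g1 : l2 ≤ l1 := Nat.le_of_ble_eq_true h1
  have g2 : Z ≤ h1' := Nat.le_of_ble_eq_true h2
  have g3 : h1' < Z + 2 * MH := Nat.le_of_ble_eq_true h3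
  have hHR : (0 : ℝ) < K.H := by exact_mod_cast hH
  -- the position
  have p1 : ((l1 - l2 : ℕ) : ℝ) ≤ y * D + K.M * K.H := by
    rw [Nat.cast_sub g1, hl1, hl2, cadd, cadd, hMH, cmul]
    rw [zz_min] at hy1
    unfold zz at hy1
    linarith
  have p2 : y * D + K.M * K.H ≤ ((h1' - Z : ℕ) : ℝ) := by
    rw [Nat.cast_sub g2, hh1, cadd, cadd, hMH, cmul]
    rw [zz_max] at hy2
    unfold zz at hy2
    linarith
  set t := y * D + K.M * K.H with ht
  have ht0 : 0 ≤ t := le_trans (Nat.cast_nonneg _) p1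
  obtain ⟨i, hi1, hi2⟩ : ∃ i : ℕ, (i : ℝ) * K.H ≤ t ∧ t < ((i : ℝ) + 1) * K.H := by
    refine ⟨⌊t / K.H⌋₊, ?_, ?_⟩
    · have := Nat.floor_le (div_nonneg ht0 hHR.le)
      rwa [le_div_iff₀ hHR] at this
    · have := Nat.lt_floor_add_one (t / K.H)
      rwa [div_lt_iff₀ hHR] at this
  have hiu : Nat.div (Nat.sub l1 l2) K.H ≤ i := by
    have : (l1 - l2) / K.H < i + 1 := by
      rw [Nat.div_lt_iff_lt_mul hH]
      have : ((l1 - l2 : ℕ) : ℝ) < (i + 1) * K.H := p1.trans_lt hi2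
      exact_mod_cast this
    exact Nat.lt_succ_iff.1 this
  have hiw : i ≤ Nat.div (Nat.sub h1' Z) K.H := by
    show i ≤ (h1' - Z) / K.H
    rw [Nat.le_div_iff_mul_le hH]
    have : (i : ℝ) * K.H ≤ ((h1' - Z : ℕ) : ℝ) := hi1.trans p2
    exact_mod_cast this
  have hwM : Nat.div (Nat.sub h1' Z) K.H < 2 * K.M := by
    show (h1' - Z) / K.H < 2 * K.M
    rw [Nat.div_lt_iff_lt_mul hH]
    have e : 2 * MH = 2 * K.M * K.H := by
      show 2 * (K.M * K.H) = _
      ring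
    omega
  set u := Nat.div (Nat.sub l1 l2) K.H with hu
  set v := Nat.div (Nat.sub h1' Z) K.H with hv
  have hiM : i < 2 * K.M := lt_of_le_of_lt hiw hwM
  refine ⟨i, hiM, hi1, hi2.le, ?_⟩
  -- the second coordinate
  have hε1 : ((Nat.sub b1 X.b : ℕ) : ℝ) ≤ β * D - X.b := by
    show ((b1 - X.b : ℕ) : ℝ) ≤ _
    rw [Nat.cast_sub hXb]; linarith
  have hb12 : X.b ≤ b2 := by
    have : (b1 : ℝ) ≤ b2 := hb1.trans hb2
    exact hXb.trans (by exact_mod_cast this)
  have hε2 : β * D - X.b ≤ ((Nat.sub b2 X.b : ℕ) : ℝ) := by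
    show _ ≤ ((b2 - X.b : ℕ) : ℝ)
    rw [Nat.cast_sub hb12]; linarith
  have hlo := lin_lo (m := zz (st X w).mv) (ε := β * D - X.b) (P := (st X w).mv) (N := Z) rfl hε1 hε2
  have hhi := lin_hi (m := zz (st X w).mv) (ε := β * D - X.b) (P := (st X w).mv) (N := Z) rfl hε1 hε2
  have hv' := abs_le.1 hV.hv
  have hS : (S : ℝ) = 16384 := by unfold S; norm_num
  have hS0 : (0 : ℝ) < S := by rw [hS]; norm_num
  have k4 := ble_R h4
  have k5 := ble_R h5
  simp only [cadd, cmul] at k4 k5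
  have m1 : minw K.Gb (Nat.sub (Nat.div v K.bs) (Nat.div u K.bs)) (Nat.div u K.bs) ≤ gd K.G i := by
    refine le_trans (minw_le _ _ _ (i / K.bs) (Nat.div_le_div_right hiu) ?_) (hblk i hiM)
    have : i / K.bs ≤ v / K.bs := Nat.div_le_div_right hiw
    have e : Nat.sub (Nat.div v K.bs) (Nat.div u K.bs) = v / K.bs - u / K.bs := rfl
    have e2 : Nat.div u K.bs = u / K.bs := rfl
    rw [e, e2]
    omega
  set u' := Nat.sub (Nat.sub (Nat.mul 2 K.M) 1) v with hu'
  set v' := Nat.sub (Nat.sub (Nat.mul 2 K.M) 1) u with hv''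
  have eu' : u' = 2 * K.M - 1 - v := rfl
  have ev' : v' = 2 * K.M - 1 - u := rfl
  have m2 : minw K.Gb (Nat.sub (Nat.div v' K.bs) (Nat.div u' K.bs)) (Nat.div u' K.bs) ≤
      gd K.G (2 * K.M - 1 - i) := by
    have q1 : u' ≤ 2 * K.M - 1 - i := by rw [eu']; omega
    have q2 : 2 * K.M - 1 - i ≤ v' := by rw [ev']; omega
    refine le_trans (minw_le _ _ _ ((2 * K.M - 1 - i) / K.bs) (Nat.div_le_div_right q1) ?_)
      (hblk _ (by omega))
    have : (2 * K.M - 1 - i) / K.bs ≤ v' / K.bs := Nat.div_le_div_right q2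
    have e : Nat.sub (Nat.div v' K.bs) (Nat.div u' K.bs) = v' / K.bs - u' / K.bs := rfl
    have e2 : Nat.div u' K.bs = u' / K.bs := rfl
    rw [e, e2]
    omega
  have m1R : ((minw K.Gb (Nat.sub (Nat.div v K.bs) (Nat.div u K.bs)) (Nat.div u K.bs) : ℕ) : ℝ) ≤
    gd K.G i := by exact_mod_cast m1
  have m2R : ((minw K.Gb (Nat.sub (Nat.div v' K.bs) (Nat.div u' K.bs)) (Nat.div u' K.bs) : ℕ) : ℝ) ≤
    gd K.G (2 * K.M - 1 - i) := by exact_mod_cast m2
  have m1D := mul_le_mul_of_nonneg_right m1R hD.le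
  have m2D := mul_le_mul_of_nonneg_right m2R hD.le
  -- real bounds of `v`
  set VV := yw β w with hVV
  have up : (D : ℝ) * VV ≤ zz (st X w).cv + ((Nat.div (Nat.mul (Nat.sub (st X w).mv Z)
      (Nat.sub b2 X.b)) D : ℕ) : ℝ) - ((Nat.div (Nat.mul (Nat.sub Z (st X w).mv)
      (Nat.sub b1 X.b)) D : ℕ) : ℝ) + 1 + r.rv := by linarith
  have lo : zz (st X w).cv + ((Nat.div (Nat.mul (Nat.sub (st X w).mv Z)
      (Nat.sub b1 X.b)) D : ℕ) : ℝ) - ((Nat.div (Nat.mul (Nat.sub Z (st X w).mv)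
      (Nat.sub b2 X.b)) D : ℕ) : ℝ) - 1 - r.rv ≤ (D : ℝ) * VV := by linarith
  have upS := mul_le_mul_of_nonneg_left up hS0.le
  have loS := mul_le_mul_of_nonneg_left lo hS0.le
  unfold zz at upS loS
  constructor
  · have : ((OFF : ℝ) - gd K.G (2 * K.M - 1 - i)) * D ≤ (S * VV) * D := by
      push_cast at k5
      linarith
    exact le_of_mul_le_mul_right this hD
  · have : (S * VV) * D ≤ ((gd K.G i : ℝ) - OFF) * D := by
      push_cast at k4
      linarith
    exact le_of_mul_le_mul_right this hD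

/-- soundness of `inKw` -/
theorem inKw_near {X : Root} (G : X.Good) {K : Option KD} (hK : okK X K = true) {w : Wd}
    {α β : ℝ} (hp : X.In α β) (hab : 2 < α * β) (hne : α ≠ β)
    (hI : ∀ r t, rs X w = r :: t → VI X β w r ∧ YI X w r) {a1 a2 b1 b2 : ℕ}
    (hXa : X.a ≤ a1) (ha2 : a2 ≤ X.a + X.da) (hXb : X.b ≤ b1)
    (ha1 : (a1 : ℝ) ≤ α * D) (ha2' : α * D ≤ a2) (hb1 : (b1 : ℝ) ≤ β * D) (hb2 : β * D ≤ b2)
    (h : inKw X K w a1 a2 b1 b2 = true) : Near (1 / α) (1 / β) := by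
  rcases K with _ | K
  · exact absurd h (by simp [inKw])
  · have hK' : K.ok X = true := hK
    rcases hr : rs X w with _ | ⟨r, t⟩
    · unfold inKw at h
      rw [hr] at h
      exact absurd h (by simp)
    · have h' : inK X K (yva a1 w) (yva a2 w) (st X w).cv (st X w).mv r a1 a2 b1 b2 = true := by
        unfold inKw at h
        rw [hr] at h
        exact h
      obtain ⟨hV, hY⟩ := hI r t hr
      have h12 : a1 ≤ a2 := by
        have : (a1 : ℝ) ≤ a2 := ha1.trans ha2'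
        exact_mod_cast this
      obtain ⟨q1, q2⟩ := hY.range G hXa h12 ha2 ha1 ha2'
      exact near_of_mem G.hDa G.hDb hK' hp hab hne
        (inK_mem (KD.ok_spec hK').1 (KD.ok_blocks hK') hV q1 q2 hb1 hb2 hXb h')

end Pool.Agent.Helper65.Conn
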