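import Pool.Agent.Helper65.Conn.ModelH

/-!
# Soundness of the comparison of a functional with its bound
-/

namespace Pool.Agent.Helper65.Conn

open Pool.Agent.Iso

attribute [local irreducible] D Z ZD

/-- value of the functional, scale `D` -/
noncomputable def Fn.val (f : Fn) (y v u q : ℝ) : ℝ :=
  ((f.E : ℝ) - f.E') * (D * y) + ((f.A : ℝ) - f.A') * (D * v) + ((f.B : ℝ) - f.B') * (D * u)
    + ((f.C : ℝ) - f.C') * (D * q)

theorem Fn.val_flip (f : Fn) (y v u q : ℝ) : f.flip.val y v u q = -f.val y v u q := by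
  unfold Fn.val Fn.flip
  ring

theorem abs_term {p n x R : ℝ} (hp : 0 ≤ p) (hn : 0 ≤ n) (h : |x| ≤ R) :
    -((p + n) * R) ≤ (p - n) * x := by
  have h1 := abs_le.1 h
  have t1 := mul_nonneg hp (show 0 ≤ R + x by linarith [h1.1])
  have t2 := mul_nonneg hn (show 0 ≤ R - x by linarith [h1.2])
  have e : (p - n) * x + (p + n) * R = p * (R + x) + n * (R - x) := by ring
  linarith

theorem gtF_val {X : Root} (f : Fn) {w : Wd} {r : Rad} {α β : ℝ} (hF : FI X α β w r)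
    {a1 a2 b1 b2 : ℕ}
    (hy : min (zz (yva a1 w)) (zz (yva a2 w)) - (erry r a1 a2 : ℝ) ≤ D * yw α w ∧
      D * yw α w ≤ max (zz (yva a1 w)) (zz (yva a2 w)) + (erry r a1 a2 : ℝ))
    (hXa : X.a ≤ a1) (hXb : X.b ≤ b1)
    (ha1 : (a1 : ℝ) ≤ α * D) (ha2 : α * D ≤ a2) (hb1 : (b1 : ℝ) ≤ β * D) (hb2 : β * D ≤ b2)
    (h : gtF X f w (st X w) r a1 a2 b1 b2 = true) :
    (f.c : ℝ) < f.val (yw α w) (yw β w) (uw β w) (qw α β w) := by
  have hD := Dpos
  unfold gtF at h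
  simp only [force_eq, nmin_eq31, nmax_eq] at h
  have hlt : ∀ a b : ℕ, Nat.blt a b = true → (a : ℝ) < b := by
    intro a b hab
    have : a < b := by simpa using hab
    exact_mod_cast this
  have h' := hlt _ _ h
  set t := st X w with ht
  set y1 := yva a1 w
  set y2 := yva a2 w
  -- the part of `y`
  have hY : (((cond (Nat.beq (Nat.add f.E f.E') 0) 0
      (Nat.add (Nat.mul f.E (min y1 y2)) (Nat.mul Z f.E')) : ℕ)) : ℝ) -
      ((cond (Nat.beq (Nat.add f.E f.E') 0) 0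
        (Nat.add (Nat.add (Nat.mul f.E' (max y1 y2)) (Nat.mul Z f.E))
        (Nat.mul (Nat.add f.E f.E') (erry r a1 a2))) : ℕ) : ℝ) ≤
      ((f.E : ℝ) - f.E') * (D * yw α w) := by
    rcases hb : Nat.beq (Nat.add f.E f.E') 0 with _ | _
    · simp only [cond_false, cadd, cmul]
      obtain ⟨q1, q2⟩ := hy
      rw [zz_min] at q1
      rw [zz_max] at q2
      unfold zz at q1 q2
      have e0 : (0 : ℝ) ≤ f.E := Nat.cast_nonneg _
      have e1 : (0 : ℝ) ≤ f.E' := Nat.cast_nonneg _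
      have t1 := mul_le_mul_of_nonneg_left q1 e0
      have t2 := mul_le_mul_of_nonneg_left q2 e1
      linarith
    · have h0 : f.E + f.E' = 0 := Nat.eq_of_beq_eq_true hb
      have h1 : f.E = 0 := by omega
      have h2 : f.E' = 0 := by omega
      rw [h1, h2]
      simp
  simp only [cadd, cmul] at h'
  -- slopes
  have h12 : (a1 : ℝ) ≤ a2 := ha1.trans ha2
  have hb12 : (b1 : ℝ) ≤ b2 := hb1.trans hb2
  have hXa2 : X.a ≤ a2 := hXa.trans (by exact_mod_cast h12)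
  have hXb2 : X.b ≤ b2 := hXb.trans (by exact_mod_cast hb12)
  have d1 : ((Nat.sub a1 X.a : ℕ) : ℝ) ≤ α * D - X.a := by
    show ((a1 - X.a : ℕ) : ℝ) ≤ _
    rw [Nat.cast_sub hXa]; linarith
  have d2 : α * D - X.a ≤ ((Nat.sub a2 X.a : ℕ) : ℝ) := by
    show _ ≤ ((a2 - X.a : ℕ) : ℝ)
    rw [Nat.cast_sub hXa2]; linarith
  have e1 : ((Nat.sub b1 X.b : ℕ) : ℝ) ≤ β * D - X.b := by
    show ((b1 - X.b : ℕ) : ℝ) ≤ _
    rw [Nat.cast_sub hXb]; linarith
  have e2 : β * D - X.b ≤ ((Nat.sub b2 X.b : ℕ) : ℝ) := by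
    show _ ≤ ((b2 - X.b : ℕ) : ℝ)
    rw [Nat.cast_sub hXb2]; linarith
  have sd := lin_lo (m := ((f.C : ℝ) - f.C') * zz t.mq) (ε := α * D - X.a)
    (P := Nat.add (Nat.mul f.C t.mq) (Nat.mul Z f.C'))
    (N := Nat.add (Nat.mul f.C' t.mq) (Nat.mul Z f.C))
    (by simp only [cadd, cmul]; unfold zz; ring) d1 d2
  have se := lin_lo (m := ((f.A : ℝ) - f.A') * zz t.mv + ((f.B : ℝ) - f.B') * zz t.mu +
      ((f.C : ℝ) - f.C') * zz t.nq) (ε := β * D - X.b)
    (P := Nat.add (Nat.add (Nat.mul f.A t.mv) (Nat.add (Nat.mul f.B t.mu) (Nat.mul f.C t.nq)))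
      (Nat.mul Z (Nat.add f.A' (Nat.add f.B' f.C'))))
    (N := Nat.add (Nat.add (Nat.mul f.A' t.mv) (Nat.add (Nat.mul f.B' t.mu)
      (Nat.mul f.C' t.nq)))
      (Nat.mul Z (Nat.add f.A (Nat.add f.B f.C))))
    (by simp only [cadd, cmul]; unfold zz; ring) e1 e2
  have v1 := abs_term (p := (f.A : ℝ)) (n := f.A') (Nat.cast_nonneg _) (Nat.cast_nonneg _) hF.hv
  have v2 := abs_term (p := (f.B : ℝ)) (n := f.B') (Nat.cast_nonneg _) (Nat.cast_nonneg _) hF.hu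
  have v3 := abs_term (p := (f.C : ℝ)) (n := f.C') (Nat.cast_nonneg _) (Nat.cast_nonneg _) hF.hq
  rw [← ht] at v1 v2 v3
  unfold Fn.val
  set δ := α * D - X.a with hδ
  set ε := β * D - X.b with hε
  have key : ((f.E : ℝ) - f.E') * (D * yw α w) + ((f.A : ℝ) - f.A') * (D * yw β w) +
      ((f.B : ℝ) - f.B') * (D * uw β w) + ((f.C : ℝ) - f.C') * (D * qw α β w) =
      ((f.E : ℝ) - f.E') * (D * yw α w) +
      (((f.A : ℝ) - f.A') * zz t.cv + ((f.B : ℝ) - f.B') * zz t.cu + ((f.C : ℝ) - f.C') * zz t.cq) +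
      ((f.C : ℝ) - f.C') * zz t.mq * δ / D +
      (((f.A : ℝ) - f.A') * zz t.mv + ((f.B : ℝ) - f.B') * zz t.mu +
        ((f.C : ℝ) - f.C') * zz t.nq) * ε / D +
      ((f.A : ℝ) - f.A') * (D * yw β w - (zz t.cv + zz t.mv * ε / D)) +
      ((f.B : ℝ) - f.B') * (D * uw β w - (zz t.cu + zz t.mu * ε / D)) +
      ((f.C : ℝ) - f.C') * (D * qw α β w - (zz t.cq + zz t.mq * δ / D + zz t.nq * ε / D)) := by
    ring
  rw [key]
  unfold zz at sd se v1 v2 v3 ⊢
  push_cast at h'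
  linarith

end Pool.Agent.Helper65.Conn
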