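import Pool.Agent.Helper65.Conn.Check
import Pool.Agent.Helper5.Iso.Main

/-!
# Real states of a word
-/

namespace Pool.Agent.Helper65.Conn

open Pool.Agent.Iso

/-- the state `y` after a word for the parameter `α = 1 / x`: `y' = α y - digit`, start `-1` -/
noncomputable def yw (α : ℝ) : Wd → ℝ
  | .e => -1
  | .m w => α * yw α w + 1
  | .o w => α * yw α w
  | .p w => α * yw α w - 1

/-- the invariant set given by the data `K`: `y` lies in the closed cell `i`, and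
`-(G (N - 1 - i) - OFF) ≤ S v ≤ G i - OFF` -/
def KD.Mem (K : KD) (y v : ℝ) : Prop :=
  ∃ i : ℕ, i < 2 * K.M ∧ (i : ℝ) * K.H ≤ y * D + K.M * K.H ∧
    y * D + K.M * K.H ≤ ((i : ℝ) + 1) * K.H ∧
    (OFF : ℝ) - gd K.G (2 * K.M - 1 - i) ≤ S * v ∧ S * v ≤ (gd K.G i : ℝ) - OFF

/-- the parameters `α, β` belong to the box -/
def Root.In (X : Root) (α β : ℝ) : Prop :=
  (X.a : ℝ) ≤ α * D ∧ α * D ≤ X.a + X.da ∧ (X.b : ℝ) ≤ β * D ∧ β * D ≤ X.b + X.db

end Pool.Agent.Helper65.Conn
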