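import Pool.Agent.Helper65.Conn.Check

/-!
# Checker with regions

Constants, functionals, path words and the invariant set are shared by all boxes of a region; the
states are passed along the tree.  All functions are written such that the kernel evaluates them
quickly: no nested `let`, raw operations.
-/

namespace Pool.Agent.Helper65.Conn

noncomputable section

/-- conjunction -/
def an (x y : Bool) : Bool := Bool.rec (motive := fun _ => Bool) false y x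

/-- tail of a list of radii -/
def tlR (L : List Rad) : List Rad := List.rec (motive := fun _ => List Rad) [] (fun _ t _ => t) L

/-- `(a - D) 2 ^ 80` -/
def zof (a : ℕ) : ℕ := Nat.mul (Nat.sub a D) ZD

/-- minimum and maximum -/
def mnR (a b : ℕ) : ℕ := Bool.rec (motive := fun _ => ℕ) b a (Nat.ble a b)

def mxR (a b : ℕ) : ℕ := Bool.rec (motive := fun _ => ℕ) a b (Nat.ble a b)

/-- interpolation error of `y` -/
def errR (ey ky w : ℕ) : ℕ :=
  Nat.add (Nat.add ey 2) (Nat.div (Nat.mul (Nat.div (Nat.mul ky w) D) w) 4503599627370496)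

def cmpB (P0 N0 Pd Nd Pe Ne Py Ny R c d1 d2 e1 e2 : ℕ) : Bool :=
  Nat.blt (Nat.add (Nat.add (Nat.add N0 (Nat.add (Nat.div (Nat.mul (Nat.sub Nd Pd) d2) D)
      (Nat.div (Nat.mul (Nat.sub Ne Pe) e2) D))) (Nat.add R c)) (Nat.add Ny 2))
    (Nat.add P0 (Nat.add Py (Nat.add (Nat.div (Nat.mul (Nat.sub Pd Nd) d1) D)
      (Nat.div (Nat.mul (Nat.sub Pe Ne) e1) D))))

def cmpA (E E' A A' B B' C C' c ey ky rv ru rq y1 y2 cv mv cu mu cq mq nq d1 d2 e1 e2 w : ℕ) :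
    Bool :=
  cmpB (Nat.add (Nat.add (Nat.mul A cv) (Nat.add (Nat.mul B cu) (Nat.mul C cq)))
      (Nat.mul Z (Nat.add A' (Nat.add B' C'))))
    (Nat.add (Nat.add (Nat.mul A' cv) (Nat.add (Nat.mul B' cu) (Nat.mul C' cq)))
      (Nat.mul Z (Nat.add A (Nat.add B C))))
    (Nat.add (Nat.mul C mq) (Nat.mul Z C'))
    (Nat.add (Nat.mul C' mq) (Nat.mul Z C))
    (Nat.add (Nat.add (Nat.mul A mv) (Nat.add (Nat.mul B mu) (Nat.mul C nq)))
      (Nat.mul Z (Nat.add A' (Nat.add B' C'))))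
    (Nat.add (Nat.add (Nat.mul A' mv) (Nat.add (Nat.mul B' mu) (Nat.mul C' nq)))
      (Nat.mul Z (Nat.add A (Nat.add B C))))
    (Bool.rec (motive := fun _ => ℕ) (Nat.add (Nat.mul E (mnR y1 y2)) (Nat.mul Z E')) 0
      (Nat.beq (Nat.add E E') 0))
    (Bool.rec (motive := fun _ => ℕ) (Nat.add (Nat.add (Nat.mul E' (mxR y1 y2)) (Nat.mul Z E))
      (Nat.mul (Nat.add E E') (errR ey ky w))) 0 (Nat.beq (Nat.add E E') 0))
    (Nat.add (Nat.mul (Nat.add A A') rv) (Nat.add (Nat.mul (Nat.add B B') ru)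
      (Nat.mul (Nat.add C C') rq)))
    c d1 d2 e1 e2

/-- comparison of a functional with its bound -/
def kilR (f : Fn) (L : List Rad) (y1 y2 cv mv cu mu cq mq nq d1 d2 e1 e2 w : ℕ) : Bool :=
  Fn.rec (motive := fun _ => Bool) (fun E E' A A' B B' C C' c =>
    List.rec (motive := fun _ => Bool) false (fun r _ _ =>
      Rad.rec (motive := fun _ => Bool) (fun ey ky _ rv _ ru _ rq _ _ =>
        cmpA E E' A A' B B' C C' c ey ky rv ru rq y1 y2 cv mv cu mu cq mq nq d1 d2 e1 e2 w) r) L) f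

/-- the same for the negative functional -/
def kilN (f : Fn) (L : List Rad) (y1 y2 cv mv cu mu cq mq nq d1 d2 e1 e2 w : ℕ) : Bool :=
  Fn.rec (motive := fun _ => Bool) (fun E E' A A' B B' C C' c =>
    List.rec (motive := fun _ => Bool) false (fun r _ _ =>
      Rad.rec (motive := fun _ => Bool) (fun ey ky _ rv _ ru _ rq _ _ =>
        cmpA E' E A' A B' B C' C c ey ky rv ru rq y1 y2 cv mv cu mu cq mq nq d1 d2 e1 e2 w) r) L) f

/-- apply to the functional number `j` -/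
def nthF (F : List Fn) (j : ℕ) (k : Fn → Bool) : Bool :=
  List.rec (motive := fun _ => ℕ → Bool) (fun _ => false)
    (fun f _ ih j => Nat.rec (motive := fun _ => Bool) (k f) (fun i _ => ih i) j) F j

/-- final comparison for the invariant set -/
def inC (Gb bs cv rv u w u' w' p1 m1 p2 m2 : ℕ) : Bool :=
  an (Nat.ble (Nat.add (Nat.mul (Nat.add cv (Nat.add p2 (Nat.add rv 1))) S) (Nat.mul OFF D))
        (Nat.add (Nat.mul (minw Gb (Nat.sub (Nat.div w bs) (Nat.div u bs)) (Nat.div u bs)) D)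
          (Nat.mul (Nat.add Z m1) S)))
    (Nat.ble (Nat.add (Nat.mul OFF D) (Nat.mul (Nat.add Z (Nat.add m2 (Nat.add rv 1))) S))
      (Nat.add (Nat.mul (Nat.add cv p1) S)
        (Nat.mul (minw Gb (Nat.sub (Nat.div w' bs) (Nat.div u' bs)) (Nat.div u' bs)) D)))

def inB (M H bs Gb MH l1 l2 h1 cv mv rv e1 e2 : ℕ) : Bool :=
  an (an (Nat.ble l2 l1) (an (Nat.ble Z h1) (Nat.blt h1 (Nat.add Z (Nat.mul 2 MH)))))
    (inC Gb bs cv rv (Nat.div (Nat.sub l1 l2) H) (Nat.div (Nat.sub h1 Z) H)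
      (Nat.sub (Nat.sub (Nat.mul 2 M) 1) (Nat.div (Nat.sub h1 Z) H))
      (Nat.sub (Nat.sub (Nat.mul 2 M) 1) (Nat.div (Nat.sub l1 l2) H))
      (Nat.div (Nat.mul (Nat.sub mv Z) e1) D) (Nat.div (Nat.mul (Nat.sub Z mv) e1) D)
      (Nat.div (Nat.mul (Nat.sub mv Z) e2) D) (Nat.div (Nat.mul (Nat.sub Z mv) e2) D))

def inA (M H bs Gb MH er y1 y2 cv mv rv e1 e2 : ℕ) : Bool :=
  inB M H bs Gb MH (Nat.add (mnR y1 y2) MH) (Nat.add Z er) (Nat.add (mxR y1 y2) (Nat.add MH er))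
    cv mv rv e1 e2

/-- membership in the invariant set -/
def memR (K : Option KD) (L : List Rad) (y1 y2 cv mv e1 e2 w : ℕ) : Bool :=
  Option.rec (motive := fun _ => Bool) false (fun K =>
    KD.rec (motive := fun _ => Bool) (fun M H _ bs Gb =>
      List.rec (motive := fun _ => Bool) false (fun r _ _ =>
        Rad.rec (motive := fun _ => Bool) (fun ey ky _ rv _ _ _ _ _ _ =>
          inA M H bs Gb (Nat.mul M H) (errR ey ky w) y1 y2 cv mv rv e1 e2) r) L) K) K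

/-- membership after the path word number `j` -/
def pthR (X : Root) (K : Option KD) (P : List Wd) (j a1 a2 b1 b2 : ℕ) : Bool :=
  List.rec (motive := fun _ => ℕ → Bool) (fun _ => false)
    (fun w _ ih j => Nat.rec (motive := fun _ => Bool)
      (memR K (rs X w) (yv a1 (zof a1) w) (yv a2 (zof a2) w) (st X w).cv (st X w).mv
        (Nat.sub b1 X.b) (Nat.sub b2 X.b) (Nat.sub a2 a1)) (fun i _ => ih i) j) P j

/-- certificates inside a box -/
inductive Tq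
  | b
  | k (j : ℕ)
  | l (j : ℕ)
  | i
  | p (j : ℕ)
  | g (x y z : Tq)
  | s (v : ℕ) (x y : Tq)
  | t (v : ℕ) (x y : Tq)

def nx5 (a0 za mq nq V0 mv' cu' mu' WQ : ℕ) (k : ℕ → ℕ → ℕ → ℕ → ℕ → ℕ → ℕ → Bool) : Bool :=
  k V0 mv' cu' mu' (mulO WQ a0 za) (Nat.sub (Nat.add WQ (mulO mq a0 za)) Z)
    (mulO (Nat.sub (Nat.add nq Z) mu') a0 za)

def nx4 (a0 za cq mq nq V0 mv' cu' mu' : ℕ) (k : ℕ → ℕ → ℕ → ℕ → ℕ → ℕ → ℕ → Bool) : Bool :=
  nx5 a0 za mq nq V0 mv' cu' mu' (Nat.sub (Nat.add cq Z) cu') k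

def nx3 (a0 za b0 zb cq mq nq V0 mv' W MT : ℕ) (k : ℕ → ℕ → ℕ → ℕ → ℕ → ℕ → ℕ → Bool) : Bool :=
  nx4 a0 za cq mq nq V0 mv' (mulO W b0 zb) (Nat.sub (Nat.add W (mulO MT b0 zb)) Z) k

def nx2 (a0 za b0 zb cv cu mu cq mq nq V0 MV0 : ℕ)
    (k : ℕ → ℕ → ℕ → ℕ → ℕ → ℕ → ℕ → Bool) : Bool :=
  nx3 a0 za b0 zb cq mq nq V0 (Nat.sub (Nat.add MV0 cv) Z) (Nat.sub (Nat.add cu Z) V0)
    (Nat.sub (Nat.sub (Nat.add mu (Nat.add Z Z)) cv) MV0) k

def nx1 (a0 za b0 zb cv mv cu mu cq mq nq : ℕ)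
    (k : ℕ → ℕ → ℕ → ℕ → ℕ → ℕ → ℕ → Bool) : Bool :=
  nx2 a0 za b0 zb cv cu mu cq mq nq (mulO cv b0 zb) (mulO mv b0 zb) k

/-- the checker inside a box -/
def chkQ (X : Root) (F : List Fn) (K : Option KD) (P : List Wd) (a0 za b0 zb : ℕ) (c : Tq) :
    Wd → List Rad → ℕ → ℕ → ℕ → ℕ → ℕ → ℕ → ℕ → ℕ → ℕ → ℕ → ℕ → ℕ → ℕ → Bool :=
  Tq.rec (motive := fun _ =>
    Wd → List Rad → ℕ → ℕ → ℕ → ℕ → ℕ → ℕ → ℕ → ℕ → ℕ → ℕ → ℕ → ℕ → ℕ → Bool)
    (fun _ _ _ _ _ _ _ _ _ _ _ _ a2 _ b2 => Nat.ble (Nat.mul a2 b2) (Nat.mul 2 (Nat.mul D D)))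
    (fun j _ L y1 y2 cv mv cu mu cq mq nq a1 a2 b1 b2 => nthF F j fun f =>
      kilR f L y1 y2 cv mv cu mu cq mq nq (Nat.sub a1 a0) (Nat.sub a2 a0) (Nat.sub b1 b0)
        (Nat.sub b2 b0) (Nat.sub a2 a1))
    (fun j _ L y1 y2 cv mv cu mu cq mq nq a1 a2 b1 b2 => nthF F j fun f =>
      kilN f L y1 y2 cv mv cu mu cq mq nq (Nat.sub a1 a0) (Nat.sub a2 a0) (Nat.sub b1 b0)
        (Nat.sub b2 b0) (Nat.sub a2 a1))
    (fun _ L y1 y2 cv mv _ _ _ _ _ a1 a2 b1 b2 =>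
      memR K L y1 y2 cv mv (Nat.sub b1 b0) (Nat.sub b2 b0) (Nat.sub a2 a1))
    (fun j _ _ _ _ _ _ _ _ _ _ _ a1 a2 b1 b2 => pthR X K P j a1 a2 b1 b2)
    (fun _ _ _ hx hy hz w L y1 y2 cv mv cu mu cq mq nq a1 a2 b1 b2 =>
      nx1 a0 za b0 zb cv mv cu mu cq mq nq fun V m' u' n' q' r' s' =>
        an (hx (.m w) (tlR L) (Nat.add (mulO y1 a1 (zof a1)) D) (Nat.add (mulO y2 a2 (zof a2)) D)
          (Nat.add V D) m' u' n' q' r' s' a1 a2 b1 b2)
        (an (hy (.o w) (tlR L) (mulO y1 a1 (zof a1)) (mulO y2 a2 (zof a2))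
          V m' u' n' q' r' s' a1 a2 b1 b2)
        (hz (.p w) (tlR L) (Nat.sub (mulO y1 a1 (zof a1)) D) (Nat.sub (mulO y2 a2 (zof a2)) D)
          (Nat.sub V D) m' u' n' q' r' s' a1 a2 b1 b2)))
    (fun v _ _ hx hy w L y1 y2 cv mv cu mu cq mq nq a1 a2 b1 b2 =>
      an (an (Nat.ble a1 v) (Nat.ble v a2))
        (an (hx w L y1 (yv v (zof v) w) cv mv cu mu cq mq nq a1 v b1 b2)
          (hy w L (yv v (zof v) w) y2 cv mv cu mu cq mq nq v a2 b1 b2)))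
    (fun v _ _ hx hy w L y1 y2 cv mv cu mu cq mq nq a1 a2 b1 b2 =>
      an (an (Nat.ble b1 v) (Nat.ble v b2))
        (an (hx w L y1 y2 cv mv cu mu cq mq nq a1 a2 b1 v)
          (hy w L y1 y2 cv mv cu mu cq mq nq a1 a2 v b2))) c

/-- certificates inside a region: `c` tree, `q` new radii, `s`, `t` splitting -/
inductive Sb
  | b
  | o
  | c (t : Tq)
  | q (ds es : ℕ) (rad : List Rad) (x : Sb)
  | s (v : ℕ) (x y : Sb)
  | t (v : ℕ) (x y : Sb)

/-- check of all radii for boxes of size at most `ds`, `es` in the region -/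
def radL (X : Root) (ds es : ℕ) (rad : List Rad) : Bool :=
  List.rec (motive := fun _ => Bool) true
    (fun r t _ => radOK ⟨Nat.sub (Nat.add X.a X.da) ds, ds, Nat.sub (Nat.add X.b X.db) es, es,
      0, 0, X.T, X.U, X.U1, X.Q, []⟩ t r) rad

/-- the checker inside a region -/
def chkS (X : Root) (F : List Fn) (K : Option KD) (P : List Wd) (c : Sb) :
    ℕ → ℕ → List Rad → ℕ → ℕ → ℕ → ℕ → Bool :=
  Sb.rec (motive := fun _ => ℕ → ℕ → List Rad → ℕ → ℕ → ℕ → ℕ → Bool)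
    (fun _ _ _ _ a2 _ b2 => Nat.ble (Nat.mul a2 b2) (Nat.mul 2 (Nat.mul D D)))
    (fun _ _ _ _ a2 b1 _ => Nat.ble a2 b1)
    (fun t ds es rad a1 a2 b1 b2 =>
      an (an (an (Nat.ble a1 a2) (Nat.ble b1 b2)) (an (Nat.ble (Nat.sub a2 a1) ds)
        (Nat.ble (Nat.sub b2 b1) es)))
        (chkQ X F K P a1 (zof a1) b1 (zof b1) t .e rad (Nat.sub Z D) (Nat.sub Z D) (Nat.sub Z D)
          Z Z Z Z Z Z a1 a2 b1 b2))
    (fun ds es rad _ ih _ _ _ a1 a2 b1 b2 =>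
      an (an (an (Nat.ble ds D) (Nat.ble es D)) (radL X ds es rad)) (ih ds es rad a1 a2 b1 b2))
    (fun v _ _ hx hy ds es rad a1 a2 b1 b2 =>
      an (an (Nat.ble a1 v) (Nat.ble v a2)) (an (hx ds es rad a1 v b1 b2)
        (hy ds es rad v a2 b1 b2)))
    (fun v _ _ hx hy ds es rad a1 a2 b1 b2 =>
      an (an (Nat.ble b1 v) (Nat.ble v b2)) (an (hx ds es rad a1 a2 b1 v)
        (hy ds es rad a1 a2 v b2))) c

/-- a path word with a parameter for which it stays in the range -/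
structure PW where
  w : Wd
  a : ℕ

/-- check of the path words -/
def okP (X : Root) (P : List PW) : Bool :=
  List.rec (motive := fun _ => Bool) true
    (fun p _ ih => an (an (Nat.ble X.a p.a) (Nat.ble p.a (Nat.add X.a X.da)))
      (an (good X p.a p.w) ih)) P

/-- outer certificates with regions: `k` invariant set, `r` region -/
inductive Rg
  | b
  | o
  | k (X : Root) (K : KD) (x : Rg)
  | r (X : Root) (J : ℕ) (F : List Fn) (P : List PW) (x : Sb)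
  | s (v : ℕ) (x y : Rg)
  | t (v : ℕ) (x y : Rg)

/-- the checker for a rectangle `[a1, a2] × [b1, b2]` -/
def chkG (c : Rg) : Option KD → ℕ → ℕ → ℕ → ℕ → Bool :=
  Rg.rec (motive := fun _ => Option KD → ℕ → ℕ → ℕ → ℕ → Bool)
    (fun _ _ a2 _ b2 => Nat.ble (Nat.mul a2 b2) (Nat.mul 2 (Nat.mul D D)))
    (fun _ _ a2 b1 _ => Nat.ble a2 b1)
    (fun X K _ ih _ a1 a2 b1 b2 =>
      an (an (an (Nat.ble X.a a1) (Nat.ble a2 (Nat.add X.a X.da)))
        (an (Nat.ble X.b b1) (Nat.ble b2 (Nat.add X.b X.db))))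
      (an (an (Nat.blt D X.a) (Nat.blt D X.b)) (an (KD.ok X K) (ih (some K) a1 a2 b1 b2))))
    (fun X J F P x K a1 a2 b1 b2 =>
      an (an (an (Nat.ble X.a a1) (Nat.ble a2 (Nat.add X.a X.da)))
        (an (Nat.ble X.b b1) (Nat.ble b2 (Nat.add X.b X.db))))
      (an (an X.ok (allF X J F)) (an (okP X P)
        (chkS X F K (List.map PW.w P) x 0 0 [] a1 a2 b1 b2))))
    (fun v _ _ hx hy K a1 a2 b1 b2 =>
      an (an (Nat.ble a1 v) (Nat.ble v a2)) (an (hx K a1 v b1 b2) (hy K v a2 b1 b2)))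
    (fun v _ _ hx hy K a1 a2 b1 b2 =>
      an (an (Nat.ble b1 v) (Nat.ble v b2)) (an (hx K a1 a2 b1 v) (hy K a1 a2 v b2))) c

end

end Pool.Agent.Helper65.Conn
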