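import Pool.Agent.Helper65.Conn.Reg
import Pool.Agent.Helper65.Conn.ChkR

/-!
# Soundness of the checker with regions
-/

namespace Pool.Agent.Helper65.Conn

open Pool.Agent.Iso

attribute [local irreducible] D Z ZD

theorem an_true {x y : Bool} : an x y = true ↔ x = true ∧ y = true := by
  cases x <;> cases y <;> decide

theorem an_eq (x y : Bool) : an x y = (x && y) := by
  cases x <;> cases y <;> decide

theorem tlR_eq (L : List Rad) : tlR L = L.tail := by cases L <;> rfl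

theorem mnR_eq (a b : ℕ) : mnR a b = nmin a b := by
  unfold mnR nmin; cases Nat.ble a b <;> rfl

theorem mxR_eq (a b : ℕ) : mxR a b = nmax a b := by
  unfold mxR nmax; cases Nat.ble a b <;> rfl

theorem cmpA_eq (X : Root) (f : Fn) (w : Wd) (t : S7) (r : Rad) (a1 a2 b1 b2 : ℕ) :
    cmpA f.E f.E' f.A f.A' f.B f.B' f.C f.C' f.c r.ey r.ky r.rv r.ru r.rq (yva a1 w) (yva a2 w)
      t.cv t.mv t.cu t.mu t.cq t.mq t.nq (Nat.sub a1 X.a) (Nat.sub a2 X.a) (Nat.sub b1 X.b)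
      (Nat.sub b2 X.b) (Nat.sub a2 a1) = gtF X f w t r a1 a2 b1 b2 := by
  unfold gtF cmpA cmpB
  simp only [force_eq, mnR_eq, mxR_eq]
  cases Nat.beq (Nat.add f.E f.E') 0 <;> rfl

theorem kilR_eq {X : Root} {f : Fn} {L : List Rad} {w : Wd} {t : S7} {a1 a2 b1 b2 : ℕ}
    (h : kilR f L (yva a1 w) (yva a2 w) t.cv t.mv t.cu t.mu t.cq t.mq t.nq (Nat.sub a1 X.a)
      (Nat.sub a2 X.a) (Nat.sub b1 X.b) (Nat.sub b2 X.b) (Nat.sub a2 a1) = true) :
    ∃ r L', L = r :: L' ∧ gtF X f w t r a1 a2 b1 b2 = true := by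
  rcases L with _ | ⟨r, L'⟩
  · exact absurd h (by simp [kilR])
  · refine ⟨r, L', rfl, ?_⟩
    rw [← cmpA_eq]
    exact h

theorem kilN_eq {X : Root} {f : Fn} {L : List Rad} {w : Wd} {t : S7} {a1 a2 b1 b2 : ℕ}
    (h : kilN f L (yva a1 w) (yva a2 w) t.cv t.mv t.cu t.mu t.cq t.mq t.nq (Nat.sub a1 X.a)
      (Nat.sub a2 X.a) (Nat.sub b1 X.b) (Nat.sub b2 X.b) (Nat.sub a2 a1) = true) :
    ∃ r L', L = r :: L' ∧ gtF X f.flip w t r a1 a2 b1 b2 = true := by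
  rcases L with _ | ⟨r, L'⟩
  · exact absurd h (by simp [kilN])
  · refine ⟨r, L', rfl, ?_⟩
    rw [← cmpA_eq]
    exact h

theorem inA_eq (X : Root) (K : KD) (y1 y2 cv mv : ℕ) (r : Rad) (a1 a2 b1 b2 : ℕ) :
    inA K.M K.H K.bs K.Gb (Nat.mul K.M K.H) (errR r.ey r.ky (Nat.sub a2 a1)) y1 y2 cv mv r.rv
      (Nat.sub b1 X.b) (Nat.sub b2 X.b) = inK X K y1 y2 cv mv r a1 a2 b1 b2 := by
  have e : errR r.ey r.ky (Nat.sub a2 a1) = erry r a1 a2 := rfl
  rw [e]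
  unfold inK inA inB inC
  simp only [force_eq, mnR_eq, mxR_eq, an_eq]

theorem memR_eq {X : Root} {K : Option KD} {L : List Rad} {y1 y2 cv mv a1 a2 b1 b2 : ℕ}
    (h : memR K L y1 y2 cv mv (Nat.sub b1 X.b) (Nat.sub b2 X.b) (Nat.sub a2 a1) = true) :
    ∃ K' r L', K = some K' ∧ L = r :: L' ∧ inK X K' y1 y2 cv mv r a1 a2 b1 b2 = true := by
  rcases K with _ | K'
  · exact absurd h (by simp [memR])
  · rcases L with _ | ⟨r, L'⟩
    · exact absurd h (by simp [memR])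
    · refine ⟨K', r, L', rfl, rfl, ?_⟩
      rw [← inA_eq]
      exact h

/-- an invariant set which is good for the parameters -/
structure KV (K : KD) (α β : ℝ) : Prop where
  H : 0 < K.H
  blk : ∀ i, i < 2 * K.M → gd K.Gb (i / K.bs) ≤ gd K.G i
  near : ∀ w : Wd, K.Mem (yw α w) (yw β w) → Near (1 / α) (1 / β)

theorem mem_near {X : Root} (G : X.Good) {K : KD} {α β : ℝ} (hK : KV K α β) {w : Wd} {r : Rad}
    (hV : VI X β w r) (hY : YI X w r) {a1 a2 b1 b2 : ℕ}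
    (hXa : X.a ≤ a1) (ha2 : a2 ≤ X.a + X.da) (hXb : X.b ≤ b1)
    (ha1 : (a1 : ℝ) ≤ α * D) (ha2' : α * D ≤ a2) (hb1 : (b1 : ℝ) ≤ β * D) (hb2 : β * D ≤ b2)
    (h : inK X K (yva a1 w) (yva a2 w) (st X w).cv (st X w).mv r a1 a2 b1 b2 = true) :
    Near (1 / α) (1 / β) := by
  have h12 : a1 ≤ a2 := by
    have : (a1 : ℝ) ≤ a2 := ha1.trans ha2'
    exact_mod_cast this
  obtain ⟨q1, q2⟩ := hY.range G hXa h12 ha2 ha1 ha2'
  exact hK.near w (inK_mem hK.H hK.blk hV q1 q2 hb1 hb2 hXb h)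

theorem nthF_mem {F : List Fn} {k : Fn → Bool} : ∀ {j : ℕ}, nthF F j k = true →
    ∃ f ∈ F, k f = true := by
  induction F with
  | nil => intro j h; exact absurd h (by simp [nthF])
  | cons g F ih =>
    intro j h
    cases j with
    | zero => exact ⟨g, List.mem_cons_self, h⟩
    | succ j =>
      obtain ⟨f, hf, hk⟩ := ih (j := j) h
      exact ⟨f, List.mem_cons_of_mem _ hf, hk⟩

theorem pthR_mem {X : Root} {K : Option KD} {P : List Wd} {a1 a2 b1 b2 : ℕ} : ∀ {j : ℕ},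
    pthR X K P j a1 a2 b1 b2 = true → ∃ w ∈ P, memR K (rs X w) (yva a1 w) (yva a2 w)
      (st X w).cv (st X w).mv (Nat.sub b1 X.b) (Nat.sub b2 X.b) (Nat.sub a2 a1) = true := by
  induction P with
  | nil => intro j h; exact absurd h (by simp [pthR])
  | cons w P ih =>
    intro j h
    cases j with
    | zero =>
      refine ⟨w, List.mem_cons_self, ?_⟩
      rw [yva_eq, yva_eq]
      exact h
    | succ j =>
      obtain ⟨w', hw, hk⟩ := ih (j := j) h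
      exact ⟨w', List.mem_cons_of_mem _ hw, hk⟩

theorem okP_spec {X : Root} {P : List PW} (h : okP X P = true) : ∀ w ∈ List.map PW.w P,
    ∃ a : ℕ, X.a ≤ a ∧ a ≤ X.a + X.da ∧ good X a w = true := by
  induction P with
  | nil => intro w hw; exact absurd hw (by simp)
  | cons p P ih =>
    intro w hw
    have h' : an (an (Nat.ble X.a p.a) (Nat.ble p.a (Nat.add X.a X.da)))
      (an (good X p.a p.w) (okP X P)) = true := h
    rw [an_true, an_true, an_true] at h'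
    rw [List.map_cons] at hw
    rcases List.mem_cons.1 hw with rfl | hw
    · exact ⟨p.a, Nat.le_of_ble_eq_true h'.1.1, Nat.le_of_ble_eq_true h'.1.2, h'.2.1⟩
    · exact ih h'.2.2 w hw

section
variable {X : Root} {a : ℕ → ℝ} {α β : ℝ}

/-- soundness of the checker inside a box `Y` of the region `X` -/
theorem chkQ_sound {Y : Root} (GY : Y.Good) (hpY : Y.In α β) (G : X.Good) (hp : X.In α β)
    (h : Sq a α β) (hab : 2 < α * β) {F : List Fn}
    (hF : ∀ f ∈ F, ∀ n, |f.val (yw α (wd a n)) (yw β (wd a n)) (uw β (wd a n))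
      (qw α β (wd a n))| ≤ f.c) {K : Option KD} (hK : ∀ K', K = some K' → KV K' α β)
    {P : List Wd} (hP : ∀ w ∈ P, ∃ a : ℕ, X.a ≤ a ∧ a ≤ X.a + X.da ∧ good X a w = true)
    (hYa : X.a ≤ Y.a) (hYa2 : Y.a + Y.da ≤ X.a + X.da) (hYb : X.b ≤ Y.b) (c : Tq) :
    ∀ (n a1 a2 b1 b2 : ℕ), Y.a ≤ a1 → a2 ≤ Y.a + Y.da → Y.b ≤ b1 → b2 ≤ Y.b + Y.db →
      (a1 : ℝ) ≤ α * D → α * D ≤ a2 → (b1 : ℝ) ≤ β * D → β * D ≤ b2 →
      chkQ X F K P Y.a Y.za Y.b Y.zb c (wd a n) (rs Y (wd a n)) (yva a1 (wd a n))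
        (yva a2 (wd a n)) (st Y (wd a n)).cv (st Y (wd a n)).mv (st Y (wd a n)).cu
        (st Y (wd a n)).mu (st Y (wd a n)).cq (st Y (wd a n)).mq (st Y (wd a n)).nq
        a1 a2 b1 b2 = true → Near (1 / α) (1 / β) := by
  have hD := Dpos
  have hkill : ∀ (f : Fn), (f ∈ F ∨ f.flip ∈ F) → ∀ (n a1 a2 b1 b2 : ℕ) (r : Rad) (L : List Rad),
      rs Y (wd a n) = r :: L → Y.a ≤ a1 → a2 ≤ Y.a + Y.da → Y.b ≤ b1 → b2 ≤ Y.b + Y.db →
      (a1 : ℝ) ≤ α * D → α * D ≤ a2 → (b1 : ℝ) ≤ β * D → β * D ≤ b2 →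
      gtF Y f (wd a n) (st Y (wd a n)) r a1 a2 b1 b2 = true → False := by
    intro f hf n a1 a2 b1 b2 r L hr g1 g2 g3 g4 ha1 ha2 hb1 hb2 hk
    obtain ⟨hFI, hY⟩ := h.inv GY hpY n r L hr
    have h12 : a1 ≤ a2 := by
      have : (a1 : ℝ) ≤ a2 := ha1.trans ha2
      exact_mod_cast this
    have hrange := hY.range GY g1 h12 g2 ha1 ha2
    have hv := gtF_val f hFI hrange g1 g3 ha1 ha2 hb1 hb2 hk
    rcases hf with hf | hf
    · have hm := abs_le.1 (hF f hf n)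
      linarith
    · have hm := abs_le.1 (hF f.flip hf n)
      rw [Fn.val_flip] at hm
      have e : f.flip.c = f.c := rfl
      rw [e] at hm
      linarith
  induction c with
  | b =>
    intro n a1 a2 b1 b2 _ _ _ _ ha1 ha2 hb1 hb2 hc
    exfalso
    have e : Nat.ble (Nat.mul a2 b2) (Nat.mul 2 (Nat.mul D D)) = true := hc
    have k := ble_R e
    rw [cmul, cmul, cmul] at k
    have h1 : 0 < α * D := mul_pos (by linarith [h.ha1]) hD
    have h2 : 0 < β * D := mul_pos (by linarith [h.hb1]) hD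
    have h3 : α * D * (β * D) ≤ a2 * b2 := mul_le_mul ha2 hb2 h2.le (h1.le.trans ha2)
    have h4 : 2 * ((D : ℝ) * D) < α * D * (β * D) := by
      have := mul_lt_mul_of_pos_right hab (mul_pos hD hD)
      have e : α * D * (β * D) = α * β * (D * D) := by ring
      rw [e]; exact this
    push_cast at k
    linarith
  | k j =>
    intro n a1 a2 b1 b2 g1 g2 g3 g4 ha1 ha2 hb1 hb2 hc
    obtain ⟨f, hf, hk⟩ := nthF_mem (F := F) (j := j) hc
    obtain ⟨r, L, hr, hg⟩ := kilR_eq (X := Y) hk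
    exact (hkill f (Or.inl hf) n a1 a2 b1 b2 r L hr g1 g2 g3 g4 ha1 ha2 hb1 hb2 hg).elim
  | l j =>
    intro n a1 a2 b1 b2 g1 g2 g3 g4 ha1 ha2 hb1 hb2 hc
    obtain ⟨f, hf, hk⟩ := nthF_mem (F := F) (j := j) hc
    obtain ⟨r, L, hr, hg⟩ := kilN_eq (X := Y) hk
    exact (hkill f.flip (Or.inr hf) n a1 a2 b1 b2 r L hr g1 g2 g3 g4 ha1 ha2 hb1 hb2 hg).elim
  | i =>
    intro n a1 a2 b1 b2 g1 g2 g3 g4 ha1 ha2 hb1 hb2 hc
    obtain ⟨K', r, L, hK', hr, hin⟩ := memR_eq (X := Y) hc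
    obtain ⟨hFI, hY⟩ := h.inv GY hpY n r L hr
    exact mem_near GY (hK K' hK') hFI.toVI hY g1 g2 g3 ha1 ha2 hb1 hb2 hin
  | p j =>
    intro n a1 a2 b1 b2 g1 g2 g3 g4 ha1 ha2 hb1 hb2 hc
    obtain ⟨w, hw, hk⟩ := pthR_mem (X := X) (K := K) (P := P) (j := j) hc
    obtain ⟨K', r, L, hK', hr, hin⟩ := memR_eq (X := X) hk
    obtain ⟨a', k1, k2, hgood⟩ := hP w hw
    obtain ⟨hV, hY⟩ := path_inv G hp.2.2.1 hp.2.2.2 k1 k2 w hgood r L hr
    exact mem_near G (hK K' hK') hV hY (hYa.trans g1) (g2.trans hYa2) (hYb.trans g3) ha1 ha2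
      hb1 hb2 hin
  | g x y z hx hy hz =>
    intro n a1 a2 b1 b2 g1 g2 g3 g4 ha1 ha2 hb1 hb2 hc
    have hc' : an (chkQ X F K P Y.a Y.za Y.b Y.zb x (.m (wd a n)) (tlR (rs Y (wd a n)))
        (Nat.add (mulO (yva a1 (wd a n)) a1 (zof a1)) D)
        (Nat.add (mulO (yva a2 (wd a n)) a2 (zof a2)) D)
        (st Y (.m (wd a n))).cv (st Y (.m (wd a n))).mv (st Y (.m (wd a n))).cu
        (st Y (.m (wd a n))).mu (st Y (.m (wd a n))).cq (st Y (.m (wd a n))).mq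
        (st Y (.m (wd a n))).nq a1 a2 b1 b2)
      (an (chkQ X F K P Y.a Y.za Y.b Y.zb y (.o (wd a n)) (tlR (rs Y (wd a n)))
        (mulO (yva a1 (wd a n)) a1 (zof a1)) (mulO (yva a2 (wd a n)) a2 (zof a2))
        (st Y (.o (wd a n))).cv (st Y (.o (wd a n))).mv (st Y (.o (wd a n))).cu
        (st Y (.o (wd a n))).mu (st Y (.o (wd a n))).cq (st Y (.o (wd a n))).mq
        (st Y (.o (wd a n))).nq a1 a2 b1 b2)
      (chkQ X F K P Y.a Y.za Y.b Y.zb z (.p (wd a n)) (tlR (rs Y (wd a n)))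
        (Nat.sub (mulO (yva a1 (wd a n)) a1 (zof a1)) D)
        (Nat.sub (mulO (yva a2 (wd a n)) a2 (zof a2)) D)
        (st Y (.p (wd a n))).cv (st Y (.p (wd a n))).mv (st Y (.p (wd a n))).cu
        (st Y (.p (wd a n))).mu (st Y (.p (wd a n))).cq (st Y (.p (wd a n))).mq
        (st Y (.p (wd a n))).nq a1 a2 b1 b2)) = true := hc
    have ym : ∀ b : ℕ, Nat.add (mulO (yva b (wd a n)) b (zof b)) D = yva b (.m (wd a n)) := by
      intro b; rw [yva_eq, yva_eq]; rfl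
    have yo : ∀ b : ℕ, mulO (yva b (wd a n)) b (zof b) = yva b (.o (wd a n)) := by
      intro b; rw [yva_eq, yva_eq]; rfl
    have yp : ∀ b : ℕ, Nat.sub (mulO (yva b (wd a n)) b (zof b)) D = yva b (.p (wd a n)) := by
      intro b; rw [yva_eq, yva_eq]; rfl
    rw [ym, ym, yp, yp, yo, yo, tlR_eq] at hc'
    rw [an_true, an_true] at hc'
    have e : wd a (n + 1) = dg (a (n + 1)) (wd a n) := rfl
    rcases nxt_wd a n with hw | hw | hw
    · refine hx (n + 1) a1 a2 b1 b2 g1 g2 g3 g4 ha1 ha2 hb1 hb2 ?_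
      rw [hw]; exact hc'.1
    · refine hy (n + 1) a1 a2 b1 b2 g1 g2 g3 g4 ha1 ha2 hb1 hb2 ?_
      rw [hw]; exact hc'.2.1
    · refine hz (n + 1) a1 a2 b1 b2 g1 g2 g3 g4 ha1 ha2 hb1 hb2 ?_
      rw [hw]; exact hc'.2.2
  | s v x y hx hy =>
    intro n a1 a2 b1 b2 g1 g2 g3 g4 ha1 ha2 hb1 hb2 hc
    have hc' : an (an (Nat.ble a1 v) (Nat.ble v a2))
      (an (chkQ X F K P Y.a Y.za Y.b Y.zb x (wd a n) (rs Y (wd a n)) (yva a1 (wd a n))
        (yv v (zof v) (wd a n)) (st Y (wd a n)).cv (st Y (wd a n)).mv (st Y (wd a n)).cu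
        (st Y (wd a n)).mu (st Y (wd a n)).cq (st Y (wd a n)).mq (st Y (wd a n)).nq a1 v b1 b2)
      (chkQ X F K P Y.a Y.za Y.b Y.zb y (wd a n) (rs Y (wd a n)) (yv v (zof v) (wd a n))
        (yva a2 (wd a n)) (st Y (wd a n)).cv (st Y (wd a n)).mv (st Y (wd a n)).cu
        (st Y (wd a n)).mu (st Y (wd a n)).cq (st Y (wd a n)).mq (st Y (wd a n)).nq
        v a2 b1 b2)) = true := hc
    have yq : yv v (zof v) (wd a n) = yva v (wd a n) := by rw [yva_eq]; rfl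
    rw [yq, an_true, an_true, an_true] at hc'
    obtain ⟨⟨k1, k2⟩, k3, k4⟩ := hc'
    have k1' := Nat.le_of_ble_eq_true k1
    have k2' := Nat.le_of_ble_eq_true k2
    rcases le_total (α * D) (v : ℝ) with hle | hle
    · exact hx n a1 v b1 b2 g1 (k2'.trans g2) g3 g4 ha1 hle hb1 hb2 k3
    · exact hy n v a2 b1 b2 (g1.trans k1') g2 g3 g4 hle ha2 hb1 hb2 k4
  | t v x y hx hy =>
    intro n a1 a2 b1 b2 g1 g2 g3 g4 ha1 ha2 hb1 hb2 hc
    have hc' : an (an (Nat.ble b1 v) (Nat.ble v b2))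
      (an (chkQ X F K P Y.a Y.za Y.b Y.zb x (wd a n) (rs Y (wd a n)) (yva a1 (wd a n))
        (yva a2 (wd a n)) (st Y (wd a n)).cv (st Y (wd a n)).mv (st Y (wd a n)).cu
        (st Y (wd a n)).mu (st Y (wd a n)).cq (st Y (wd a n)).mq (st Y (wd a n)).nq a1 a2 b1 v)
      (chkQ X F K P Y.a Y.za Y.b Y.zb y (wd a n) (rs Y (wd a n)) (yva a1 (wd a n))
        (yva a2 (wd a n)) (st Y (wd a n)).cv (st Y (wd a n)).mv (st Y (wd a n)).cu
        (st Y (wd a n)).mu (st Y (wd a n)).cq (st Y (wd a n)).mq (st Y (wd a n)).nq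
        a1 a2 v b2)) = true := hc
    rw [an_true, an_true, an_true] at hc'
    obtain ⟨⟨k1, k2⟩, k3, k4⟩ := hc'
    have k1' := Nat.le_of_ble_eq_true k1
    have k2' := Nat.le_of_ble_eq_true k2
    rcases le_total (β * D) (v : ℝ) with hle | hle
    · exact hx n a1 a2 b1 v g1 g2 g3 (k2'.trans g4) ha1 ha2 hb1 hle k3
    · exact hy n a1 a2 v b2 g1 g2 (g3.trans k1') g4 ha1 ha2 hle hb2 k4

end

end Pool.Agent.Helper65.Conn
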