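import Pool.Agent.Helper65.Conn.ChkR
import Pool.Agent.Helper65.Conn.Join
import Pool.Agent.Helper31.ISO.FSound
import Pool.Agent.Helper31.ISO.Glue

/-!
# Slabs of parameters
-/

namespace Pool.Agent.Helper65.Conn

open Pool.Agent.Iso

theorem accSound : AccSound := by
  intro X G α β hp f J hf a h n
  have ha := h.ha
  have e := acc_sound G hp (f := f) (J := J) hf (y := fun n => yw α (wd a n))
    (v := fun n => yw β (wd a n)) (u := fun n => uw β (wd a n)) (q := fun n => qw α β (wd a n))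
    (c := a) (fun n => ha.abs_le n) (fun n => yw_dg α (ha.2 (n + 1)) (wd a n))
    (fun n => yw_dg β (ha.2 (n + 1)) (wd a n)) (fun n => uw_dg β (a (n + 1)) (wd a n))
    (fun n => qw_dg α β (a (n + 1)) (wd a n)) (h.by G hp) (h.bv G hp) (h.bu G hp) (h.bq G hp) n
  exact e

/-- all double zeros with `a1 ≤ α D ≤ a2` are near other common zeros -/
def Slab (a1 a2 : ℕ) : Prop := ∀ (a : ℕ → ℝ) (α β : ℝ), Sq a α β → 2 < α * β → β < α →
  (a1 : ℝ) ≤ α * D → α * D ≤ a2 → Near (1 / α) (1 / β)

theorem Slab.join {a1 v a2 : ℕ} (h1 : Slab a1 v) (h2 : Slab v a2) : Slab a1 a2 := by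
  intro a α β h hab hlt k1 k2
  rcases le_total (α * D) (v : ℝ) with hle | hle
  · exact h1 a α β h hab hlt k1 hle
  · exact h2 a α β h hab hlt hle k2

theorem Slab.of {a1 a2 b1 b2 : ℕ} (h : OK a1 a2 b1 b2)
    (k1 : Nat.ble (Nat.mul a2 b1) (Nat.mul 2 (Nat.mul D D)) = true) (k2 : Nat.ble a2 b2 = true) :
    Slab a1 a2 := by
  intro a α β hs hab hlt g1 g2
  obtain ⟨c, hc⟩ := h
  have hD := Dpos
  refine chkR_sound accSound hs hab hlt c a1 a2 b1 b2 g1 g2 ?_ ?_ hc
  · -- `b1 ≤ β D`
    have k := ble_R k1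
    rw [cmul, cmul, cmul] at k
    by_contra hcon
    push Not at hcon
    have h1 : 0 < α * D := mul_pos (by linarith [hs.ha1]) hD
    have h2 : 0 < β * D := mul_pos (by linarith [hs.hb1]) hD
    have h3 : α * D * (β * D) ≤ a2 * b1 := mul_le_mul g2 hcon.le h2.le (h1.le.trans g2)
    have h4 : 2 * ((D : ℝ) * D) < α * D * (β * D) := by
      have := mul_lt_mul_of_pos_right hab (mul_pos hD hD)
      have e : α * D * (β * D) = α * β * (D * D) := by ring
      rw [e]; exact this
    push_cast at k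
    linarith
  · have k := ble_R k2
    have := mul_lt_mul_of_pos_right hlt hD
    linarith

end Pool.Agent.Helper65.Conn
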