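import Pool.Agent.Helper65.Conn.RegS
import Pool.Agent.Helper65.Conn.JoinG
import Pool.Agent.Helper65.Conn.Slab

/-!
# Soundness of the outer certificates with regions
-/

namespace Pool.Agent.Helper65.Conn

open Pool.Agent.Iso

attribute [local irreducible] D Z ZD

theorem m1 {A A' x D : ℝ} (h : A' ≤ A) (hx : 0 ≤ x) (hD : 0 < D) : A' * x / D ≤ A * x / D :=
  div_le_div_of_nonneg_right (mul_le_mul_of_nonneg_right h hx) hD.le

theorem m3 {x d d' e e' D : ℝ} (h : d' ≤ d) (h' : e' ≤ e) (hx : 0 ≤ x) (hd : 0 ≤ d')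
    (he : 0 ≤ e') (hD : 0 < D) : x * d' / D * e' / D ≤ x * d / D * e / D := by
  have : 0 ≤ d := hd.trans h
  have : 0 ≤ x * d / D := by positivity
  gcongr

theorem m4 {x d d' D : ℝ} (h : d' ≤ d) (hx : 0 ≤ x) (hD : 0 < D) :
    x * d' / D ≤ x * d / D := by
  gcongr

theorem RS.mono {X Y : Root} {r r' : Rad} (h : RS X r r') (hA : Y.a + Y.da ≤ X.a + X.da)
    (hB : Y.b + Y.db ≤ X.b + X.db) (ha : Y.da ≤ X.da) (hb : Y.db ≤ X.db) (hT : Y.T = X.T)
    (hU : Y.U = X.U) (hU1 : Y.U1 = X.U1) (hQ : Y.Q = X.Q) : RS Y r r' := by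
  have hD := Dpos
  have hA' : (Y.a : ℝ) + Y.da ≤ X.a + X.da := by exact_mod_cast hA
  have hB' : (Y.b : ℝ) + Y.db ≤ X.b + X.db := by exact_mod_cast hB
  have ha' : (Y.da : ℝ) ≤ X.da := by exact_mod_cast ha
  have hb' : (Y.db : ℝ) ≤ X.db := by exact_mod_cast hb
  have n1 : (0 : ℝ) ≤ Y.da := Nat.cast_nonneg _
  have n2 : (0 : ℝ) ≤ Y.db := Nat.cast_nonneg _
  have e1 : (0 : ℝ) ≤ r.ey := Nat.cast_nonneg _
  have e2 : (0 : ℝ) ≤ r.ky := Nat.cast_nonneg _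
  have e3 : (0 : ℝ) ≤ r.My := Nat.cast_nonneg _
  have e4 : (0 : ℝ) ≤ r.rv := Nat.cast_nonneg _
  have e5 : (0 : ℝ) ≤ r.Mv := Nat.cast_nonneg _
  have e6 : (0 : ℝ) ≤ r.ru := Nat.cast_nonneg _
  have e7 : (0 : ℝ) ≤ r.Mu := Nat.cast_nonneg _
  have e8 : (0 : ℝ) ≤ r.rq := Nat.cast_nonneg _
  have e9 : (0 : ℝ) ≤ r.Mq := Nat.cast_nonneg _
  have e10 : (0 : ℝ) ≤ r.Nq := Nat.cast_nonneg _
  have e11 : (0 : ℝ) ≤ r'.Mu := Nat.cast_nonneg _
  have e12 : (0 : ℝ) ≤ r'.ru := Nat.cast_nonneg _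
  obtain ⟨rt, Mt, R1, R2, R3, R4⟩ := h.ru
  have eU : (0 : ℝ) ≤ X.U := Nat.cast_nonneg _
  have hX0 : (0 : ℝ) ≤ X.b + X.db := by positivity
  have hrt : 0 ≤ rt := by
    have k1 : (0 : ℝ) ≤ ((X.b : ℝ) + X.db) * r.rv / D := by positivity
    have k2 : (0 : ℝ) ≤ (r.Mv : ℝ) * X.db / D * X.db / D := by positivity
    linarith
  have hMt : 0 ≤ Mt := by
    have k1 : (0 : ℝ) ≤ ((X.b : ℝ) + X.db) * r.Mv / D := by positivity
    linarith
  have q1 := m1 hA' e1 hD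
  have q2 := m1 hA' e2 hD
  have q3 := m1 hA' e3 hD
  have q4 := m1 hB' e4 hD
  have q5 := m1 hB' e5 hD
  have q6 := m3 hb' hb' e5 n2 n2 hD
  have q7 := m4 ha' e3 hD
  have q8 := m1 hB' hrt hD
  have q9 := m1 hB' hMt hD
  have q10 := m3 hb' hb' hMt n2 n2 hD
  have q11 := m1 hA' (add_nonneg e8 e12) hD
  have q12 := m3 ha' ha' e9 n1 n1 hD
  have q13 := m3 hb' ha' (add_nonneg e10 e11) n2 n1 hD
  have q14 := m1 hA' e9 hD
  have q15 := m4 hb' (add_nonneg e10 e11) hD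
  have q16 := m1 hA' (add_nonneg e10 e11) hD
  have f1 := h.ey
  have f2 := h.ky
  have f3 := h.My
  have f4 := h.rv
  have f5 := h.Mv
  have f6 := h.rq
  have f7 := h.Mq
  have f8 := h.Nq
  refine ⟨by linarith, by linarith, ?_, by linarith, ?_, ⟨rt, Mt, by linarith, ?_, by linarith, ?_⟩,
    by linarith, ?_, by linarith, h.sum⟩
  · rw [hT]; linarith
  · rw [hU]; linarith
  · rw [hU]; linarith
  · rw [hU1]; linarith
  · rw [hQ]; linarith

theorem RSC.mono {X Y : Root} (hA : Y.a + Y.da ≤ X.a + X.da)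
    (hB : Y.b + Y.db ≤ X.b + X.db) (ha : Y.da ≤ X.da) (hb : Y.db ≤ X.db) (hT : Y.T = X.T)
    (hU : Y.U = X.U) (hU1 : Y.U1 = X.U1) (hQ : Y.Q = X.Q) : ∀ L : List Rad, RSC X L → RSC Y L := by
  intro L
  induction L with
  | nil => exact fun _ => trivial
  | cons r t ih =>
    rcases t with _ | ⟨r', t⟩
    · exact fun _ => trivial
    · intro h
      exact ⟨h.1.mono hA hB ha hb hT hU hU1 hQ, ih h.2⟩

/-- the reference box for the radii -/
def Root.xr (X : Root) (ds es : ℕ) : Root :=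
  ⟨Nat.sub (Nat.add X.a X.da) ds, ds, Nat.sub (Nat.add X.b X.db) es, es, 0, 0, X.T, X.U, X.U1,
    X.Q, []⟩

theorem radL_spec {X : Root} {ds es : ℕ} {rad : List Rad} (h : radL X ds es rad = true) :
    RSC (X.xr ds es) rad := by
  rcases rad with _ | ⟨r, t⟩
  · exact trivial
  · exact RSC.of t r h

/-- the box `[a1, a2] × [b1, b2]` inside the region -/
def Root.sub (X : Root) (rad : List Rad) (a1 a2 b1 b2 : ℕ) : Root :=
  ⟨a1, Nat.sub a2 a1, b1, Nat.sub b2 b1, zof a1, zof b1, X.T, X.U, X.U1, X.Q, rad⟩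

theorem sub_good {X : Root} (G : X.Good) {ds es : ℕ} (hds : ds ≤ D) (hes : es ≤ D)
    {rad : List Rad} (hR : RSC (X.xr ds es) rad) {a1 a2 b1 b2 : ℕ} (h1 : X.a ≤ a1)
    (h2 : a2 ≤ X.a + X.da) (h3 : X.b ≤ b1) (h4 : b2 ≤ X.b + X.db) (h12 : a1 ≤ a2) (h34 : b1 ≤ b2)
    (hd : a2 - a1 ≤ ds) (he : b2 - b1 ≤ es) : (X.sub rad a1 a2 b1 b2).Good := by
  have hDa := G.hDa
  have hDb := G.hDb
  have ea : a1 + (a2 - a1) = a2 := by omega
  have eb : b1 + (b2 - b1) = b2 := by omega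
  refine ⟨lt_of_lt_of_le hDa h1, lt_of_lt_of_le hDb h3, ?_, ?_, rfl, rfl, ?_, ?_, ?_, ?_,
    hd.trans hds, he.trans hes, ?_⟩
  · show a1 + (a2 - a1) ≤ 4 * D
    rw [ea]; exact h2.trans G.ha4
  · show b1 + (b2 - b1) ≤ 4 * D
    rw [eb]; exact h4.trans G.hb4
  · exact lt_of_lt_of_le G.hT (Nat.mul_le_mul_left _ (Nat.sub_le_sub_right h1 D))
  · exact lt_of_lt_of_le G.hU (Nat.mul_le_mul_left _ (Nat.sub_le_sub_right h3 D))
  · show b1 * b1 * D < X.U1 * ((b1 - D) * (b1 - D))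
    obtain ⟨p, hp⟩ : ∃ p, X.b = D + p := ⟨X.b - D, by omega⟩
    obtain ⟨q, hq⟩ : ∃ q, b1 = D + q := ⟨b1 - D, by omega⟩
    have hpq : p ≤ q := by omega
    have hp0 : 0 < p := by omega
    have h5 := G.hU1
    have e1 : X.b - D = p := by omega
    have e2 : b1 - D = q := by omega
    rw [e1] at h5
    rw [e2]
    have h6 : b1 * p ≤ X.b * q := by
      rw [hp, hq]
      have := Nat.mul_le_mul_left D hpq
      calc (D + q) * p = D * p + p * q := by ring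
        _ ≤ D * q + p * q := Nat.add_le_add_right this _
        _ = (D + p) * q := by ring
    have h7 : b1 * p * (b1 * p) ≤ X.b * q * (X.b * q) := Nat.mul_le_mul h6 h6
    have h8 : b1 * b1 * D * (p * p) < X.U1 * (q * q) * (p * p) := by
      calc b1 * b1 * D * (p * p) = (b1 * p * (b1 * p)) * D := by ring
        _ ≤ (X.b * q * (X.b * q)) * D := Nat.mul_le_mul_right _ h7
        _ = X.b * X.b * D * (q * q) := by ring
        _ < X.U1 * (p * p) * (q * q) :=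
            Nat.mul_lt_mul_of_pos_right h5 (by
              have : 0 < q := lt_of_lt_of_le hp0 hpq
              positivity)
        _ = X.U1 * (q * q) * (p * p) := by ring
    exact lt_of_mul_lt_mul_right h8 (Nat.zero_le _)
  · show X.U1 * a1 < X.Q * (a1 - D)
    obtain ⟨p, hp⟩ : ∃ p, X.a = D + p := ⟨X.a - D, by omega⟩
    obtain ⟨q, hq⟩ : ∃ q, a1 = D + q := ⟨a1 - D, by omega⟩
    have hpq : p ≤ q := by omega
    have hp0 : 0 < p := by omega
    have h5 := G.hQ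
    have e1 : X.a - D = p := by omega
    have e2 : a1 - D = q := by omega
    rw [e1] at h5
    rw [e2]
    have h6 : a1 * p ≤ X.a * q := by
      rw [hp, hq]
      have := Nat.mul_le_mul_left D hpq
      calc (D + q) * p = D * p + p * q := by ring
        _ ≤ D * q + p * q := Nat.add_le_add_right this _
        _ = (D + p) * q := by ring
    have h8 : X.U1 * a1 * p < X.Q * q * p := by
      calc X.U1 * a1 * p = X.U1 * (a1 * p) := by ring
        _ ≤ X.U1 * (X.a * q) := Nat.mul_le_mul_left _ h6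
        _ = X.U1 * X.a * q := by ring
        _ < X.Q * p * q := Nat.mul_lt_mul_of_pos_right h5 (lt_of_lt_of_le hp0 hpq)
        _ = X.Q * q * p := by ring
    exact lt_of_mul_lt_mul_right h8 (Nat.zero_le _)
  · refine RSC.mono (X := X.xr ds es) (Y := X.sub rad a1 a2 b1 b2) ?_ ?_ hd he rfl rfl rfl rfl
      rad hR
    · show a1 + (a2 - a1) ≤ (X.a + X.da - ds) + ds
      omega
    · show b1 + (b2 - b1) ≤ (X.b + X.db - es) + es
      omega

theorem half_absurd {a : ℕ → ℝ} {α β : ℝ} (h : Sq a α β) (hab : 2 < α * β) {a2 b2 : ℕ}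
    (ha2 : α * D ≤ a2) (hb2 : β * D ≤ b2)
    (e : Nat.ble (Nat.mul a2 b2) (Nat.mul 2 (Nat.mul D D)) = true) : False := by
  have hD := Dpos
  have k := ble_R e
  rw [cmul, cmul, cmul] at k
  have h1 : 0 < α * D := mul_pos (by linarith [h.ha1]) hD
  have h2 : 0 < β * D := mul_pos (by linarith [h.hb1]) hD
  have h3 : α * D * (β * D) ≤ a2 * b2 := mul_le_mul ha2 hb2 h2.le (h1.le.trans ha2)
  have h4 : 2 * ((D : ℝ) * D) < α * D * (β * D) := by
    have := mul_lt_mul_of_pos_right hab (mul_pos hD hD)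
    have e : α * D * (β * D) = α * β * (D * D) := by ring
    rw [e]; exact this
  push_cast at k
  linarith

theorem order_absurd {α β : ℝ} (hlt : β < α) {a2 b1 : ℕ} (ha2 : α * D ≤ a2)
    (hb1 : (b1 : ℝ) ≤ β * D) (e : Nat.ble a2 b1 = true) : False := by
  have hD := Dpos
  have k := ble_R e
  have : β * D < α * D := mul_lt_mul_of_pos_right hlt hD
  linarith

section
variable {X : Root} {a : ℕ → ℝ} {α β : ℝ}

theorem chkS_sound (G : X.Good) (hp : X.In α β) (h : Sq a α β) (hab : 2 < α * β)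
    (hlt : β < α) {F : List Fn}
    (hF : ∀ f ∈ F, ∀ n, |f.val (yw α (wd a n)) (yw β (wd a n)) (uw β (wd a n))
      (qw α β (wd a n))| ≤ f.c) {K : Option KD} (hK : ∀ K', K = some K' → KV K' α β)
    {P : List Wd} (hP : ∀ w ∈ P, ∃ a : ℕ, X.a ≤ a ∧ a ≤ X.a + X.da ∧ good X a w = true)
    (c : Sb) : ∀ (ds es : ℕ) (rad : List Rad) (a1 a2 b1 b2 : ℕ), ds ≤ D → es ≤ D →
      RSC (X.xr ds es) rad → X.a ≤ a1 → a2 ≤ X.a + X.da → X.b ≤ b1 → b2 ≤ X.b + X.db →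
      (a1 : ℝ) ≤ α * D → α * D ≤ a2 → (b1 : ℝ) ≤ β * D → β * D ≤ b2 →
      chkS X F K P c ds es rad a1 a2 b1 b2 = true → Near (1 / α) (1 / β) := by
  induction c with
  | b =>
    intro ds es rad a1 a2 b1 b2 _ _ _ _ _ _ _ ha1 ha2 hb1 hb2 hc
    exact (half_absurd h hab ha2 hb2 hc).elim
  | o =>
    intro ds es rad a1 a2 b1 b2 _ _ _ _ _ _ _ ha1 ha2 hb1 hb2 hc
    exact (order_absurd hlt ha2 hb1 hc).elim
  | c t =>
    intro ds es rad a1 a2 b1 b2 hds hes hR g1 g2 g3 g4 ha1 ha2 hb1 hb2 hc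
    have hc' : an (an (an (Nat.ble a1 a2) (Nat.ble b1 b2)) (an (Nat.ble (Nat.sub a2 a1) ds)
        (Nat.ble (Nat.sub b2 b1) es)))
        (chkQ X F K P a1 (zof a1) b1 (zof b1) t .e rad (Nat.sub Z D) (Nat.sub Z D) (Nat.sub Z D)
          Z Z Z Z Z Z a1 a2 b1 b2) = true := hc
    rw [an_true, an_true, an_true, an_true] at hc'
    obtain ⟨⟨⟨k1, k2⟩, k3, k4⟩, k5⟩ := hc'
    have h12 := Nat.le_of_ble_eq_true k1
    have h34 := Nat.le_of_ble_eq_true k2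
    have hd : a2 - a1 ≤ ds := Nat.le_of_ble_eq_true k3
    have he : b2 - b1 ≤ es := Nat.le_of_ble_eq_true k4
    have GY := sub_good G hds hes hR g1 g2 g3 g4 h12 h34 hd he
    have ea : a1 + (a2 - a1) = a2 := by omega
    have eb : b1 + (b2 - b1) = b2 := by omega
    have hpY : (X.sub rad a1 a2 b1 b2).In α β := by
      refine ⟨ha1, ?_, hb1, ?_⟩
      · have : ((a1 : ℝ) + ((a2 - a1 : ℕ) : ℝ)) = a2 := by exact_mod_cast ea
        show α * D ≤ (a1 : ℝ) + ((a2 - a1 : ℕ) : ℝ)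
        rw [this]; exact ha2
      · have : ((b1 : ℝ) + ((b2 - b1 : ℕ) : ℝ)) = b2 := by exact_mod_cast eb
        show β * D ≤ (b1 : ℝ) + ((b2 - b1 : ℕ) : ℝ)
        rw [this]; exact hb2
    refine chkQ_sound GY hpY G hp h hab hF hK hP g1 ?_ g3 t 0 a1 a2 b1 b2 le_rfl ?_ le_rfl ?_
      ha1 ha2 hb1 hb2 ?_
    · show a1 + (a2 - a1) ≤ X.a + X.da
      rw [ea]; exact g2
    · show a2 ≤ a1 + (a2 - a1)
      exact ea.ge
    · show b2 ≤ b1 + (b2 - b1)
      exact eb.ge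
    · have y1 : yva a1 (wd a 0) = Nat.sub Z D := by rw [yva_eq]; rfl
      have y2 : yva a2 (wd a 0) = Nat.sub Z D := by rw [yva_eq]; rfl
      rw [y1, y2]
      exact k5
  | q ds' es' rad' x ih =>
    intro ds es rad a1 a2 b1 b2 _ _ _ g1 g2 g3 g4 ha1 ha2 hb1 hb2 hc
    have hc' : an (an (an (Nat.ble ds' D) (Nat.ble es' D)) (radL X ds' es' rad'))
      (chkS X F K P x ds' es' rad' a1 a2 b1 b2) = true := hc
    rw [an_true, an_true, an_true] at hc'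
    obtain ⟨⟨⟨k1, k2⟩, k3⟩, k4⟩ := hc'
    exact ih ds' es' rad' a1 a2 b1 b2 (Nat.le_of_ble_eq_true k1) (Nat.le_of_ble_eq_true k2)
      (radL_spec k3) g1 g2 g3 g4 ha1 ha2 hb1 hb2 k4
  | s v x y hx hy =>
    intro ds es rad a1 a2 b1 b2 hds hes hR g1 g2 g3 g4 ha1 ha2 hb1 hb2 hc
    have hc' : an (an (Nat.ble a1 v) (Nat.ble v a2)) (an (chkS X F K P x ds es rad a1 v b1 b2)
      (chkS X F K P y ds es rad v a2 b1 b2)) = true := hc
    rw [an_true, an_true, an_true] at hc'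
    obtain ⟨⟨k1, k2⟩, k3, k4⟩ := hc'
    have k1' := Nat.le_of_ble_eq_true k1
    have k2' := Nat.le_of_ble_eq_true k2
    rcases le_total (α * D) (v : ℝ) with hle | hle
    · exact hx ds es rad a1 v b1 b2 hds hes hR g1 (k2'.trans g2) g3 g4 ha1 hle hb1 hb2 k3
    · exact hy ds es rad v a2 b1 b2 hds hes hR (g1.trans k1') g2 g3 g4 hle ha2 hb1 hb2 k4
  | t v x y hx hy =>
    intro ds es rad a1 a2 b1 b2 hds hes hR g1 g2 g3 g4 ha1 ha2 hb1 hb2 hc
    have hc' : an (an (Nat.ble b1 v) (Nat.ble v b2)) (an (chkS X F K P x ds es rad a1 a2 b1 v)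
      (chkS X F K P y ds es rad a1 a2 v b2)) = true := hc
    rw [an_true, an_true, an_true] at hc'
    obtain ⟨⟨k1, k2⟩, k3, k4⟩ := hc'
    have k1' := Nat.le_of_ble_eq_true k1
    have k2' := Nat.le_of_ble_eq_true k2
    rcases le_total (β * D) (v : ℝ) with hle | hle
    · exact hx ds es rad a1 a2 b1 v hds hes hR g1 g2 g3 (k2'.trans g4) ha1 ha2 hb1 hle k3
    · exact hy ds es rad a1 a2 v b2 hds hes hR g1 g2 (g3.trans k1') g4 ha1 ha2 hle hb2 k4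

end

theorem chkG_sound {a : ℕ → ℝ} {α β : ℝ} (h : Sq a α β) (hab : 2 < α * β) (hlt : β < α)
    (c : Rg) : ∀ (K : Option KD) (a1 a2 b1 b2 : ℕ), (∀ K', K = some K' → KV K' α β) →
      (a1 : ℝ) ≤ α * D → α * D ≤ a2 → (b1 : ℝ) ≤ β * D → β * D ≤ b2 →
      chkG c K a1 a2 b1 b2 = true → Near (1 / α) (1 / β) := by
  have hin : ∀ (X : Root) (a1 a2 b1 b2 : ℕ), X.a ≤ a1 → a2 ≤ X.a + X.da → X.b ≤ b1 →
      b2 ≤ X.b + X.db → (a1 : ℝ) ≤ α * D → α * D ≤ a2 → (b1 : ℝ) ≤ β * D → β * D ≤ b2 →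
      X.In α β := by
    intro X a1 a2 b1 b2 g1 g2 g3 g4 ha1 ha2 hb1 hb2
    have g1R : (X.a : ℝ) ≤ a1 := by exact_mod_cast g1
    have g2R : (a2 : ℝ) ≤ X.a + X.da := by exact_mod_cast g2
    have g3R : (X.b : ℝ) ≤ b1 := by exact_mod_cast g3
    have g4R : (b2 : ℝ) ≤ X.b + X.db := by exact_mod_cast g4
    exact ⟨by linarith, by linarith, by linarith, by linarith⟩
  induction c with
  | b =>
    intro K a1 a2 b1 b2 _ ha1 ha2 hb1 hb2 hc
    exact (half_absurd h hab ha2 hb2 hc).elim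
  | o =>
    intro K a1 a2 b1 b2 _ ha1 ha2 hb1 hb2 hc
    exact (order_absurd hlt ha2 hb1 hc).elim
  | k X K x ih =>
    intro K₀ a1 a2 b1 b2 _ ha1 ha2 hb1 hb2 hc
    have hc' : an (an (an (Nat.ble X.a a1) (Nat.ble a2 (Nat.add X.a X.da)))
        (an (Nat.ble X.b b1) (Nat.ble b2 (Nat.add X.b X.db))))
      (an (an (Nat.blt D X.a) (Nat.blt D X.b)) (an (KD.ok X K)
        (chkG x (some K) a1 a2 b1 b2))) = true := hc
    simp only [an_true] at hc'
    obtain ⟨⟨⟨k1, k2⟩, k3, k4⟩, ⟨k5, k6⟩, k7, k8⟩ := hc'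
    have hp := hin X a1 a2 b1 b2 (Nat.le_of_ble_eq_true k1) (Nat.le_of_ble_eq_true k2)
      (Nat.le_of_ble_eq_true k3) (Nat.le_of_ble_eq_true k4) ha1 ha2 hb1 hb2
    refine ih (some K) a1 a2 b1 b2 ?_ ha1 ha2 hb1 hb2 k8
    intro K' hK'
    obtain rfl : K = K' := Option.some.inj hK'
    exact ⟨(KD.ok_spec k7).1, KD.ok_blocks k7, fun w hw =>
      near_of_mem (by simpa using k5) (by simpa using k6) k7 hp hab h.hne hw⟩
  | r X J F P x =>
    intro K a1 a2 b1 b2 hK ha1 ha2 hb1 hb2 hc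
    have hc' : an (an (an (Nat.ble X.a a1) (Nat.ble a2 (Nat.add X.a X.da)))
        (an (Nat.ble X.b b1) (Nat.ble b2 (Nat.add X.b X.db))))
      (an (an X.ok (allF X J F)) (an (okP X P)
        (chkS X F K (List.map PW.w P) x 0 0 [] a1 a2 b1 b2))) = true := hc
    simp only [an_true] at hc'
    obtain ⟨⟨⟨k1, k2⟩, k3, k4⟩, ⟨k5, k6⟩, k7, k8⟩ := hc'
    have g1 := Nat.le_of_ble_eq_true k1
    have g2 : a2 ≤ X.a + X.da := Nat.le_of_ble_eq_true k2
    have g3 := Nat.le_of_ble_eq_true k3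
    have g4 : b2 ≤ X.b + X.db := Nat.le_of_ble_eq_true k4
    have G := Root.ok_good k5
    have hp := hin X a1 a2 b1 b2 g1 g2 g3 g4 ha1 ha2 hb1 hb2
    exact chkS_sound G hp h hab hlt
      (fun f hf n => accSound X G α β hp f J (allF_spec k6 f hf) a h n) hK (okP_spec k7) x 0 0 []
      a1 a2 b1 b2 (Nat.zero_le _) (Nat.zero_le _) trivial g1 g2 g3 g4 ha1 ha2 hb1 hb2 k8
  | s v x y hx hy =>
    intro K a1 a2 b1 b2 hK ha1 ha2 hb1 hb2 hc
    have hc' : an (an (Nat.ble a1 v) (Nat.ble v a2)) (an (chkG x K a1 v b1 b2)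
      (chkG y K v a2 b1 b2)) = true := hc
    rw [an_true, an_true, an_true] at hc'
    obtain ⟨⟨k1, k2⟩, k3, k4⟩ := hc'
    rcases le_total (α * D) (v : ℝ) with hle | hle
    · exact hx K a1 v b1 b2 hK ha1 hle hb1 hb2 k3
    · exact hy K v a2 b1 b2 hK hle ha2 hb1 hb2 k4
  | t v x y hx hy =>
    intro K a1 a2 b1 b2 hK ha1 ha2 hb1 hb2 hc
    have hc' : an (an (Nat.ble b1 v) (Nat.ble v b2)) (an (chkG x K a1 a2 b1 v)
      (chkG y K a1 a2 v b2)) = true := hc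
    rw [an_true, an_true, an_true] at hc'
    obtain ⟨⟨k1, k2⟩, k3, k4⟩ := hc'
    rcases le_total (β * D) (v : ℝ) with hle | hle
    · exact hx K a1 a2 b1 v hK ha1 ha2 hb1 hle k3
    · exact hy K a1 a2 v b2 hK ha1 ha2 hle hb2 k4

/-- a rectangle in which all double zeros are near other common zeros -/
def Cov (a1 a2 b1 b2 : ℕ) : Prop := ∀ (a : ℕ → ℝ) (α β : ℝ), Sq a α β → 2 < α * β → β < α →
  (a1 : ℝ) ≤ α * D → α * D ≤ a2 → (b1 : ℝ) ≤ β * D → β * D ≤ b2 → Near (1 / α) (1 / β)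

theorem Cov.of {a1 a2 b1 b2 : ℕ} (h : OK a1 a2 b1 b2) : Cov a1 a2 b1 b2 := by
  intro a α β hs hab hlt g1 g2 g3 g4
  obtain ⟨c, hc⟩ := h
  exact chkR_sound accSound hs hab hlt c a1 a2 b1 b2 g1 g2 g3 g4 hc

theorem Cov.ofG {a1 a2 b1 b2 : ℕ} (h : OKG a1 a2 b1 b2) : Cov a1 a2 b1 b2 := by
  intro a α β hs hab hlt g1 g2 g3 g4
  obtain ⟨c, hc⟩ := h
  exact chkG_sound hs hab hlt c none a1 a2 b1 b2 (fun _ h => absurd h (by simp)) g1 g2 g3 g4 hc

theorem Cov.joinb {a1 a2 b1 v b2 : ℕ} (h1 : Cov a1 a2 b1 v) (h2 : Cov a1 a2 v b2) :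
    Cov a1 a2 b1 b2 := by
  intro a α β h hab hlt k1 k2 k3 k4
  rcases le_total (β * D) (v : ℝ) with hle | hle
  · exact h1 a α β h hab hlt k1 k2 k3 hle
  · exact h2 a α β h hab hlt k1 k2 hle k4

theorem Cov.joina {a1 v a2 b1 b2 : ℕ} (h1 : Cov a1 v b1 b2) (h2 : Cov v a2 b1 b2) :
    Cov a1 a2 b1 b2 := by
  intro a α β h hab hlt k1 k2 k3 k4
  rcases le_total (α * D) (v : ℝ) with hle | hle
  · exact h1 a α β h hab hlt k1 hle k3 k4
  · exact h2 a α β h hab hlt hle k2 k3 k4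

theorem Slab.ofC {a1 a2 b1 b2 : ℕ} (h : Cov a1 a2 b1 b2)
    (k1 : Nat.ble (Nat.mul a2 b1) (Nat.mul 2 (Nat.mul D D)) = true) (k2 : Nat.ble a2 b2 = true) :
    Slab a1 a2 := by
  intro a α β hs hab hlt g1 g2
  have hD := Dpos
  refine h a α β hs hab hlt g1 g2 ?_ ?_
  · by_contra hcon
    push Not at hcon
    exact half_absurd hs hab g2 hcon.le k1
  · have k := ble_R k2
    have := mul_lt_mul_of_pos_right hlt hD
    linarith

end Pool.Agent.Helper65.Conn
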