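import Pool.Agent.Helper65.Conn.Real

/-!
# The states of a coefficient sequence
-/

namespace Pool.Agent.Helper65.Conn

open Pool.Agent.Iso Filter Topology

/-- `∑_{j ≥ 1} a (n + j) x ^ j` -/
noncomputable def tl (a : ℕ → ℝ) (x : ℝ) (n : ℕ) : ℝ := ∑' j : ℕ, a (n + 1 + j) * x ^ (j + 1)

/-- its derivative -/
noncomputable def dl (a : ℕ → ℝ) (x : ℝ) (n : ℕ) : ℝ :=
  ∑' j : ℕ, ((j : ℝ) + 1) * a (n + 1 + j) * x ^ j

section
variable {a : ℕ → ℝ} {x : ℝ}

theorem hasSum_geo1 (h0 : 0 < x) (h1 : x < 1) : HasSum (fun j : ℕ => x ^ (j + 1)) (x / (1 - x)) := by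
  have := (hasSum_geometric_of_lt_one h0.le h1).mul_left x
  have e : (fun i : ℕ => x * x ^ i) = fun j : ℕ => x ^ (j + 1) := by
    funext j; rw [pow_succ']
  rw [e] at this
  rwa [div_eq_mul_inv]

theorem hasSum_dgeo (h0 : 0 < x) (h1 : x < 1) :
    HasSum (fun j : ℕ => ((j : ℝ) + 1) * x ^ j) (1 / (1 - x) ^ 2) := by
  have hn : ‖x‖ < 1 := by rw [Real.norm_of_nonneg h0.le]; exact h1
  have s1 := hasSum_coe_mul_geometric_of_norm_lt_one hn
  have s2 := hasSum_geometric_of_norm_lt_one hn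
  have s3 := s1.add s2
  have hx : (1 - x) ≠ 0 := by linarith
  have e1 : x / (1 - x) ^ 2 + (1 - x)⁻¹ = 1 / (1 - x) ^ 2 := by field_simp; ring
  rw [e1] at s3
  refine s3.congr_fun ?_ |> fun h => h
  intro j
  ring

theorem summ_tl (ha : IsB a) (h0 : 0 < x) (h1 : x < 1) (n : ℕ) :
    Summable (fun j : ℕ => a (n + 1 + j) * x ^ (j + 1)) := by
  refine Summable.of_norm_bounded (hasSum_geo1 h0 h1).summable ?_
  intro j
  rw [norm_mul, Real.norm_eq_abs, Real.norm_of_nonneg (by positivity : (0 : ℝ) ≤ x ^ (j + 1))]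
  have := ha.abs_le (n + 1 + j)
  have h2 : (0 : ℝ) ≤ x ^ (j + 1) := by positivity
  nlinarith

theorem summ_dl (ha : IsB a) (h0 : 0 < x) (h1 : x < 1) (n : ℕ) :
    Summable (fun j : ℕ => ((j : ℝ) + 1) * a (n + 1 + j) * x ^ j) := by
  refine Summable.of_norm_bounded (hasSum_dgeo h0 h1).summable ?_
  intro j
  have hj : (0 : ℝ) ≤ (j : ℝ) + 1 := by positivity
  rw [norm_mul, norm_mul, Real.norm_of_nonneg hj, Real.norm_eq_abs,
    Real.norm_of_nonneg (by positivity : (0 : ℝ) ≤ x ^ j)]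
  have := ha.abs_le (n + 1 + j)
  have h2 : (0 : ℝ) ≤ x ^ j := by positivity
  have h3 : (0 : ℝ) ≤ ((j : ℝ) + 1) * x ^ j := by positivity
  nlinarith

theorem tl_abs (ha : IsB a) (h0 : 0 < x) (h1 : x < 1) (n : ℕ) : |tl a x n| ≤ x / (1 - x) := by
  have h := hasSum_geo1 h0 h1
  rw [← Real.norm_eq_abs]
  refine tsum_of_norm_bounded h ?_
  intro j
  rw [norm_mul, Real.norm_eq_abs, Real.norm_of_nonneg (by positivity : (0 : ℝ) ≤ x ^ (j + 1))]
  have := ha.abs_le (n + 1 + j)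
  have h2 : (0 : ℝ) ≤ x ^ (j + 1) := by positivity
  nlinarith

theorem dl_abs (ha : IsB a) (h0 : 0 < x) (h1 : x < 1) (n : ℕ) : |dl a x n| ≤ 1 / (1 - x) ^ 2 := by
  have h := hasSum_dgeo h0 h1
  rw [← Real.norm_eq_abs]
  refine tsum_of_norm_bounded h ?_
  intro j
  have hj : (0 : ℝ) ≤ (j : ℝ) + 1 := by positivity
  rw [norm_mul, norm_mul, Real.norm_of_nonneg hj, Real.norm_eq_abs,
    Real.norm_of_nonneg (by positivity : (0 : ℝ) ≤ x ^ j)]
  have := ha.abs_le (n + 1 + j)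
  have h2 : (0 : ℝ) ≤ x ^ j := by positivity
  have h3 : (0 : ℝ) ≤ ((j : ℝ) + 1) * x ^ j := by positivity
  nlinarith

theorem tl_rec (ha : IsB a) (h0 : 0 < x) (h1 : x < 1) (n : ℕ) :
    tl a x n = x * (a (n + 1) + tl a x (n + 1)) := by
  unfold tl
  rw [(summ_tl ha h0 h1 n).tsum_eq_zero_add]
  have e : (fun j : ℕ => a (n + 1 + (j + 1)) * x ^ (j + 1 + 1)) =
      fun j : ℕ => x * (a (n + 1 + 1 + j) * x ^ (j + 1)) := by
    funext j
    rw [show n + 1 + (j + 1) = n + 1 + 1 + j by ring, pow_succ x (j + 1)]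
    ring
  rw [e, tsum_mul_left]
  simp only [add_zero, zero_add, pow_one]
  ring

theorem dl_rec (ha : IsB a) (h0 : 0 < x) (h1 : x < 1) (n : ℕ) :
    dl a x n = a (n + 1) + tl a x (n + 1) + x * dl a x (n + 1) := by
  unfold dl
  rw [(summ_dl ha h0 h1 n).tsum_eq_zero_add]
  have e : (fun j : ℕ => (((j + 1 : ℕ) : ℝ) + 1) * a (n + 1 + (j + 1)) * x ^ (j + 1)) =
      fun j : ℕ => a (n + 1 + 1 + j) * x ^ (j + 1) +
        x * (((j : ℝ) + 1) * a (n + 1 + 1 + j) * x ^ j) := by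
    funext j
    rw [show n + 1 + (j + 1) = n + 1 + 1 + j by ring]
    push_cast
    ring
  rw [e, ((summ_tl ha h0 h1 (n + 1))).tsum_add ((summ_dl ha h0 h1 (n + 1)).mul_left x),
    tsum_mul_left]
  simp only [Nat.cast_zero, zero_add, one_mul, add_zero, pow_zero, mul_one]
  unfold tl
  ring

theorem ev_tl (ha : IsB a) (h0 : 0 < x) (h1 : x < 1) (h : ev a x = 0) : tl a x 0 = -1 := by
  have s : Summable (fun n : ℕ => a n * x ^ n) := by
    rw [← summable_nat_add_iff 1]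
    have := summ_tl ha h0 h1 0
    refine this.congr ?_
    intro j
    rw [show 0 + 1 + j = j + 1 by ring]
  unfold ev at h
  rw [s.tsum_eq_zero_add] at h
  have e : (fun j : ℕ => a (j + 1) * x ^ (j + 1)) = fun j : ℕ => a (0 + 1 + j) * x ^ (j + 1) := by
    funext j
    rw [show 0 + 1 + j = j + 1 by ring]
  rw [e] at h
  unfold tl
  rw [ha.1] at h
  simp only [pow_zero, mul_one] at h
  linarith

theorem dv_dl (ha : IsB a) (h0 : 0 < x) (h1 : x < 1) (h : dv a x = 0) : dl a x 0 = 0 := by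
  have s : Summable (fun n : ℕ => (n : ℝ) * a n * x ^ n) := by
    rw [← summable_nat_add_iff 1]
    have := (summ_dl ha h0 h1 0).mul_left x
    refine this.congr ?_
    intro j
    rw [show 0 + 1 + j = j + 1 by ring]
    push_cast
    ring
  unfold dv at h
  rw [s.tsum_eq_zero_add] at h
  have e : (fun j : ℕ => ((j + 1 : ℕ) : ℝ) * a (j + 1) * x ^ (j + 1)) =
      fun j : ℕ => x * (((j : ℝ) + 1) * a (0 + 1 + j) * x ^ j) := by
    funext j
    rw [show 0 + 1 + j = j + 1 by ring]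
    push_cast
    ring
  rw [e, tsum_mul_left] at h
  simp only [Nat.cast_zero, zero_mul, zero_add] at h
  unfold dl
  rcases mul_eq_zero.1 h with h | h
  · linarith
  · exact h

end

/-- the word of the first `n` digits -/
noncomputable def dg (r : ℝ) (w : Wd) : Wd :=
  open Classical in if r = -1 then .m w else if r = 0 then .o w else .p w

noncomputable def wd (a : ℕ → ℝ) : ℕ → Wd
  | 0 => .e
  | n + 1 => dg (a (n + 1)) (wd a n)

/-- derivative state: `u' = β (u - β v)` -/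
noncomputable def uw (β : ℝ) : Wd → ℝ
  | .e => 0
  | .m w => β * (uw β w - β * yw β w)
  | .o w => β * (uw β w - β * yw β w)
  | .p w => β * (uw β w - β * yw β w)

/-- divided difference state: `q' = α (q - u')` -/
noncomputable def qw (α β : ℝ) : Wd → ℝ
  | .e => 0
  | .m w => α * (qw α β w - β * (uw β w - β * yw β w))
  | .o w => α * (qw α β w - β * (uw β w - β * yw β w))
  | .p w => α * (qw α β w - β * (uw β w - β * yw β w))

theorem yw_dg (α : ℝ) {r : ℝ} (hr : r = -1 ∨ r = 0 ∨ r = 1) (w : Wd) :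
    yw α (dg r w) = α * yw α w - r := by
  rcases hr with rfl | rfl | rfl
  · simp [dg, yw]
  · simp [dg, yw]
  · have : ¬ ((1 : ℝ) = -1) := by norm_num
    simp [dg, yw, this]

theorem uw_dg (β : ℝ) (r : ℝ) (w : Wd) :
    uw β (dg r w) = β * (uw β w - β * yw β w) := by
  unfold dg
  split_ifs <;> rfl

theorem qw_dg (α β : ℝ) (r : ℝ) (w : Wd) :
    qw α β (dg r w) = α * (qw α β w - uw β (dg r w)) := by
  rw [uw_dg]
  unfold dg
  split_ifs <;> rfl

section
variable {a : ℕ → ℝ} {x g l : ℝ}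

theorem yw_wd (ha : IsB a) (h0 : 0 < x) (h1 : x < 1) (h : ev a x = 0) (n : ℕ) :
    yw (1 / x) (wd a n) = tl a x n := by
  induction n with
  | zero => rw [ev_tl ha h0 h1 h]; rfl
  | succ n ih =>
    show yw (1 / x) (dg (a (n + 1)) (wd a n)) = _
    rw [yw_dg _ (ha.2 (n + 1)), ih, tl_rec ha h0 h1 n]
    field_simp
    ring

theorem uw_wd (ha : IsB a) (h0 : 0 < x) (h1 : x < 1) (h : ev a x = 0) (h' : dv a x = 0) (n : ℕ) :
    uw (1 / x) (wd a n) = dl a x n := by
  induction n with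
  | zero => rw [dv_dl ha h0 h1 h']; rfl
  | succ n ih =>
    show uw (1 / x) (dg (a (n + 1)) (wd a n)) = _
    rw [uw_dg, ih, yw_wd ha h0 h1 h, dl_rec ha h0 h1 n, tl_rec ha h0 h1 n]
    field_simp
    ring

theorem qw_wd (ha : IsB a) (g0 : 0 < g) (g1 : g < 1) (l0 : 0 < l) (l1 : l < 1) (hne : g ≠ l)
    (h : ev a g = 0) (h2 : ev a l = 0) (h3 : dv a l = 0) (n : ℕ) :
    qw (1 / g) (1 / l) (wd a n) = (tl a g n - tl a l n + (l - g) * dl a l n) / (l - g) ^ 2 := by
  have hne' : l - g ≠ 0 := sub_ne_zero.2 (Ne.symm hne)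
  induction n with
  | zero =>
    rw [ev_tl ha g0 g1 h, ev_tl ha l0 l1 h2, dv_dl ha l0 l1 h3]
    show (0 : ℝ) = _
    simp
  | succ n ih =>
    show qw (1 / g) (1 / l) (dg (a (n + 1)) (wd a n)) = _
    have e : uw (1 / l) (dg (a (n + 1)) (wd a n)) = dl a l (n + 1) :=
      uw_wd ha l0 l1 h2 h3 (n + 1)
    rw [qw_dg, e, ih, dl_rec ha l0 l1 n, tl_rec ha l0 l1 n, tl_rec ha g0 g1 n]
    field_simp
    ring

theorem qw_bd (ha : IsB a) (g0 : 0 < g) (g1 : g < 1) (l0 : 0 < l) (l1 : l < 1) (hne : g ≠ l)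
    (h : ev a g = 0) (h2 : ev a l = 0) (h3 : dv a l = 0) (n : ℕ) :
    |qw (1 / g) (1 / l) (wd a n)| ≤ 1 / (1 - l) ^ 2 / (1 - g) := by
  obtain ⟨C, hC⟩ : ∃ C : ℝ, ∀ n, |qw (1 / g) (1 / l) (wd a n)| ≤ C := by
    refine ⟨(g / (1 - g) + l / (1 - l) + |l - g| * (1 / (1 - l) ^ 2)) / (l - g) ^ 2, fun n => ?_⟩
    rw [qw_wd ha g0 g1 l0 l1 hne h h2 h3 n, abs_div, abs_of_nonneg (sq_nonneg (l - g))]
    apply div_le_div_of_nonneg_right _ (sq_nonneg _)
    have b1 := tl_abs ha g0 g1 n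
    have b2 := tl_abs ha l0 l1 n
    have b3 := dl_abs ha l0 l1 n
    calc |tl a g n - tl a l n + (l - g) * dl a l n|
        ≤ |tl a g n - tl a l n| + |(l - g) * dl a l n| := abs_add_le _ _
      _ ≤ (|tl a g n| + |tl a l n|) + |l - g| * |dl a l n| := by
          rw [abs_mul]
          have := abs_sub (tl a g n) (tl a l n)
          linarith
      _ ≤ _ := by
          have := mul_le_mul_of_nonneg_left b3 (abs_nonneg (l - g))
          linarith
  have hstep : ∀ n, qw (1 / g) (1 / l) (wd a n) =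
      g * qw (1 / g) (1 / l) (wd a (n + 1)) + dl a l (n + 1) := by
    intro n
    have e : uw (1 / l) (dg (a (n + 1)) (wd a n)) = dl a l (n + 1) :=
      uw_wd ha l0 l1 h2 h3 (n + 1)
    show _ = g * qw (1 / g) (1 / l) (dg (a (n + 1)) (wd a n)) + _
    rw [qw_dg, e]
    field_simp
    ring
  have hM : ∀ m n, |qw (1 / g) (1 / l) (wd a n)| ≤
      g ^ m * C + 1 / (1 - l) ^ 2 / (1 - g) := by
    have hU : 0 < 1 - l := by linarith
    have hT : 0 < 1 - g := by linarith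
    intro m
    induction m with
    | zero =>
      intro n
      have := hC n
      have : (0 : ℝ) ≤ 1 / (1 - l) ^ 2 / (1 - g) := by positivity
      simp only [pow_zero, one_mul]
      linarith [hC n]
    | succ m ih =>
      intro n
      rw [hstep n]
      have b3 := dl_abs ha l0 l1 (n + 1)
      have b4 := ih (n + 1)
      calc |g * qw (1 / g) (1 / l) (wd a (n + 1)) + dl a l (n + 1)|
          ≤ g * |qw (1 / g) (1 / l) (wd a (n + 1))| + |dl a l (n + 1)| := by
            have := abs_add_le (g * qw (1 / g) (1 / l) (wd a (n + 1))) (dl a l (n + 1))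
            rw [abs_mul, abs_of_pos g0] at this
            exact this
        _ ≤ g * (g ^ m * C + 1 / (1 - l) ^ 2 / (1 - g)) + 1 / (1 - l) ^ 2 := by
            have := mul_le_mul_of_nonneg_left b4 g0.le
            linarith
        _ = g ^ (m + 1) * C + 1 / (1 - l) ^ 2 / (1 - g) := by
            field_simp
            ring
  have hlim : Tendsto (fun m : ℕ => g ^ m * C + 1 / (1 - l) ^ 2 / (1 - g)) atTop
      (𝓝 (0 * C + 1 / (1 - l) ^ 2 / (1 - g))) :=
    ((tendsto_pow_atTop_nhds_zero_of_lt_one g0.le g1).mul_const C).add_const _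
  rw [zero_mul, zero_add] at hlim
  exact ge_of_tendsto' hlim (fun m => hM m n)

end

end Pool.Agent.Helper65.Conn
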