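import Pool.Agent.Helper65.Conn.ModelI

/-!
# Soundness of the certificates
-/

namespace Pool.Agent.Helper65.Conn

open Pool.Agent.Iso

attribute [local irreducible] D Z ZD

theorem nth_mem {F : List Fn} : ∀ {j : ℕ} {f : Fn}, nth F j = some f → f ∈ F := by
  induction F with
  | nil => intro j f h; exact absurd h (by simp [nth])
  | cons g F ih =>
    intro j f h
    cases j with
    | zero =>
      have : some g = some f := h
      rw [Option.some.injEq] at this
      rw [this]; exact List.mem_cons_self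
    | succ j =>
      have : nth F j = some f := h
      exact List.mem_cons_of_mem _ (ih this)

section
variable {X : Root} {a : ℕ → ℝ} {α β : ℝ}

theorem killw_false (G : X.Good) (hp : X.In α β) (h : Sq a α β) {F : List Fn}
    (hF : ∀ f ∈ F, ∀ n, |f.val (yw α (wd a n)) (yw β (wd a n)) (uw β (wd a n))
      (qw α β (wd a n))| ≤ f.c) {j n : ℕ} {neg : Bool} {a1 a2 b1 b2 : ℕ}
    (hXa : X.a ≤ a1) (ha2 : a2 ≤ X.a + X.da) (hXb : X.b ≤ b1)
    (ha1 : (a1 : ℝ) ≤ α * D) (ha2' : α * D ≤ a2) (hb1 : (b1 : ℝ) ≤ β * D) (hb2 : β * D ≤ b2)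
    (hk : killw X (nth F j) (wd a n) neg a1 a2 b1 b2 = true) : False := by
  rcases hf : nth F j with _ | f
  · rw [hf] at hk
    exact absurd hk (by simp [killw])
  · rw [hf] at hk
    have hmem := hF f (nth_mem hf) n
    rcases hr : rs X (wd a n) with _ | ⟨r, t⟩
    · unfold killw at hk
      rw [hr] at hk
      exact absurd hk (by simp)
    · have hk' : gtF X (cond neg f.flip f) (wd a n) (st X (wd a n)) r a1 a2 b1 b2 = true := by
        unfold killw at hk
        rw [hr] at hk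
        exact hk
      obtain ⟨hFI, hY⟩ := h.inv G hp n r t hr
      have h12 : a1 ≤ a2 := by
        have : (a1 : ℝ) ≤ a2 := ha1.trans ha2'
        exact_mod_cast this
      have hrange := hY.range G hXa h12 ha2 ha1 ha2'
      have hv := gtF_val _ hFI hrange hXa hXb ha1 ha2' hb1 hb2 hk'
      have hm := abs_le.1 hmem
      rcases neg with _ | _
      · have hv' : (f.c : ℝ) < f.val (yw α (wd a n)) (yw β (wd a n)) (uw β (wd a n))
            (qw α β (wd a n)) := hv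
        linarith
      · have hv' : (f.c : ℝ) < f.flip.val (yw α (wd a n)) (yw β (wd a n)) (uw β (wd a n))
            (qw α β (wd a n)) := hv
        rw [Fn.val_flip] at hv'
        linarith

theorem chk_sound (G : X.Good) (hp : X.In α β) (h : Sq a α β) (hab : 2 < α * β) {F : List Fn}
    (hF : ∀ f ∈ F, ∀ n, |f.val (yw α (wd a n)) (yw β (wd a n)) (uw β (wd a n))
      (qw α β (wd a n))| ≤ f.c) {K : Option KD} (hK : okK X K = true) (c : Tr) :
    ∀ (n a1 a2 b1 b2 : ℕ), X.a ≤ a1 → a2 ≤ X.a + X.da → X.b ≤ b1 → b2 ≤ X.b + X.db →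
      (a1 : ℝ) ≤ α * D → α * D ≤ a2 → (b1 : ℝ) ≤ β * D → β * D ≤ b2 →
      chk X F K c (wd a n) a1 a2 b1 b2 = true → Near (1 / α) (1 / β) := by
  have hD := Dpos
  induction c with
  | b =>
    intro n a1 a2 b1 b2 _ _ _ _ ha1 ha2 hb1 hb2 hc
    exfalso
    have e : Nat.ble (Nat.mul a2 b2) (Nat.mul 2 (Nat.mul D D)) = true := hc
    have k := ble_R e
    rw [cmul, cmul, cmul] at k
    have h1 : 0 < α * D := mul_pos (by linarith [h.ha1]) hD
    have h2 : 0 < β * D := mul_pos (by linarith [h.hb1]) hD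
    have h3 : α * D * (β * D) ≤ a2 * b2 := mul_le_mul ha2 hb2 h2.le (h1.le.trans ha2)
    have h4 : 2 * ((D : ℝ) * D) < α * D * (β * D) := by
      have := mul_lt_mul_of_pos_right hab (mul_pos hD hD)
      have e : α * D * (β * D) = α * β * (D * D) := by ring
      rw [e]; exact this
    push_cast at k
    linarith
  | k j =>
    intro n a1 a2 b1 b2 g1 g2 g3 g4 ha1 ha2 hb1 hb2 hc
    exact (killw_false G hp h hF g1 g2 g3 ha1 ha2 hb1 hb2 (neg := false) hc).elim
  | l j =>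
    intro n a1 a2 b1 b2 g1 g2 g3 g4 ha1 ha2 hb1 hb2 hc
    exact (killw_false G hp h hF g1 g2 g3 ha1 ha2 hb1 hb2 (neg := true) hc).elim
  | i =>
    intro n a1 a2 b1 b2 g1 g2 g3 g4 ha1 ha2 hb1 hb2 hc
    exact inKw_near G hK hp hab h.hne (w := wd a n)
      (fun r t hr => ⟨(h.inv G hp n r t hr).1.toVI, (h.inv G hp n r t hr).2⟩)
      g1 g2 g3 ha1 ha2 hb1 hb2 hc
  | p w' =>
    intro n a1 a2 b1 b2 g1 g2 g3 g4 ha1 ha2 hb1 hb2 hc
    have hc' : (good X a1 w' && inKw X K w' a1 a2 b1 b2) = true := hc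
    rw [Bool.and_eq_true] at hc'
    have h12 : a1 ≤ X.a + X.da := by
      have : (a1 : ℝ) ≤ a2 := ha1.trans ha2
      have h13 : a1 ≤ a2 := by exact_mod_cast this
      exact h13.trans g2
    exact inKw_near G hK hp hab h.hne (w := w')
      (fun r t hr => path_inv G hp.2.2.1 hp.2.2.2 g1 h12 w' hc'.1 r t hr)
      g1 g2 g3 ha1 ha2 hb1 hb2 hc'.2
  | g x y z hx hy hz =>
    intro n a1 a2 b1 b2 g1 g2 g3 g4 ha1 ha2 hb1 hb2 hc
    have hc' : (chk X F K x (.m (wd a n)) a1 a2 b1 b2 && (chk X F K y (.o (wd a n)) a1 a2 b1 b2 &&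
      chk X F K z (.p (wd a n)) a1 a2 b1 b2)) = true := hc
    rw [Bool.and_eq_true, Bool.and_eq_true] at hc'
    have e : wd a (n + 1) = dg (a (n + 1)) (wd a n) := rfl
    rcases nxt_wd a n with hw | hw | hw
    · exact hx (n + 1) a1 a2 b1 b2 g1 g2 g3 g4 ha1 ha2 hb1 hb2 (by rw [hw]; exact hc'.1)
    · exact hy (n + 1) a1 a2 b1 b2 g1 g2 g3 g4 ha1 ha2 hb1 hb2 (by rw [hw]; exact hc'.2.1)
    · exact hz (n + 1) a1 a2 b1 b2 g1 g2 g3 g4 ha1 ha2 hb1 hb2 (by rw [hw]; exact hc'.2.2)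
  | s v x y hx hy =>
    intro n a1 a2 b1 b2 g1 g2 g3 g4 ha1 ha2 hb1 hb2 hc
    have hc' : ((Nat.ble a1 v && Nat.ble v a2) && (chk X F K x (wd a n) a1 v b1 b2 &&
      chk X F K y (wd a n) v a2 b1 b2)) = true := hc
    rw [Bool.and_eq_true, Bool.and_eq_true, Bool.and_eq_true] at hc'
    obtain ⟨⟨k1, k2⟩, k3, k4⟩ := hc'
    have k1' := Nat.le_of_ble_eq_true k1
    have k2' := Nat.le_of_ble_eq_true k2
    rcases le_total (α * D) (v : ℝ) with hle | hle
    · exact hx n a1 v b1 b2 g1 (k2'.trans g2) g3 g4 ha1 hle hb1 hb2 k3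
    · exact hy n v a2 b1 b2 (g1.trans k1') g2 g3 g4 hle ha2 hb1 hb2 k4
  | t v x y hx hy =>
    intro n a1 a2 b1 b2 g1 g2 g3 g4 ha1 ha2 hb1 hb2 hc
    have hc' : ((Nat.ble b1 v && Nat.ble v b2) && (chk X F K x (wd a n) a1 a2 b1 v &&
      chk X F K y (wd a n) a1 a2 v b2)) = true := hc
    rw [Bool.and_eq_true, Bool.and_eq_true, Bool.and_eq_true] at hc'
    obtain ⟨⟨k1, k2⟩, k3, k4⟩ := hc'
    have k1' := Nat.le_of_ble_eq_true k1
    have k2' := Nat.le_of_ble_eq_true k2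
    rcases le_total (β * D) (v : ℝ) with hle | hle
    · exact hx n a1 a2 b1 v g1 g2 g3 (k2'.trans g4) ha1 ha2 hb1 hle k3
    · exact hy n a1 a2 v b2 g1 g2 (g3.trans k1') g4 ha1 ha2 hle hb2 k4

end

end Pool.Agent.Helper65.Conn
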